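import Pool.Agent.L5helper28.IF.Char

/-!
# The exceptional indices
-/

set_option autoImplicit false
set_option linter.unusedSectionVars false

open Module ComplexConjugate

namespace Pool.Agent.L5helper28.IF

noncomputable section

variable {J : Type*} {V : J → Type} [∀ j, AddCommGroup (V j)] [∀ j, Module ℂ (V j)]
  {ι : Type*} {Γ : Type} [Group Γ] {h : Γ → Ops V} {x : ι → J} {z : J}
  [FiniteDimensional ℂ (V z)] {s : StD (V z)}

/-- the bound for the number of the essential indices -/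
theorem bound {S : Finset ι} (hst : StC (LL h) x s (S : Set ι))
    (hind : Ind (LL h) x (S : Set ι))
    (hne : ∀ i ∈ S, KF (LL h) x z ((S : Set ι) \ {i}) ≠ KF (LL h) x z S)
    (htz : TrSt (Chr h z)) (htx : ∀ i ∈ S, TrSt (Chr h (x i)))
    {B : V z →ₗ[ℂ] V z →ₗ[ℂ] ℂ} (hB : ∀ v, (∀ u, B v u = 0) → v = 0)
    (hsk : ∀ D ∈ LL h, ∀ u v, B (D z u) v = -B u (D z v)) {V0 : Submodule ℂ (V z)}
    (h0 : ∀ D ∈ LL h, ∀ v ∈ V0, D z v = 0) :
    2 * S.card + finrank ℂ V0 ≤ finrank ℂ (V z) := by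
  obtain ⟨κ, hκ, T, h1, h2, h3, h4⟩ := exists_torus (fun D hD E hE => LL_br hD hE) hst hne
    fun A hAS hA => card_le_center hst hind hne htz htx hAS hA
  have h5 : ∀ i, ∃ D ∈ LL h, D z = T i := fun i => by
    obtain ⟨D, hD, h⟩ := (h2 i).1
    exact ⟨D, hD.1, h⟩
  have h6 := rank_lemma s hB (fun i => (h2 i).2) h3 h4 (fun i u v => by
    obtain ⟨D, hD, h⟩ := h5 i
    rw [← h]
    exact hsk D hD u v) (V0 := V0) (fun i v hv => by
    obtain ⟨D, hD, h⟩ := h5 i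
    rw [← h]
    exact h0 D hD v hv)
  omega

/-- **The exceptional indices.** -/
theorem exists_exceptional (hst : ∀ F : Finset ι, StC (LL h) x s (F : Set ι))
    (hind : ∀ F : Finset ι, Ind (LL h) x (F : Set ι))
    (htz : TrSt (Chr h z)) (htx : ∀ i, TrSt (Chr h (x i)))
    {B : V z →ₗ[ℂ] V z →ₗ[ℂ] ℂ} (hB : ∀ v, (∀ u, B v u = 0) → v = 0)
    (hsk : ∀ D ∈ LL h, ∀ u v, B (D z u) v = -B u (D z v)) {V0 : Submodule ℂ (V z)}
    (h0 : ∀ D ∈ LL h, ∀ v ∈ V0, D z v = 0) :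
    ∃ S : Finset ι, 2 * S.card + finrank ℂ V0 ≤ finrank ℂ (V z) ∧
      ∀ F : Finset ι, KF (LL h) x z ((S : Set ι) ∪ F) = KF (LL h) x z (S : Set ι) := by
  classical
  have hex : ∃ n, ∃ F : Finset ι, finrank ℂ (KF (LL h) x z (F : Set ι)) = n := ⟨_, ∅, rfl⟩
  obtain ⟨F0, hF0⟩ := Nat.find_spec hex
  have hmin : ∀ F : Finset ι, finrank ℂ (KF (LL h) x z (F0 : Set ι)) ≤
      finrank ℂ (KF (LL h) x z (F : Set ι)) := fun F => by
    rw [hF0]
    exact Nat.find_min' hex ⟨F, rfl⟩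
  have hF : ∀ F : Finset ι, (F0 : Set ι) ⊆ F →
      KF (LL h) x z (F : Set ι) = KF (LL h) x z (F0 : Set ι) := fun F hF =>
    Submodule.eq_of_le_of_finrank_le (KF_mono hF) (hmin F)
  have hex' : ∃ n, ∃ S : Finset ι, KF (LL h) x z (S : Set ι) = KF (LL h) x z (F0 : Set ι) ∧
    S.card = n := ⟨_, F0, rfl, rfl⟩
  obtain ⟨S, hS, hSc⟩ := Nat.find_spec hex'
  have hne : ∀ i ∈ S, KF (LL h) x z ((S : Set ι) \ {i}) ≠ KF (LL h) x z S := by
    intro i hi h1
    have h2 : Nat.find hex' ≤ (S.erase i).card := by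
      refine Nat.find_min' hex' ⟨S.erase i, ?_, rfl⟩
      rw [← hS, ← h1, Finset.coe_erase]
    rw [← hSc] at h2
    have h3 := Finset.card_erase_lt_of_mem hi
    omega
  refine ⟨S, bound (hst S) (hind S) hne htz (fun i _ => htx i) hB hsk h0, fun F => ?_⟩
  refine le_antisymm (KF_mono Set.subset_union_left) ?_
  have h1 := hF (F0 ∪ (S ∪ F)) (by
    rw [Finset.coe_union]
    exact Set.subset_union_left)
  rw [hS, ← h1]
  refine KF_mono ?_
  rw [Finset.coe_union, Finset.coe_union]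
  exact Set.subset_union_right

/-- Outside the exceptional indices: elements which act as given on the spaces with indices in `F`
and as zero on the other spaces. -/
theorem exists_split {S : Finset ι}
    (hS : ∀ F : Finset ι, KF (LL h) x z ((S : Set ι) ∪ F) = KF (LL h) x z (S : Set ι))
    (hind : ∀ F : Finset ι, Ind (LL h) x (F : Set ι)) {F : Finset ι} (hF : Disjoint F S)
    {D : Ops V} (hD : D ∈ LL h) :
    ∃ D' ∈ LL h, (∀ i ∈ F, D' (x i) = D (x i)) ∧ (∀ i ∈ S, D' (x i) = 0) ∧ D' z = 0 := by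
  classical
  have h1 : ∀ i : ι, ∃ E : Ops V, i ∈ F → E ∈ JF (LL h) x (((F ∪ S : Finset ι) : Set ι) \ {i}) ∧
      E (x i) = D (x i) := by
    intro i
    by_cases hi : i ∈ F
    · obtain ⟨E, hE, h2⟩ := hind (F ∪ S) i (Finset.mem_union_left _ hi) D hD
      exact ⟨E, fun _ => ⟨hE, h2⟩⟩
    · exact ⟨0, fun hh => absurd hh hi⟩
  choose E hE using h1
  have h2 : ∑ i ∈ F, E i ∈ LL h := sum_mem fun i hi => (hE i hi).1.1
  have h3 : ∀ k ∈ F, (∑ i ∈ F, E i) (x k) = D (x k) := by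
    intro k hk
    rw [Finset.sum_apply, Finset.sum_eq_single k, (hE k hk).2]
    · intro i hi hik
      exact (hE i hi).1.2 k ⟨by rw [Finset.coe_union]; exact Or.inl hk, Ne.symm hik⟩
    · intro hh; exact absurd hk hh
  have h4 : ∀ k ∈ S, (∑ i ∈ F, E i) (x k) = 0 := by
    intro k hk
    rw [Finset.sum_apply]
    refine Finset.sum_eq_zero fun i hi => ?_
    refine (hE i hi).1.2 k ⟨by rw [Finset.coe_union]; exact Or.inr hk, fun hki => ?_⟩
    exact Finset.disjoint_left.1 hF hi (hki ▸ hk)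
  have h5 : (∑ i ∈ F, E i) z ∈ KF (LL h) x z ((S : Set ι) ∪ F) := by
    rw [hS F]
    exact ⟨_, ⟨h2, h4⟩, rfl⟩
  obtain ⟨G, hG, h6⟩ := h5
  refine ⟨∑ i ∈ F, E i - G, sub_mem h2 hG.1, fun i hi => ?_, fun i hi => ?_, ?_⟩
  · rw [Pi.sub_apply, h3 i hi, hG.2 i (Or.inr hi), sub_zero]
  · rw [Pi.sub_apply, h4 i hi, hG.2 i (Or.inl hi), sub_zero]
  · rw [Pi.sub_apply]
    exact sub_eq_zero.2 h6.symm

end

end Pool.Agent.L5helper28.IF
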