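import Pool.Agent.L5helper28.IF.Pol

/-!
# The Lie algebra of a polarised Hodge structure is closed under the adjoint
-/

set_option autoImplicit false
set_option linter.unusedSectionVars false

open Module ComplexConjugate

namespace Pool.Agent.L5helper28.IF

open Pool.Agent.N179.DB (sl sl_smul sl_basis sl_comp sl_refl sl_symm sl_symm' sl_inj repr_sl)

noncomputable section

variable {J : Type*} {V : J → Type} [∀ j, AddCommGroup (V j)] [∀ j, Module ℂ (V j)]
  {β : J → Type} [∀ j, Fintype (β j)] {b : ∀ j, Basis (β j) ℂ (V j)} {H : Ops V}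

theorem hh_one : hh b H 1 = H := funext fun j => cjg_one (b j) (H j)

theorem H_mem : H ∈ LL (hh b H) := by
  have h1 := LL_of (h := hh b H) 1
  rwa [hh_one] at h1

/-- the commutator with the Hodge operator -/
def adh (H : Ops V) : Ops V →ₗ[ℂ] Ops V := LinearMap.mulLeft ℂ H - LinearMap.mulRight ℂ H

theorem adh_apply (D : Ops V) : adh H D = H * D - D * H := rfl

theorem adh_mem {D : Ops V} (hD : D ∈ LL (hh b H)) : adh H D ∈ LL (hh b H) := by
  rw [adh_apply]
  exact LL_br H_mem hD

theorem adh_pow_mem {D : Ops V} (hD : D ∈ LL (hh b H)) (k : ℕ) :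
    (adh H ^ k) D ∈ LL (hh b H) := by
  induction k with
  | zero => exact hD
  | succ k ih =>
    rw [pow_succ', End.mul_apply]
    exact adh_mem ih

theorem aeval_adh_mem {D : Ops V} (hD : D ∈ LL (hh b H)) (p : Polynomial ℂ) :
    (Polynomial.aeval (adh H) p) D ∈ LL (hh b H) := by
  rw [Polynomial.aeval_eq_sum_range, LinearMap.sum_apply]
  exact sum_mem fun k _ => Submodule.smul_mem _ _ (adh_pow_mem hD k)

theorem adh_pow_zero {D : Ops V} {j : J} (hD : D j = 0) (k : ℕ) : ((adh H ^ k) D) j = 0 := by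
  induction k with
  | zero => exact hD
  | succ k ih =>
    rw [pow_succ', End.mul_apply, adh_apply, Pi.sub_apply, Pi.mul_apply, Pi.mul_apply, ih,
      mul_zero, zero_mul, sub_zero]

theorem aeval_adh_zero {D : Ops V} {j : J} (hD : D j = 0) (p : Polynomial ℂ) :
    ((Polynomial.aeval (adh H) p) D) j = 0 := by
  rw [Polynomial.aeval_eq_sum_range, LinearMap.sum_apply, Finset.sum_apply]
  refine Finset.sum_eq_zero fun k _ => ?_
  rw [LinearMap.smul_apply, Pi.smul_apply, adh_pow_zero hD, smul_zero]

theorem adh_pow_apply {z : J} {m : ℂ} {u : V z} (hu : H z u = m • u) (k : ℕ) :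
    ∀ D : Ops V, ((adh H ^ k) D) z u = ((H z - m • (1 : End ℂ (V z))) ^ k) (D z u) := by
  induction k with
  | zero => intro D; rfl
  | succ k ih =>
    intro D
    rw [pow_succ, End.mul_apply, ih, pow_succ, End.mul_apply]
    congr 1
    rw [adh_apply, Pi.sub_apply, Pi.mul_apply, Pi.mul_apply, LinearMap.sub_apply, End.mul_apply,
      End.mul_apply, hu, map_smul, LinearMap.sub_apply, LinearMap.smul_apply, End.one_apply]

theorem aeval_adh_apply {z : J} {m : ℂ} {u : V z} (hu : H z u = m • u) (p : Polynomial ℂ)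
    (D : Ops V) : ((Polynomial.aeval (adh H) p) D) z u =
      (Polynomial.aeval (H z - m • (1 : End ℂ (V z))) p) (D z u) := by
  rw [Polynomial.aeval_eq_sum_range, Polynomial.aeval_eq_sum_range, LinearMap.sum_apply,
    Finset.sum_apply, LinearMap.sum_apply, LinearMap.sum_apply]
  refine Finset.sum_congr rfl fun k _ => ?_
  rw [LinearMap.smul_apply, Pi.smul_apply, LinearMap.smul_apply, adh_pow_apply hu,
    LinearMap.smul_apply]

theorem aeval_eig {V : Type*} [AddCommGroup V] [Module ℂ V] {A : End ℂ V} {c : ℂ} {v : V}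
    (hv : A v = c • v) (p : Polynomial ℂ) : (Polynomial.aeval A p) v = p.eval c • v := by
  have h1 : ∀ k : ℕ, (A ^ k) v = c ^ k • v := by
    intro k
    induction k with
    | zero => rw [pow_zero, pow_zero, one_smul]; rfl
    | succ k ih => rw [pow_succ', End.mul_apply, ih, map_smul, hv, smul_smul, pow_succ]
  rw [Polynomial.aeval_eq_sum_range, LinearMap.sum_apply, Polynomial.eval_eq_sum_range,
    Finset.sum_smul]
  refine Finset.sum_congr rfl fun k _ => ?_
  rw [LinearMap.smul_apply, h1, smul_smul]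

theorem exists_poly (s : Finset ℤ) (f : ℤ → ℂ) :
    ∃ p : Polynomial ℂ, ∀ k ∈ s, p.eval (k : ℂ) = f k := by
  classical
  refine ⟨Lagrange.interpolate s (fun k : ℤ => (k : ℂ)) f, fun k hk => ?_⟩
  exact Lagrange.eval_interpolate_at_node _ (Int.cast_injective.injOn) hk

variable {z : J} {n : ℕ} {e : Basis (Fin n) ℂ (V z)} {w : Fin n → ℤ}
  (he : ∀ i, H z (e i) = (w i : ℂ) • e i)

include he

/-- the conjugation by the Weil operator -/
theorem exists_AdC : ∃ p : Polynomial ℂ, ∀ D : Ops V, ((Polynomial.aeval (adh H) p) D) z =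
    dg e w (fun m => Complex.I ^ m) * D z * dg e w (fun m => Complex.I ^ (-m)) := by
  classical
  obtain ⟨p, hp⟩ := exists_poly (Finset.univ.image fun r : Fin n × Fin n => w r.1 - w r.2)
    fun k => Complex.I ^ k
  refine ⟨p, fun D => e.ext fun i => ?_⟩
  rw [aeval_adh_apply (he i), End.mul_apply, End.mul_apply, dg_basis, map_smul, map_smul]
  conv_lhs => rw [← e.sum_repr (D z (e i))]
  conv_rhs => rw [← e.sum_repr (D z (e i))]
  rw [map_sum, map_sum, Finset.smul_sum]
  refine Finset.sum_congr rfl fun k _ => ?_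
  rw [map_smul, map_smul, dg_basis]
  have h1 : (H z - (w i : ℂ) • (1 : End ℂ (V z))) (e k) = ((w k - w i : ℤ) : ℂ) • e k := by
    rw [LinearMap.sub_apply, he, LinearMap.smul_apply, End.one_apply, ← sub_smul, Int.cast_sub]
  rw [aeval_eig h1, hp _ (Finset.mem_image.2 ⟨(k, i), Finset.mem_univ _, rfl⟩), smul_smul,
    smul_smul, smul_smul]
  congr 1
  rw [sub_eq_add_neg, zpow_add₀ Complex.I_ne_zero]
  ring

omit he

theorem skew_LL (P : PolS (b z) (H z)) {D : Ops V} (hD : D ∈ LL (hh b H)) :
    ∀ u v, P.B (D z u) v = -P.B u (D z v) := by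
  refine LL_ind (P := fun D => ∀ u v, P.B (D z u) v = -P.B u (D z v)) ?_ ?_ ?_ ?_ ?_ hD
  · intro σ u v
    have h1 : P.B (sl (b z) σ (H z (sl (b z) σ.symm u))) (sl (b z) σ (sl (b z) σ.symm v)) =
        -P.B (sl (b z) σ (sl (b z) σ.symm u)) (sl (b z) σ (H z (sl (b z) σ.symm v))) := by
      rw [P.rat, P.rat, P.skew, map_neg]
    rw [sl_symm', sl_symm'] at h1
    exact h1
  · intro u v
    rw [Pi.zero_apply, LinearMap.zero_apply, LinearMap.zero_apply, map_zero, map_zero,
      LinearMap.zero_apply, neg_zero]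
  · intro D E _ _ hD hE u v
    rw [Pi.add_apply, LinearMap.add_apply, LinearMap.add_apply, map_add, map_add,
      LinearMap.add_apply, hD, hE, neg_add]
  · intro c D _ hD u v
    rw [Pi.smul_apply, LinearMap.smul_apply, LinearMap.smul_apply, map_smul, map_smul,
      LinearMap.smul_apply, hD, smul_neg]
  · intro D E _ _ hD hE u v
    rw [Pi.sub_apply, Pi.mul_apply, Pi.mul_apply, LinearMap.sub_apply, LinearMap.sub_apply,
      End.mul_apply, End.mul_apply, End.mul_apply, End.mul_apply, map_sub, map_sub,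
      LinearMap.sub_apply, hD, hE, hE, hD]
    ring

/-- **The adjoint.** -/
theorem exists_star (P : PolS (b z) (H z)) : ∃ s : StD (V z), ∀ D ∈ LL (hh b H),
    ∃ D' ∈ LL (hh b H), D' z = s.st (D z) ∧ ∀ j, D j = 0 → D' j = 0 := by
  haveI : FiniteDimensional ℂ (V z) := Module.Finite.of_basis (b z)
  obtain ⟨n, e, w, he⟩ := exists_eigenbasis P.diag
  obtain ⟨s, hs⟩ := exists_std (V z) (core P he)
  obtain ⟨p, hp⟩ := exists_AdC (H := H) he
  refine ⟨s, fun D hD => ?_⟩
  have h1 := aeval_adh_mem hD p
  have h2 := cjg_mem b H cc h1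
  refine ⟨-fun j => cjg (b j) cc (((Polynomial.aeval (adh H) p) D) j), neg_mem h2, ?_, ?_⟩
  · refine LinearMap.ext fun u => ?_
    have h3 : ∀ v, (core P he).inner (s.st (D z) u) v = (core P he).inner u (D z v) := fun v =>
      hs (D z) u v
    have h4 : ∀ v, (core P he).inner
        ((-fun j => cjg (b j) cc (((Polynomial.aeval (adh H) p) D) j)) z u) v =
        (core P he).inner u (D z v) := by
      intro v
      change P.B (dg e w (fun m => Complex.I ^ m) v) (sl (b z) cc
        (-(sl (b z) cc ((((Polynomial.aeval (adh H) p) D) z) (sl (b z) cc.symm u))))) =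
        P.B (dg e w (fun m => Complex.I ^ m) (D z v)) (sl (b z) cc u)
      rw [map_neg, sl_cc, map_neg, cc_symm, ← skew_LL P h1, hp, End.mul_apply, End.mul_apply,
        ← End.mul_apply (dg e w fun m => Complex.I ^ (-m)), dg_mul]
      have h5 : (fun k : ℤ => Complex.I ^ (-k) * Complex.I ^ k) = fun _ => 1 := by
        funext k
        rw [← zpow_add₀ Complex.I_ne_zero, neg_add_cancel, zpow_zero]
      rw [h5, dg_one]
    have h6 : ∀ v, (core P he).inner
        ((-fun j => cjg (b j) cc (((Polynomial.aeval (adh H) p) D) j)) z u - s.st (D z) u) v =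
        0 := by
      intro v
      have h7 : ∀ a c : V z, (core P he).inner (a - c) v =
          (core P he).inner a v - (core P he).inner c v := by
        intro a c
        change sq P e w (a - c) v = sq P e w a v - sq P e w c v
        rw [sub_eq_add_neg, sq_add_left, ← neg_one_smul ℂ c, sq_smul_left, map_neg, map_one,
          neg_one_mul, ← sub_eq_add_neg]
      rw [h7, h4, h3, sub_self]
    exact sub_eq_zero.1 ((core P he).definite _ (h6 _))
  · intro j hj
    change -cjg (b j) cc (((Polynomial.aeval (adh H) p) D) j) = 0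
    rw [aeval_adh_zero hj, cjg_zero, neg_zero]

theorem B_nondeg (P : PolS (b z) (H z)) (v : V z) (hv : ∀ u, P.B v u = 0) : v = 0 := by
  haveI : FiniteDimensional ℂ (V z) := Module.Finite.of_basis (b z)
  obtain ⟨n, e, w, he⟩ := exists_eigenbasis P.diag
  obtain ⟨s, hs⟩ := exists_std (V z) (core P he)
  have h5 : dg e w (fun m => Complex.I ^ m) (dg e w (fun m => Complex.I ^ (-m)) v) = v := by
    rw [← End.mul_apply, dg_mul]
    have h5 : (fun k : ℤ => Complex.I ^ k * Complex.I ^ (-k)) = fun _ => 1 := by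
      funext k
      rw [← zpow_add₀ Complex.I_ne_zero, add_neg_cancel, zpow_zero]
    rw [h5, dg_one]
  have h6 : dg e w (fun m => Complex.I ^ (-m)) v = 0 := by
    refine (core P he).definite _ ?_
    change P.B (dg e w (fun m => Complex.I ^ m) (dg e w (fun m => Complex.I ^ (-m)) v)) _ = 0
    rw [h5]
    exact hv _
  rw [← h5, h6, map_zero]

end

end Pool.Agent.L5helper28.IF
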