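import Pool.Agent.Y121.AHS.Defs

/-!
# Independent families: definitions
-/

set_option autoImplicit false

universe u v

namespace Pool.Agent.L5helper28.Fam

section HodgeStructures

open Pool.Agent.Y121.AHS (Ext extMap)

/-- The linear maps from `A` to `A`. -/
abbrev End (K A : Type) [Field K] [Ring A] [Algebra K A] : Type := A →ₗ[K] A

section

variable {K A : Type} [Field K] [Ring A] [Algebra K A]

/-- The commutator. -/
def commutator (D E : End K A) : End K A := D ∘ₗ E - E ∘ₗ D

/-- The linear combination `r D + s E`. -/
def combination (r s : K) (D E : End K A) : End K A := r • D + s • E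

variable [Algebra K ℂ]

/-- The linear combination with the complex coefficients `c i` of the maps `f i` acts on `pq p q`,
the classes of type `(p, q)` in the complexification of `A`, as multiplication by `p - q`. -/
def ActsAsHodge (pq : ℤ → ℤ → Submodule ℂ (Ext K ℂ A)) {m : ℕ} (c : Fin m → ℂ)
    (f : Fin m → End K A) : Prop :=
  ∀ p q : ℤ, ∀ x ∈ pq p q, ∑ i, c i • extMap K ℂ (f i) x = ((p - q : ℤ) : ℂ) • x

end

section

variable {K : Type} [Field K] [Algebra K ℂ] {n : ℕ} {A : Fin n → Type} [∀ a, Ring (A a)]
  [∀ a, Algebra K (A a)]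

/-- The set `g` of tuples of linear maps of the spaces `A a` is a rational Lie algebra: a nonempty
set which is closed under linear combinations and commutators. -/
def IsLie (g : Set (∀ a, End K (A a))) : Prop :=
  g.Nonempty ∧ ∀ D ∈ g, ∀ E ∈ g, (fun a => commutator (D a) (E a)) ∈ g ∧
    ∀ r s : K, (fun a => combination r s (D a) (E a)) ∈ g

/-- Some linear combination with complex coefficients of elements of `g` acts on the classes of
type `(p, q)` in the complexification of every `A a` as multiplication by `p - q`. -/
def ContainsHodge (pq : ∀ a, ℤ → ℤ → Submodule ℂ (Ext K ℂ (A a)))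
    (g : Set (∀ a, End K (A a))) : Prop :=
  ∃ (m : ℕ) (c : Fin m → ℂ) (f : Fin m → ∀ a, End K (A a)), (∀ i, f i ∈ g) ∧
    ∀ a, ActsAsHodge (pq a) c fun i => f i a

/-- The tuple `D` belongs to the Lie algebra of the Hodge group of the Hodge structure
`A 0 ⊕ … ⊕ A (n - 1)`: the smallest rational Lie algebra whose complexification contains the
operator which multiplies the classes of type `(p, q)` by `p - q`. -/
def InHodgeLie (pq : ∀ a, ℤ → ℤ → Submodule ℂ (Ext K ℂ (A a))) (D : ∀ a, End K (A a)) : Prop :=
  ∀ g : Set (∀ a, End K (A a)), IsLie g → ContainsHodge pq g → D ∈ g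

end

/-- Independent Hodge structures: the Lie algebra of the Hodge group of finitely many different
members of the family is the product of the Lie algebras of the Hodge groups of these members. -/
def IndependentHS {K : Type} [Field K] [Algebra K ℂ] {ι : Type v} {A : ι → Type}
    [∀ i, Ring (A i)] [∀ i, Algebra K (A i)]
    (pq : ∀ i, ℤ → ℤ → Submodule ℂ (Ext K ℂ (A i))) : Prop :=
  ∀ (n : ℕ) (e : Fin n → ι), Function.Injective e → ∀ D : ∀ a, End K (A (e a)),
    (∀ a, InHodgeLie (fun _ : Fin 1 => pq (e a)) fun _ => D a) →
      InHodgeLie (fun a => pq (e a)) D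

variable {K A B : Type} [Field K] [Algebra K ℂ] [Ring A] [Algebra K A] [Ring B] [Algebra K B]

/-- The rational linear map `f` is a morphism of Hodge structures up to a Tate twist: it maps the
classes of type `(p, q)` to classes of type `(p + c, q + c)`. -/
def ShiftsTypes (pqA : ℤ → ℤ → Submodule ℂ (Ext K ℂ A)) (pqB : ℤ → ℤ → Submodule ℂ (Ext K ℂ B))
    (f : A →ₗ[K] B) (c : ℤ) : Prop :=
  ∀ p q : ℤ, ∀ x ∈ pqA p q, extMap K ℂ f x ∈ pqB (p + c) (q + c)

/-- The morphisms of Hodge structures from `A` to `B` vanish on the subspace `V`. -/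
def VanishOn (pqA : ℤ → ℤ → Submodule ℂ (Ext K ℂ A)) (pqB : ℤ → ℤ → Submodule ℂ (Ext K ℂ B))
    (V : Submodule K A) : Prop :=
  ∀ f : A →ₗ[K] B, ShiftsTypes pqA pqB f 0 → ∀ x ∈ V, f x = 0

end HodgeStructures

section Algebras

/-- The algebra `B` is generated by the set `s`. -/
def GeneratedBy (K : Type) {B : Type} [Field K] [Ring B] [Algebra K B] (s : Set B) : Prop :=
  Algebra.adjoin K s = ⊤

/-- The dimension of the subspace `V`. -/
noncomputable def dimension {K A : Type} [Field K] [Ring A] [Algebra K A] (V : Submodule K A) : ℕ :=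
  Module.finrank K V

/-- The image of a linear map. -/
def image {K A B : Type} [Field K] [Ring A] [Algebra K A] [Ring B] [Algebra K B]
    (f : A →ₗ[K] B) : Set B := Set.range f

/-- The element `c` is a linear combination of products `p a * q b` with `a` in `SA` and `b` in
`SB`. -/
def SumOfProducts {K A B C : Type} [Field K] [Ring A] [Algebra K A] [Ring B] [Algebra K B] [Ring C]
    [Algebra K C] (p : A →ₐ[K] C) (q : B →ₐ[K] C) (SA : Set A) (SB : Set B) (c : C) : Prop :=
  c ∈ Submodule.span K {x | ∃ a ∈ SA, ∃ b ∈ SB, x = p a * q b}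

end Algebras

section Varieties

open CategoryTheory AlgebraicGeometry
open Pool.Agent.H914 Pool.Agent.H914.VarClass Pool.Agent.H914.VarClass.Obj
  Pool.Agent.H914.WeilCohomology
open Pool.Agent.Y121.AHS

variable {k : Type u} [Field k] {𝒱 : VarClass k} {ops : CycleOps 𝒱}

/-- The Hodge classes on `X`, of all degrees. -/
def hodgeClasses (T : HodgeTheory ops) (X : 𝒱.Obj) : Set (T.W.H X) :=
  {c | ∃ j, IsHodge T X j c}

/-- Every Hodge class on `P × Y` is a linear combination of products of Hodge classes on the
factors. -/
def HodgeKunneth (T : HodgeTheory ops) (P Y : 𝒱.Obj) : Prop :=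
  ∀ c ∈ hodgeClasses T (P.prod Y), SumOfProducts (T.W.map (fst P Y)) (T.W.map (snd P Y))
    (hodgeClasses T P) (hodgeClasses T Y) c

/-- The smallest class of varieties which contains the varieties in `S`, is closed under products,
and contains all varieties `Y` whose cohomology algebra is generated by the images of morphisms of
Hodge structures (up to Tate twists) from the cohomology of finitely many varieties `X a` in the
class. -/
inductive Built (T : HodgeTheory ops) (S : Set 𝒱.Obj) : 𝒱.Obj → Prop
  | of {X : 𝒱.Obj} : X ∈ S → Built T S X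
  | prod {X Y : 𝒱.Obj} : Built T S X → Built T S Y → Built T S (X.prod Y)
  | gen {Y : 𝒱.Obj} (n : ℕ) (X : Fin n → 𝒱.Obj) (f : ∀ a, T.W.H (X a) →ₗ[T.W.K] T.W.H Y)
      (c : Fin n → ℤ) : (∀ a, Built T S (X a)) →
      (∀ a, ShiftsTypes (T.pq (X a)) (T.pq Y) (f a) (c a)) →
      GeneratedBy T.W.K (⋃ a, image (f a)) → Built T S Y

/-- The family is independent: the Lie algebra of the Hodge group of the product of finitely many
different members of the family is the product of the Lie algebras of their Hodge groups. -/
def Independent (T : HodgeTheory ops) {ι : Type v} (X : ι → 𝒱.Obj) : Prop :=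
  IndependentHS fun i => T.pq (X i)

/-- The members of the family are elliptic curves (varieties of dimension one with first Betti
number two), and different members are not isogenous (there is no nonzero morphism of Hodge
structures between their cohomology spaces of degree one). -/
def NonIsogenousCurves (T : HodgeTheory ops) {ι : Type v} (X : ι → 𝒱.Obj) : Prop :=
  (∀ i, (X i).dim = 1 ∧ dimension (T.W.gr (X i) 1) = 2) ∧
    ∀ i j, i ≠ j → VanishOn (T.pq (X i)) (T.pq (X j)) (T.W.gr (X i) 1)

end Varieties

end Pool.Agent.L5helper28.Fam
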