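import Pool.Agent.L5helper28.IF.EllG
import Pool.Agent.L5helper28.IF.PDefs

/-!
# Comparison of the definitions; the theorem
-/

set_option autoImplicit false
set_option linter.unusedSectionVars false

open CategoryTheory AlgebraicGeometry TensorProduct

universe u v

namespace Pool.Agent.L5helper28.IF

open Module
open Pool.Agent.H914 Pool.Agent.H914.VarClass Pool.Agent.H914.VarClass.Obj
  Pool.Agent.H914.WeilCohomology
open Pool.Agent.Y121 Pool.Agent.Y121.AHS Pool.Agent.N996 Pool.Agent.N996.FP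

noncomputable section

variable {k : Type u} [Field k] {𝒱 : VarClass k} {ops : CycleOps 𝒱} {T : HodgeTheory ops}

theorem lie_of {n : ℕ} {X : Fin n → 𝒱.Obj} {g : Submodule T.W.K (Tuples T X)}
    (h : IsLieSub g) : Fam.IsLie (A := fun a => T.W.H (X a)) (g : Set (Tuples T X)) := by
  refine ⟨⟨0, zero_mem g⟩, fun D hD E hE => ⟨h D hD E hE, fun r s => ?_⟩⟩
  exact add_mem (Submodule.smul_mem g r hD) (Submodule.smul_mem g s hE)

/-- the subspace given by a Lie algebra -/
def toSub {n : ℕ} {X : Fin n → 𝒱.Obj} {g : Set (Tuples T X)}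
    (h : Fam.IsLie (A := fun a => T.W.H (X a)) g) : Submodule T.W.K (Tuples T X) where
  carrier := g
  zero_mem' := by
    obtain ⟨D, hD⟩ := h.1
    have h1 := (h.2 D hD D hD).2 0 0
    have h2 : (fun a => Fam.combination (0 : T.W.K) 0 (D a) (D a) : Tuples T X) = 0 := by
      funext a
      change (0 : T.W.K) • D a + (0 : T.W.K) • D a = 0
      rw [zero_smul, add_zero]
    rw [h2] at h1
    exact h1
  add_mem' := by
    intro D E hD hE
    have h1 := (h.2 D hD E hE).2 1 1
    have h2 : (fun a => Fam.combination (1 : T.W.K) 1 (D a) (E a) : Tuples T X) = D + E := by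
      funext a
      change (1 : T.W.K) • D a + (1 : T.W.K) • E a = D a + E a
      rw [one_smul, one_smul]
    rw [h2] at h1
    exact h1
  smul_mem' := by
    intro r D hD
    have h1 := (h.2 D hD D hD).2 r 0
    have h2 : (fun a => Fam.combination r (0 : T.W.K) (D a) (D a) : Tuples T X) = r • D := by
      funext a
      change r • D a + (0 : T.W.K) • D a = r • D a
      rw [zero_smul, add_zero]
    rw [h2] at h1
    exact h1

theorem inHodgeLie_iff {n : ℕ} {X : Fin n → 𝒱.Obj} {D : Tuples T X} :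
    Fam.InHodgeLie (A := fun a => T.W.H (X a)) (fun a => T.pq (X a)) D ↔
      D ∈ HodgeLie T X := by
  rw [HodgeLie, Submodule.mem_sInf]
  constructor
  · rintro h g ⟨h1, h2⟩
    obtain ⟨m, c, f, hf, h3⟩ := h2
    exact h (g : Set (Tuples T X)) (lie_of h1) ⟨m, c, f, hf, fun a p q x hx => h3 a p q x hx⟩
  · intro h g h1 h2
    obtain ⟨m, c, f, hf, h3⟩ := h2
    exact h (toSub h1) ⟨fun D hD E hE => (h1.2 D hD E hE).1,
      ⟨m, c, f, hf, fun a p q x hx => h3 a p q x hx⟩⟩

theorem indep_of {ι : Type v} {X : ι → 𝒱.Obj} (h : Fam.Independent T X) : Independent T X := by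
  intro n e he D hD
  exact inHodgeLie_iff.1 (h n e he D fun a =>
    (inHodgeLie_iff (X := fun _ : Fin 1 => X (e a)) (D := fun _ => D a)).2 (hD a))

theorem built_of {S : Set 𝒱.Obj} {X : 𝒱.Obj} (h : Fam.Built T S X) : Built T S X := by
  induction h with
  | of h => exact Built.of h
  | prod _ _ h1 h2 => exact Built.prod h1 h2
  | gen n X f c _ hf hg ih => exact Built.gen n X f c ih (fun a p q x hx => hf a p q x hx) hg

theorem indep_of_curves {ι : Type v} {X : ι → 𝒱.Obj} (h : Fam.NonIsogenousCurves T X)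
    (hp : ∀ i, ∃ ψ, IsPolarisation T (X i) ψ) : Independent T X := by
  refine independent_elliptic (fun i => h.1 i) hp fun i j hij f hf x hx => ?_
  refine h.2 i j hij f (fun p q y hy => ?_) x hx
  rw [add_zero, add_zero]
  exact hf p q y hy

theorem kunneth_of {P Y : 𝒱.Obj} (h : Spl T P Y) : Fam.HodgeKunneth T P Y := by
  rintro c ⟨d, hc⟩
  refine Submodule.span_mono ?_ (hodge_prod' h hc)
  rintro x ⟨i, j, a, b, ha, hb, rfl⟩
  exact ⟨a, ⟨i, ha⟩, b, ⟨j, hb⟩, rfl⟩

/-- **The theorem.** -/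
theorem final {ι : Type v} (X : ι → 𝒱.Obj) (hX : ∀ i, ∃ ψ, IsPolarisation T (X i) ψ)
    (h : Fam.Independent T X ∨ Fam.NonIsogenousCurves T X) (Z : 𝒱.Obj)
    (hZ : ∃ ψ, IsPolarisation T Z ψ) :
    ∃ S : Set ι, S.Finite ∧ 2 * S.ncard ≤ transBetti T Z ∧
      ∀ P Y : 𝒱.Obj, Fam.Built T (X '' Sᶜ) P → Fam.Built T (insert Z (X '' S)) Y →
        Fam.HodgeKunneth T P Y ∧
        (HodgeConjecture T P → HodgeConjecture T Y → HodgeConjecture T (P.prod Y)) := by
  have hi : Independent T X := by
    rcases h with h | h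
    · exact indep_of h
    · exact indep_of_curves h hX
  obtain ⟨S, hS, h1⟩ := exists_splitting X hX hi.ind hZ
  refine ⟨S, S.finite_toSet, by rwa [Set.ncard_coe_finset], fun P Y hP hY => ?_⟩
  have h2 := h1 P Y (built_of hP) (built_of hY)
  exact ⟨kunneth_of h2, hc_prod h2⟩

end

end Pool.Agent.L5helper28.IF
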