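import Pool.Agent.L5helper28.IF.Torus

/-!
# The number of the essential indices with commutative complements
-/

set_option autoImplicit false
set_option linter.unusedSectionVars false

open Module ComplexConjugate

namespace Pool.Agent.L5helper28.IF

noncomputable section

variable {J : Type*} {V : J → Type} [∀ j, AddCommGroup (V j)] [∀ j, Module ℂ (V j)]
  {ι : Type*} {Γ : Type} [Group Γ] {h : Γ → Ops V} {x : ι → J} {z : J}

/-- the functions given by the characters of the Lie algebra on the space with index `j` -/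
def Chr (h : Γ → Ops V) (j : J) : Submodule ℂ (Γ → ℂ) where
  carrier := {f | ∃ μ : End ℂ (V j) →ₗ[ℂ] ℂ, (∀ D ∈ LL h, ∀ E ∈ LL h,
    μ (D j * E j - E j * D j) = 0) ∧ ∀ σ, f σ = μ (h σ j)}
  zero_mem' := ⟨0, fun _ _ _ _ => rfl, fun _ => rfl⟩
  add_mem' := fun ⟨μ, h1, h2⟩ ⟨ν, h3, h4⟩ => ⟨μ + ν, fun D hD E hE => by
    rw [LinearMap.add_apply, h1 D hD E hE, h3 D hD E hE, add_zero], fun σ => by
    rw [Pi.add_apply, LinearMap.add_apply, h2, h4]⟩
  smul_mem' := fun c _ ⟨μ, h1, h2⟩ => ⟨c • μ, fun D hD E hE => by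
    rw [LinearMap.smul_apply, h1 D hD E hE, smul_zero], fun σ => by
    rw [Pi.smul_apply, LinearMap.smul_apply, h2]⟩

/-- the space of functions is stable under translations -/
def TrSt (M : Submodule ℂ (Γ → ℂ)) : Prop := ∀ f ∈ M, ∀ τ : Γ, (fun σ => f (τ * σ)) ∈ M

/-- the indices are independent -/
def Ind (L : Submodule ℂ (Ops V)) (x : ι → J) (S : Set ι) : Prop :=
  ∀ i ∈ S, ∀ D ∈ L, ∃ D' ∈ JF L x (S \ {i}), D' (x i) = D (x i)

theorem exists_factor {Q E : Type*} [AddCommGroup Q] [Module ℂ Q] [AddCommGroup E] [Module ℂ E]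
    (f : Q →ₗ[ℂ] E) (g : Q →ₗ[ℂ] ℂ) (hk : LinearMap.ker f ≤ LinearMap.ker g) :
    ∃ φ : E →ₗ[ℂ] ℂ, ∀ q, φ (f q) = g q := by
  have h1 : g ∈ (LinearMap.ker f).dualAnnihilator := by
    rw [Submodule.mem_dualAnnihilator]
    intro w hw
    exact hk hw
  rw [← LinearMap.range_dualMap_eq_dualAnnihilator_ker] at h1
  obtain ⟨φ, hφ⟩ := h1
  exact ⟨φ, fun q => LinearMap.congr_fun hφ q⟩

theorem functional_zero {S : Finset ι} {μ : ∀ i : ι, End ℂ (V (x i)) →ₗ[ℂ] ℂ}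
    (h1 : ∀ i ∈ S, ∀ D ∈ LL h, ∀ E ∈ LL h, μ i (D (x i) * E (x i) - E (x i) * D (x i)) = 0)
    (h2 : ∀ σ, ∑ i ∈ S, μ i (h σ (x i)) = 0) {D : Ops V} (hD : D ∈ LL h) :
    ∑ i ∈ S, μ i (D (x i)) = 0 := by
  refine LL_ind (P := fun D => ∑ i ∈ S, μ i (D (x i)) = 0) h2 ?_ ?_ ?_ ?_ hD
  · exact Finset.sum_eq_zero fun i _ => map_zero _
  · intro D E _ _ hD hE
    simp only [Pi.add_apply, map_add]
    rw [Finset.sum_add_distrib, hD, hE, add_zero]
  · intro c D _ hD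
    simp only [Pi.smul_apply, map_smul]
    rw [← Finset.smul_sum, hD, smul_zero]
  · intro D E hD hE _ _
    exact Finset.sum_eq_zero fun i hi => h1 i hi D hD E hE

theorem chr_indep {S : Finset ι} (hind : Ind (LL h) x (S : Set ι)) {g : ι → Γ → ℂ}
    (hg : ∀ i ∈ S, g i ∈ Chr h (x i)) (h0 : ∑ i ∈ S, g i = 0) : ∀ i ∈ S, g i = 0 := by
  classical
  have hg' : ∀ i : ι, ∃ μ : End ℂ (V (x i)) →ₗ[ℂ] ℂ, i ∈ S → (∀ D ∈ LL h, ∀ E ∈ LL h,
      μ (D (x i) * E (x i) - E (x i) * D (x i)) = 0) ∧ ∀ σ, g i σ = μ (h σ (x i)) := by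
    intro i
    by_cases hi : i ∈ S
    · obtain ⟨μ, h1⟩ := hg i hi
      exact ⟨μ, fun _ => h1⟩
    · exact ⟨0, fun h => absurd h hi⟩
  choose μ hμ using hg'
  intro i hi
  funext σ
  obtain ⟨D', hD', h1⟩ := hind i hi (h σ) (LL_of σ)
  have h2 := functional_zero (S := S) (μ := μ) (fun i hi => (hμ i hi).1) (fun σ => by
    have h3 := congrFun h0 σ
    rw [Finset.sum_apply] at h3
    rw [← Finset.sum_congr rfl fun i hi => (hμ i hi).2 σ]
    exact h3) hD'.1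
  rw [Finset.sum_eq_single i] at h2
  · rw [(hμ i hi).2 σ, ← h1, h2]
    rfl
  · intro k hk hki
    rw [hD'.2 k ⟨hk, hki⟩, map_zero]
  · intro h; exact absurd hi h

section

variable [FiniteDimensional ℂ (V z)] {s : StD (V z)} {S : Finset ι}

theorem exists_mu (hind : Ind (LL h) x (S : Set ι)) {y : End ℂ (V z)}
    (hy : y ∈ zz (LL h) x z (S : Set ι)) {i : ι} (hi : i ∈ S) :
    ∃ μ : End ℂ (V (x i)) →ₗ[ℂ] ℂ, (∀ D ∈ LL h, ∀ E ∈ LL h,
      μ (D (x i) * E (x i) - E (x i) * D (x i)) = 0) ∧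
      ∀ D ∈ JF (LL h) x ((S : Set ι) \ {i}), μ (D (x i)) = tr (y * D z) := by
  let Q := JF (LL h) x ((S : Set ι) \ {i})
  let f : Q →ₗ[ℂ] End ℂ (V (x i)) := (LinearMap.proj (x i)) ∘ₗ Q.subtype
  let g : Q →ₗ[ℂ] ℂ := (tr ∘ₗ LinearMap.mulLeft ℂ y ∘ₗ LinearMap.proj z) ∘ₗ Q.subtype
  obtain ⟨μ, hμ⟩ := exists_factor f g (by
    rintro ⟨D, hD⟩ hD0
    have h1 : D (x i) = 0 := hD0
    have h2 : D z ∈ KF (LL h) x z (S : Set ι) := ⟨D, ⟨hD.1, fun k hk => by
      by_cases hki : k = i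
      · rw [hki]; exact h1
      · exact hD.2 k ⟨hk, hki⟩⟩, rfl⟩
    exact hy.2.2 _ h2)
  have hμ' : ∀ D ∈ JF (LL h) x ((S : Set ι) \ {i}), μ (D (x i)) = tr (y * D z) :=
    fun D hD => hμ ⟨D, hD⟩
  refine ⟨μ, fun D hD E hE => ?_, hμ'⟩
  obtain ⟨D', hD', h1⟩ := hind i hi D hD
  obtain ⟨E', hE', h2⟩ := hind i hi E hE
  have h3 : D' * E' - E' * D' ∈ JF (LL h) x ((S : Set ι) \ {i}) :=
    ⟨LL_br hD'.1 hE'.1, fun k hk => by
      rw [Pi.sub_apply, Pi.mul_apply, Pi.mul_apply, hD'.2 k hk, zero_mul, mul_zero, sub_zero]⟩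
  have h4 := hμ' _ h3
  rw [← h1, ← h2]
  refine Eq.trans h4 ?_
  have h5 : D' z ∈ KF (LL h) x z ∅ := ⟨D', ⟨hD'.1, fun _ h => absurd h (Set.notMem_empty _)⟩, rfl⟩
  change tr (y * (D' z * E' z - E' z * D' z)) = 0
  rw [tr_br, hy.2.1 _ h5, sub_self, zero_mul, map_zero]

/-- functions which are characters on both sides come from the centre -/
theorem exists_center (hst : StC (LL h) x s (S : Set ι)) {f : Γ → ℂ} (hf : f ∈ Chr h z)
    {g : ι → Γ → ℂ} (hg : ∀ i ∈ S, g i ∈ Chr h (x i)) (hfg : f = ∑ i ∈ S, g i) :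
    ∃ y ∈ zz (LL h) x z (S : Set ι), ∀ σ, f σ = tr (y * h σ z) := by
  classical
  obtain ⟨μ, hμ1, hμ2⟩ := hf
  have hg' : ∀ i : ι, ∃ μ : End ℂ (V (x i)) →ₗ[ℂ] ℂ, i ∈ S → (∀ D ∈ LL h, ∀ E ∈ LL h,
      μ (D (x i) * E (x i) - E (x i) * D (x i)) = 0) ∧ ∀ σ, g i σ = μ (h σ (x i)) := by
    intro i
    by_cases hi : i ∈ S
    · obtain ⟨μ, h1⟩ := hg i hi
      exact ⟨μ, fun _ => h1⟩
    · exact ⟨0, fun h => absurd h hi⟩
  choose ν hν using hg'
  have h1 : ∀ D ∈ LL h, μ (D z) = ∑ i ∈ S, ν i (D (x i)) := by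
    intro D hD
    refine LL_ind (P := fun D => μ (D z) = ∑ i ∈ S, ν i (D (x i))) ?_ ?_ ?_ ?_ ?_ hD
    · intro σ
      rw [← hμ2 σ, hfg, Finset.sum_apply]
      exact Finset.sum_congr rfl fun i hi => (hν i hi).2 σ
    · rw [Pi.zero_apply, map_zero]
      exact (Finset.sum_eq_zero fun i _ => map_zero _).symm
    · intro D E _ _ hD hE
      simp only [Pi.add_apply, map_add]
      rw [Finset.sum_add_distrib, hD, hE]
    · intro c D _ hD
      simp only [Pi.smul_apply, map_smul]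
      rw [← Finset.smul_sum, hD]
    · intro D E hD hE _ _
      refine (hμ1 D hD E hE).trans (Finset.sum_eq_zero fun i hi => ?_).symm
      exact (hν i hi).1 D hD E hE
  obtain ⟨a, ha, h2⟩ := s.riesz (KF (LL h) x z ∅) μ
  have ha' : s.st a ∈ KF (LL h) x z ∅ := KF_st hst (Set.empty_subset _) ha
  have hbr : ∀ u ∈ KF (LL h) x z ∅, ∀ v ∈ KF (LL h) x z ∅, μ (u * v - v * u) = 0 := by
    rintro _ ⟨D, hD, rfl⟩ _ ⟨E, hE, rfl⟩
    exact hμ1 D hD.1 E hE.1
  have hmem : ∀ σ, h σ z ∈ KF (LL h) x z ∅ := fun σ =>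
    ⟨h σ, ⟨LL_of σ, fun _ hh => absurd hh (Set.notMem_empty _)⟩, rfl⟩
  have hL : ∀ D ∈ LL h, ∀ E ∈ LL h, D * E - E * D ∈ LL h := fun D hD E hE => LL_br hD hE
  refine ⟨s.st a, ⟨ha', fun u hu => ?_, fun k hk => ?_⟩, fun σ => ?_⟩
  · have h3 : s.st a * u - u * s.st a ∈ KF (LL h) x z ∅ := KF_br hL ha' hu
    have h4 : s.st (s.st a * u - u * s.st a) ∈ KF (LL h) x z ∅ :=
      KF_st hst (Set.empty_subset _) h3
    have h5 : tr ((s.st a * u - u * s.st a) * s.st (s.st a * u - u * s.st a)) = 0 := by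
      rw [← tr_br, ← h2 _ (KF_br hL hu h4), hbr u hu _ h4]
    rw [tr_comm] at h5
    exact (sub_eq_zero.1 (s.pos _ h5)).symm
  · obtain ⟨D, hD, rfl⟩ := hk
    rw [← h2 _ ⟨D, ⟨hD.1, fun _ hh => absurd hh (Set.notMem_empty _)⟩, rfl⟩]
    change μ (D z) = 0
    rw [h1 D hD.1]
    exact Finset.sum_eq_zero fun i hi => by rw [hD.2 i hi, map_zero]
  · rw [hμ2, h2 _ (hmem σ)]

/-- **The number of the essential indices with commutative complements.** -/
theorem card_le_center (hst : StC (LL h) x s (S : Set ι)) (hind : Ind (LL h) x (S : Set ι))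
    (hne : ∀ i ∈ S, KF (LL h) x z ((S : Set ι) \ {i}) ≠ KF (LL h) x z S)
    (htz : TrSt (Chr h z)) (htx : ∀ i ∈ S, TrSt (Chr h (x i)))
    {A : Finset ι} (hAS : A ⊆ S) (hA : ∀ i ∈ A, ∀ a ∈ qq (LL h) x s (S : Set ι) i,
      ∀ b ∈ qq (LL h) x s (S : Set ι) i, a * b = b * a) :
    A.card ≤ finrank ℂ (zz (LL h) x z (S : Set ι)) := by
  classical
  have hL : ∀ D ∈ LL h, ∀ E ∈ LL h, D * E - E * D ∈ LL h := fun D hD E hE => LL_br hD hE
  have hc : ∀ (i : ι) (σ : Γ), ∃ D : Ops V, i ∈ S →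
      D ∈ JF (LL h) x ((S : Set ι) \ {i}) ∧ D (x i) = h σ (x i) := by
    intro i σ
    by_cases hi : i ∈ S
    · obtain ⟨D', h1, h2⟩ := hind i hi (h σ) (LL_of σ)
      exact ⟨D', fun _ => ⟨h1, h2⟩⟩
    · exact ⟨0, fun hh => absurd hh hi⟩
  choose c hc using hc
  let Z := zz (LL h) x z (S : Set ι)
  -- the components
  let R : End ℂ (V z) → ι → Γ → ℂ := fun y i σ => tr (y * (c i σ) z)
  have hRc : ∀ y ∈ Z, ∀ i ∈ S, R y i ∈ Chr h (x i) := by
    intro y hy i hi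
    obtain ⟨μ, h1, h2⟩ := exists_mu hind hy hi
    refine ⟨μ, h1, fun σ => ?_⟩
    rw [← (hc i σ hi).2, h2 _ (hc i σ hi).1]
  have hRs : ∀ y ∈ Z, (fun σ => tr (y * h σ z)) = ∑ i ∈ S, R y i := by
    intro y hy
    funext σ
    rw [Finset.sum_apply]
    change tr (y * h σ z) = ∑ i ∈ S, tr (y * (c i σ) z)
    have h1 : (h σ - ∑ i ∈ S, c i σ) ∈ JF (LL h) x (S : Set ι) := by
      refine ⟨sub_mem (LL_of σ) (sum_mem fun i hi => (hc i σ hi).1.1), fun k hk => ?_⟩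
      rw [Pi.sub_apply, Finset.sum_apply, Finset.sum_eq_single k, (hc k σ hk).2, sub_self]
      · intro i hi hik
        exact (hc i σ hi).1.2 k ⟨hk, Ne.symm hik⟩
      · intro hh; exact absurd hk hh
    have h2 := hy.2.2 _ (⟨_, h1, rfl⟩ : LinearMap.proj z (h σ - ∑ i ∈ S, c i σ) ∈
      KF (LL h) x z (S : Set ι))
    have h3 : (LinearMap.proj z : (∀ j, End ℂ (V j)) →ₗ[ℂ] End ℂ (V z)) (h σ - ∑ i ∈ S, c i σ) =
      h σ z - ∑ i ∈ S, (c i σ) z := by
      rw [LinearMap.proj_apply, Pi.sub_apply, Finset.sum_apply]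
    rw [h3, mul_sub, map_sub, Finset.mul_sum, map_sum, sub_eq_zero] at h2
    exact h2
  -- translations
  have htr : ∀ y ∈ Z, ∀ τ : Γ, ∃ y' ∈ Z, ∀ i ∈ S, ∀ σ, R y' i σ = R y i (τ * σ) := by
    intro y hy τ
    have hf : (fun σ => tr (y * h σ z)) ∈ Chr h z := by
      refine ⟨tr ∘ₗ LinearMap.mulLeft ℂ y, fun D hD E hE => ?_, fun σ => rfl⟩
      have h5 : D z ∈ KF (LL h) x z ∅ :=
        ⟨D, ⟨hD, fun _ h => absurd h (Set.notMem_empty _)⟩, rfl⟩
      change tr (y * (D z * E z - E z * D z)) = 0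
      rw [tr_br, hy.2.1 _ h5, sub_self, zero_mul, map_zero]
    have hf' := htz _ hf τ
    have hg' : ∀ i ∈ S, (fun σ => R y i (τ * σ)) ∈ Chr h (x i) := fun i hi =>
      htx i hi _ (hRc y hy i hi) τ
    have hfg : (fun σ => tr (y * h (τ * σ) z)) = ∑ i ∈ S, fun σ => R y i (τ * σ) := by
      funext σ
      have h1 := congrFun (hRs y hy) (τ * σ)
      rw [Finset.sum_apply] at h1 ⊢
      exact h1
    obtain ⟨y', hy', h1⟩ := exists_center hst hf' hg' hfg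
    refine ⟨y', hy', ?_⟩
    have h2 : ∑ i ∈ S, (R y' i - fun σ => R y i (τ * σ)) = 0 := by
      rw [Finset.sum_sub_distrib, ← hRs y' hy', ← hfg, sub_eq_zero]
      funext σ
      exact (h1 σ).symm
    have h3 := chr_indep hind (g := fun i => R y' i - fun σ => R y i (τ * σ))
      (fun i hi => sub_mem (hRc y' hy' i hi) (hg' i hi)) h2
    intro i hi σ
    exact congrFun (sub_eq_zero.1 (h3 i hi)) σ
  -- nonzero components
  have hnz : ∀ i ∈ A, ∃ y ∈ Z, R y i ≠ 0 := by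
    intro i hi
    obtain ⟨w, hw, hw0⟩ := Submodule.exists_mem_ne_zero_of_ne_bot
      (qq_ne (s := s) hL hst (hne i (hAS hi)))
    have hy : s.st w ∈ Z := zz_st hL hst (qq_zz hL hst (hA i hi) hw)
    refine ⟨s.st w, hy, fun h0 => hw0 ?_⟩
    obtain ⟨μ, h1, h2⟩ := exists_mu hind hy (hAS hi)
    have h3 : ∀ D ∈ LL h, μ (D (x i)) = 0 := by
      intro D hD
      refine LL_ind (P := fun D => μ (D (x i)) = 0) ?_ ?_ ?_ ?_ ?_ hD
      · intro σ
        rw [← (hc i σ (hAS hi)).2, h2 _ (hc i σ (hAS hi)).1]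
        exact congrFun h0 σ
      · rw [Pi.zero_apply, map_zero]
      · intro D E _ _ hD hE
        rw [Pi.add_apply, map_add, hD, hE, add_zero]
      · intro c D _ hD
        rw [Pi.smul_apply, map_smul, hD, smul_zero]
      · intro D E hD hE _ _
        exact h1 D hD E hE
    obtain ⟨D, hD, h4⟩ := hw.1
    have h5 : D z = w := h4
    refine s.pos w ?_
    conv_lhs => rw [← h5]
    have h6 := h2 D hD
    rw [h3 D hD.1] at h6
    rw [← h5] at h6
    exact h6.symm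
  -- the linear forms
  let e : A → Dual ℂ Z := fun i =>
    (tr ∘ₗ LinearMap.mulRight ℂ ((c i 1) z)) ∘ₗ Z.subtype
  have hli : LinearIndependent ℂ e := by
    rw [Fintype.linearIndependent_iff]
    intro a ha i
    obtain ⟨y, hy, hy0⟩ := hnz i i.2
    have h1 : ∑ k ∈ S, (fun σ => (if hk : k ∈ A then a ⟨k, hk⟩ else 0) * R y k σ) = 0 := by
      funext τ
      obtain ⟨y', hy', h2⟩ := htr y hy τ
      have h3 := LinearMap.congr_fun ha ⟨y', hy'⟩
      rw [LinearMap.sum_apply] at h3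
      have h4 : ∀ k : A, (a k • e k) ⟨y', hy'⟩ = a k * R y k τ := by
        intro k
        have h5 := h2 k (hAS k.2) 1
        rw [mul_one] at h5
        rw [← h5]
        rfl
      rw [Finset.sum_congr rfl fun k _ => h4 k] at h3
      rw [Finset.sum_apply, Pi.zero_apply]
      have h6 : ∑ k ∈ S, (if hk : k ∈ A then a ⟨k, hk⟩ else 0) * R y k τ =
          ∑ k ∈ A, (if hk : k ∈ A then a ⟨k, hk⟩ else 0) * R y k τ := by
        refine (Finset.sum_subset hAS fun k _ hk => ?_).symm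
        rw [dif_neg hk, zero_mul]
      rw [h6, ← Finset.sum_coe_sort A]
      refine Eq.trans (Finset.sum_congr rfl fun k _ => ?_) h3
      rw [dif_pos k.2]
    have h2 := chr_indep hind (g := fun k σ => (if hk : k ∈ A then a ⟨k, hk⟩ else 0) * R y k σ)
      (fun k hk => Submodule.smul_mem (Chr h (x k)) _ (hRc y hy k hk)) h1 i (hAS i.2)
    by_contra hai
    apply hy0
    funext σ
    have h3 := congrFun h2 σ
    rw [dif_pos i.2] at h3
    exact (mul_eq_zero.1 h3).resolve_left hai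
  have h1 := hli.fintype_card_le_finrank
  rw [Fintype.card_coe, Subspace.dual_finrank_eq] at h1
  exact h1

end

end

end Pool.Agent.L5helper28.IF
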