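import Pool.Agent.L5helper28.IF.Thm
import Pool.Agent.N179.DB.Two

/-!
# The conjugates of an operator under the automorphisms of the field of complex numbers
-/

set_option autoImplicit false
set_option linter.unusedSectionVars false

open Module ComplexConjugate

namespace Pool.Agent.L5helper28.IF

open Pool.Agent.N179.DB (sl sl_smul sl_basis sl_comp sl_refl sl_symm sl_symm' sl_inj repr_sl)

noncomputable section

section cjg

variable {V : Type*} [AddCommGroup V] [Module ℂ V] {β : Type*} [Fintype β] (b : Basis β ℂ V)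

/-- the conjugate of the operator -/
def cjg (τ : ℂ ≃+* ℂ) (A : End ℂ V) : End ℂ V where
  toFun u := sl b τ (A (sl b τ.symm u))
  map_add' u v := by rw [map_add, map_add, map_add]
  map_smul' c u := by
    rw [sl_smul, map_smul, sl_smul, RingEquiv.apply_symm_apply, RingHom.id_apply]

theorem cjg_apply (τ : ℂ ≃+* ℂ) (A : End ℂ V) (u : V) :
    cjg b τ A u = sl b τ (A (sl b τ.symm u)) := rfl

theorem cjg_sl (τ : ℂ ≃+* ℂ) (A : End ℂ V) (u : V) :
    cjg b τ A (sl b τ u) = sl b τ (A u) := by rw [cjg_apply, sl_symm]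

theorem cjg_add (τ : ℂ ≃+* ℂ) (A A' : End ℂ V) : cjg b τ (A + A') = cjg b τ A + cjg b τ A' :=
  LinearMap.ext fun u => by
    rw [cjg_apply, LinearMap.add_apply, map_add]; rfl

theorem cjg_smul (τ : ℂ ≃+* ℂ) (c : ℂ) (A : End ℂ V) : cjg b τ (c • A) = τ c • cjg b τ A :=
  LinearMap.ext fun u => by
    rw [cjg_apply, LinearMap.smul_apply, sl_smul]; rfl

theorem cjg_mul (τ : ℂ ≃+* ℂ) (A A' : End ℂ V) : cjg b τ (A * A') = cjg b τ A * cjg b τ A' :=
  LinearMap.ext fun u => by
    rw [cjg_apply, End.mul_apply, End.mul_apply, cjg_apply, cjg_apply, sl_symm]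

theorem cjg_neg (τ : ℂ ≃+* ℂ) (A : End ℂ V) : cjg b τ (-A) = -cjg b τ A := by
  have h := cjg_smul b τ (-1) A
  rw [map_neg, map_one, neg_smul, one_smul, neg_smul, one_smul] at h
  exact h

theorem cjg_sub (τ : ℂ ≃+* ℂ) (A A' : End ℂ V) : cjg b τ (A - A') = cjg b τ A - cjg b τ A' := by
  rw [sub_eq_add_neg, cjg_add, cjg_neg, ← sub_eq_add_neg]

theorem cjg_zero (τ : ℂ ≃+* ℂ) : cjg b τ (0 : End ℂ V) = 0 := by
  have h := cjg_sub b τ 0 0
  rw [sub_zero, sub_self] at h
  exact h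

theorem cjg_cjg (τ σ : ℂ ≃+* ℂ) (A : End ℂ V) : cjg b τ (cjg b σ A) = cjg b (τ * σ) A :=
  LinearMap.ext fun u => by
    rw [cjg_apply, cjg_apply, cjg_apply, sl_comp, sl_comp]
    rfl

theorem cjg_one (A : End ℂ V) : cjg b 1 A = A :=
  LinearMap.ext fun u => by
    rw [cjg_apply]
    have h1 : ∀ u, sl b (1 : ℂ ≃+* ℂ) u = u := fun u => sl_refl b u
    have h2 : ∀ u, sl b (1 : ℂ ≃+* ℂ).symm u = u := fun u => sl_refl b u
    rw [h1, h2]

theorem cjg_inv (τ : ℂ ≃+* ℂ) (A : End ℂ V) : cjg b τ (cjg b τ⁻¹ A) = A := by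
  rw [cjg_cjg, mul_inv_cancel, cjg_one]

theorem cjg_inv' (τ : ℂ ≃+* ℂ) (A : End ℂ V) : cjg b τ⁻¹ (cjg b τ A) = A := by
  rw [cjg_cjg, inv_mul_cancel, cjg_one]

theorem tr_cjg (τ : ℂ ≃+* ℂ) (A : End ℂ V) : tr (cjg b τ A) = τ (tr A) := by
  classical
  have h1 : ∀ A : End ℂ V, tr A = ∑ i, b.repr (A (b i)) i := by
    intro A
    refine (LinearMap.trace_eq_matrix_trace ℂ b A).trans ?_
    rw [Matrix.trace]
    refine Finset.sum_congr rfl fun i _ => ?_
    rw [Matrix.diag_apply, LinearMap.toMatrix_apply]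
  rw [h1, h1, map_sum]
  refine Finset.sum_congr rfl fun i _ => ?_
  rw [cjg_apply, sl_basis, repr_sl]

end cjg

section fam

variable {J : Type*} {V : J → Type} [∀ j, AddCommGroup (V j)] [∀ j, Module ℂ (V j)]
  {β : J → Type} [∀ j, Fintype (β j)] (b : ∀ j, Basis (β j) ℂ (V j)) (H : Ops V)

/-- the conjugates of a family of operators -/
def hh (τ : ℂ ≃+* ℂ) : Ops V := fun j => cjg (b j) τ (H j)

/-- the conjugate of an element of the Lie algebra -/
theorem cjg_mem (τ : ℂ ≃+* ℂ) {D : Ops V} (hD : D ∈ LL (hh b H)) :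
    (fun j => cjg (b j) τ (D j)) ∈ LL (hh b H) := by
  refine LL_ind (P := fun D => (fun j => cjg (b j) τ (D j)) ∈ LL (hh b H)) ?_ ?_ ?_ ?_ ?_ hD
  · intro σ
    have h1 : (fun j => cjg (b j) τ (hh b H σ j)) = hh b H (τ * σ) := by
      funext j
      exact cjg_cjg (b j) τ σ (H j)
    rw [h1]
    exact LL_of _
  · have h1 : (fun j => cjg (b j) τ ((0 : Ops V) j)) = 0 := by
      funext j
      exact cjg_zero (b j) τ
    rw [h1]
    exact zero_mem _
  · intro D E _ _ hD hE
    have h1 : (fun j => cjg (b j) τ ((D + E) j)) =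
        (fun j => cjg (b j) τ (D j)) + fun j => cjg (b j) τ (E j) := by
      funext j
      exact cjg_add (b j) τ _ _
    rw [h1]
    exact add_mem hD hE
  · intro c D _ hD
    have h1 : (fun j => cjg (b j) τ ((c • D) j)) = τ c • fun j => cjg (b j) τ (D j) := by
      funext j
      exact cjg_smul (b j) τ c _
    rw [h1]
    exact Submodule.smul_mem _ _ hD
  · intro D E _ _ hD hE
    have h1 : (fun j => cjg (b j) τ ((D * E - E * D) j)) =
        (fun j => cjg (b j) τ (D j)) * (fun j => cjg (b j) τ (E j)) -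
        (fun j => cjg (b j) τ (E j)) * fun j => cjg (b j) τ (D j) := by
      funext j
      change cjg (b j) τ (D j * E j - E j * D j) = _
      rw [cjg_sub, cjg_mul, cjg_mul]
      rfl
    rw [h1]
    exact LL_br hD hE

end fam

end

end Pool.Agent.L5helper28.IF
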