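import Pool.Agent.Y121.AHS.Defs

/-!
# Independent families: definitions
-/

set_option autoImplicit false

open CategoryTheory AlgebraicGeometry

universe u

namespace Pool.Agent.L5helper28.IF

open Pool.Agent.H914 Pool.Agent.H914.VarClass Pool.Agent.H914.VarClass.Obj
  Pool.Agent.H914.WeilCohomology
open Pool.Agent.Y121.AHS

variable {k : Type u} [Field k] {𝒱 : VarClass k} {ops : CycleOps 𝒱}

/-- The rational linear map shifts the types by `(c, c)`. -/
def IsShift (T : HodgeTheory ops) {X Y : 𝒱.Obj} (f : T.W.H X →ₗ[T.W.K] T.W.H Y) (c : ℤ) : Prop :=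
  ∀ (p q : ℤ) (x : HL T.W ℂ X), IsType T.pq p q x →
    IsType T.pq (p + c) (q + c) (extMap T.W.K ℂ f x)

/-- The smallest class of varieties which contains the varieties in `S`, is closed under products,
and contains all varieties `Y` whose cohomology algebra is generated by the images of morphisms of
Hodge structures (up to Tate twists) from the cohomology of finitely many varieties `X a` in the
class. -/
inductive Built (T : HodgeTheory ops) (S : Set 𝒱.Obj) : 𝒱.Obj → Prop
  | of {X : 𝒱.Obj} : X ∈ S → Built T S X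
  | prod {X Y : 𝒱.Obj} : Built T S X → Built T S Y → Built T S (X.prod Y)
  | gen {Y : 𝒱.Obj} (n : ℕ) (X : Fin n → 𝒱.Obj) (f : ∀ a, T.W.H (X a) →ₗ[T.W.K] T.W.H Y)
      (c : Fin n → ℤ) : (∀ a, Built T S (X a)) → (∀ a, IsShift T (f a) (c a)) →
      Algebra.adjoin T.W.K (⋃ a, Set.range (f a)) = ⊤ → Built T S Y

/-- The tuples of endomorphisms of the spaces `H(X 0)`, …, `H(X (n - 1))`. -/
abbrev Tuples (T : HodgeTheory ops) {n : ℕ} (X : Fin n → 𝒱.Obj) : Type :=
  ∀ a, Module.End T.W.K (T.W.H (X a))

/-- The subspace is closed under commutators. -/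
def IsLieSub {T : HodgeTheory ops} {n : ℕ} {X : Fin n → 𝒱.Obj}
    (g : Submodule T.W.K (Tuples T X)) : Prop :=
  ∀ D ∈ g, ∀ E ∈ g, D * E - E * D ∈ g

/-- Some linear combination with complex coefficients of elements of `g` acts on the classes of
type `(p, q)` on every `X a` as multiplication by `p - q`. -/
def ContainsHodge {T : HodgeTheory ops} {n : ℕ} {X : Fin n → 𝒱.Obj}
    (g : Submodule T.W.K (Tuples T X)) : Prop :=
  ∃ (m : ℕ) (c : Fin m → ℂ) (f : Fin m → Tuples T X), (∀ i, f i ∈ g) ∧
    ∀ (a : Fin n) (p q : ℤ) (x : HL T.W ℂ (X a)), IsType T.pq p q x →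
      ∑ i, c i • extMap T.W.K ℂ (f i a) x = ((p - q : ℤ) : ℂ) • x

/-- The Lie algebra of the Hodge group of the Hodge structure `H(X 0) ⊕ … ⊕ H(X (n - 1))`: the
smallest rational Lie algebra whose complexification contains the operator which multiplies the
classes of type `(p, q)` by `p - q`. -/
noncomputable def HodgeLie (T : HodgeTheory ops) {n : ℕ} (X : Fin n → 𝒱.Obj) :
    Submodule T.W.K (Tuples T X) := sInf {g | IsLieSub g ∧ ContainsHodge g}

/-- The family is independent: the Lie algebra of the Hodge group of finitely many different members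
of the family is the product of the Lie algebras of the Hodge groups of these members. -/
def Independent (T : HodgeTheory ops) {ι : Type*} (X : ι → 𝒱.Obj) : Prop :=
  ∀ (n : ℕ) (e : Fin n → ι), Function.Injective e → ∀ D : Tuples T fun a => X (e a),
    (∀ a, (fun _ => D a) ∈ HodgeLie T fun _ : Fin 1 => X (e a)) → D ∈ HodgeLie T fun a => X (e a)

/-- `E` is an elliptic curve, or at least its cohomology is of this kind: the dimension of `E` is
one, and `H^1(E)` has dimension two. -/
def IsEllipticCurve (T : HodgeTheory ops) (E : 𝒱.Obj) : Prop :=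
  E.dim = 1 ∧ Module.finrank T.W.K (T.W.gr E 1) = 2

/-- There is no nonzero morphism of Hodge structures from `H^1(E)` to `H^1(E')`. (For elliptic
curves: they are not isogenous.) -/
def NoMorphism (T : HodgeTheory ops) (E E' : 𝒱.Obj) : Prop :=
  ∀ f : T.W.H E →ₗ[T.W.K] T.W.H E',
    (∀ (p q : ℤ) (x : HL T.W ℂ E), IsType T.pq p q x →
      IsType T.pq p q (extMap T.W.K ℂ f x)) → ∀ x ∈ T.W.gr E 1, f x = 0

end Pool.Agent.L5helper28.IF
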