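import Pool.Agent.L5helper28.IF.Lie
import Pool.Agent.N179.DB.M2b
import Pool.Agent.N179.DB.Two

/-!
# Lie algebras with several representations in two-by-two matrices
-/

set_option autoImplicit false
set_option linter.unusedSectionVars false

open Module ComplexConjugate

namespace Pool.Agent.L5helper28.IF

open Pool.Agent.N179.DB.Mt (M2 sl mem_sl mem_sl' eq_of sq_sl e0 f0 h0 e0_mem f0_mem h0_mem expand
  br br_mem br_ne finrank_sl)

noncomputable section

theorem mul_ap (x y : M2) (i j : Fin 2) : (x * y) i j = x i 0 * y 0 j + x i 1 * y 1 j := by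
  rw [Matrix.mul_apply, Fin.sum_univ_two]

theorem br_ap (x y : M2) (i j : Fin 2) : br x y i j =
    (x i 0 * y 0 j + x i 1 * y 1 j) - (y i 0 * x 0 j + y i 1 * x 1 j) := by
  rw [br, Matrix.sub_apply, mul_ap, mul_ap]

theorem e00 : e0 0 0 = 0 := rfl
theorem e01 : e0 0 1 = 1 := rfl
theorem e10 : e0 1 0 = 0 := rfl
theorem e11 : e0 1 1 = 0 := rfl
theorem f00 : f0 0 0 = 0 := rfl
theorem f01 : f0 0 1 = 0 := rfl
theorem f10 : f0 1 0 = 1 := rfl
theorem f11 : f0 1 1 = 0 := rfl

theorem br_h0_e0 : br h0 e0 = (2 : ℂ) • e0 := by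
  refine eq_of ?_ ?_ ?_ ?_ <;>
    simp [br, h0, e0, Matrix.mul_apply, Fin.sum_univ_two]
  norm_num

theorem br_h0_f0 : br h0 f0 = (-2 : ℂ) • f0 := by
  refine eq_of ?_ ?_ ?_ ?_ <;>
    simp [br, h0, f0, Matrix.mul_apply, Fin.sum_univ_two]
  norm_num

theorem br_e0_f0 : br e0 f0 = h0 := by
  refine eq_of ?_ ?_ ?_ ?_ <;>
    simp [br, e0, f0, h0, Matrix.mul_apply, Fin.sum_univ_two]

/-- an ideal of `sl(2)` -/
theorem ideal_sl {S : Submodule ℂ M2} (hS : S ≤ sl)
    (hb : ∀ x ∈ sl, ∀ y ∈ S, br x y ∈ S) (h0' : S ≠ ⊥) : S = sl := by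
  have he : e0 ∈ S → S = sl := by
    intro he
    have h1 : h0 ∈ S := by
      have h2 := hb f0 f0_mem e0 he
      have h3 : br f0 e0 = (-1 : ℂ) • h0 := by
        rw [← br_e0_f0, br, br]
        simp
      rw [h3] at h2
      have h4 := Submodule.smul_mem S (-1 : ℂ) h2
      rwa [smul_smul, neg_mul_neg, one_mul, one_smul] at h4
    have h2 : f0 ∈ S := by
      have h3 := hb f0 f0_mem h0 h1
      have h4 : br f0 h0 = (2 : ℂ) • f0 := by
        have h5 : br f0 h0 = -br h0 f0 := by rw [br, br]; simp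
        rw [h5, br_h0_f0, neg_smul, neg_neg]
      rw [h4] at h3
      have h5 := Submodule.smul_mem S (2⁻¹ : ℂ) h3
      rwa [smul_smul, inv_mul_cancel₀ two_ne_zero, one_smul] at h5
    refine le_antisymm hS fun x hx => ?_
    rw [expand hx]
    exact add_mem (add_mem (Submodule.smul_mem _ _ he) (Submodule.smul_mem _ _ h2))
      (Submodule.smul_mem _ _ h1)
  obtain ⟨y, hy, hy0⟩ := (Submodule.ne_bot_iff S).1 h0'
  have hysl := hS hy
  have hy' := mem_sl'.1 hysl
  by_cases hb0 : y 1 0 = 0
  · by_cases ha0 : y 0 1 = 0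
    · -- `y` is a multiple of `h0`
      have hc : y 0 0 ≠ 0 := by
        intro hc
        apply hy0
        refine eq_of ?_ ?_ ?_ ?_ <;> simp [hb0, ha0, hc, hy']
      apply he
      have h1 := hb e0 e0_mem y hy
      have h2 : br e0 y = (-2 * y 0 0) • e0 := by
        refine eq_of ?_ ?_ ?_ ?_ <;>
          rw [br_ap, Matrix.smul_apply, smul_eq_mul] <;>
          simp only [e00, e01, e10, e11, hb0, ha0, hy'] <;> ring
      rw [h2] at h1
      have h3 := Submodule.smul_mem S (-2 * y 0 0)⁻¹ h1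
      rwa [smul_smul, inv_mul_cancel₀ (mul_ne_zero (by norm_num) hc), one_smul] at h3
    · -- `[f0, [f0, y]]` is a multiple of `f0`
      have h1 := hb f0 f0_mem _ (hb f0 f0_mem y hy)
      have h2 : br f0 (br f0 y) = (-2 * y 0 1) • f0 := by
        refine eq_of ?_ ?_ ?_ ?_ <;>
          rw [br_ap, Matrix.smul_apply, smul_eq_mul] <;>
          simp only [br_ap, f00, f01, f10, f11, hy'] <;> ring
      rw [h2] at h1
      have h3 := Submodule.smul_mem S (-2 * y 0 1)⁻¹ h1
      rw [smul_smul, inv_mul_cancel₀ (mul_ne_zero (by norm_num) ha0), one_smul] at h3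
      apply he
      have h4 := hb e0 e0_mem _ (hb e0 e0_mem f0 h3)
      have h5 : br e0 (br e0 f0) = (-2 : ℂ) • e0 := by
        rw [br_e0_f0]
        have h6 : br e0 h0 = -br h0 e0 := by rw [br, br]; simp
        rw [h6, br_h0_e0, neg_smul]
      rw [h5] at h4
      have h6 := Submodule.smul_mem S (-2 : ℂ)⁻¹ h4
      rwa [smul_smul, inv_mul_cancel₀ (by norm_num), one_smul] at h6
  · apply he
    have h1 := hb e0 e0_mem _ (hb e0 e0_mem y hy)
    have h2 : br e0 (br e0 y) = (-2 * y 1 0) • e0 := by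
      refine eq_of ?_ ?_ ?_ ?_ <;>
        rw [br_ap, Matrix.smul_apply, smul_eq_mul] <;>
        simp only [br_ap, e00, e01, e10, e11, hy'] <;> ring
    rw [h2] at h1
    have h3 := Submodule.smul_mem S (-2 * y 1 0)⁻¹ h1
    rwa [smul_smul, inv_mul_cancel₀ (mul_ne_zero (by norm_num) hb0), one_smul] at h3

/-- three independent elements -/
theorem full_of {S : Submodule ℂ M2} (hS : S ≤ sl) {h n n' : M2} (hh : h ∈ S) (hn : n ∈ S)
    (hn' : n' ∈ S) (h1 : h * h = 1) (h2 : h * n = -(n * h)) (h3 : h * n' = -(n' * h))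
    (hli : LinearIndependent ℂ ![n, n']) : S = sl := by
  have hli3 : LinearIndependent ℂ ![h, n, n'] := by
    rw [LinearIndependent.pair_iff] at hli
    rw [Fintype.linearIndependent_iff]
    intro g hg
    rw [Fin.sum_univ_three] at hg
    simp only [Matrix.cons_val_zero, Matrix.cons_val_one, Matrix.cons_val] at hg
    have h4 : g 0 • (1 : M2) + g 1 • (h * n) + g 2 • (h * n') = 0 := by
      have h5 := congrArg (fun y => h * y) hg
      simp only [mul_add, mul_smul_comm, mul_zero, h1] at h5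
      exact h5
    have h5 : g 0 • (1 : M2) - g 1 • (h * n) - g 2 • (h * n') = 0 := by
      have h6 := congrArg (fun y => y * h) hg
      simp only [add_mul, smul_mul_assoc, zero_mul, h1] at h6
      have h7 : n * h = -(h * n) := by rw [h2, neg_neg]
      have h8 : n' * h = -(h * n') := by rw [h3, neg_neg]
      rw [h7, h8, smul_neg, smul_neg, ← sub_eq_add_neg, ← sub_eq_add_neg] at h6
      exact h6
    have h6 : (2 * g 0) • (1 : M2) = 0 := by
      have h7 : (2 * g 0) • (1 : M2) = (g 0 • (1 : M2) + g 1 • (h * n) + g 2 • (h * n')) +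
          (g 0 • (1 : M2) - g 1 • (h * n) - g 2 • (h * n')) := by
        rw [two_mul, add_smul]; abel
      rw [h7, h4, h5, add_zero]
    have h7 : g 0 = 0 := by
      have h8 := (smul_eq_zero.1 h6).resolve_right one_ne_zero
      exact (mul_eq_zero.1 h8).resolve_left two_ne_zero
    rw [h7, zero_smul, zero_add] at hg
    have h8 := hli _ _ hg
    intro i
    fin_cases i
    · exact h7
    · exact h8.1
    · exact h8.2
  have h4 : finrank ℂ (Submodule.span ℂ (Set.range ![h, n, n'])) = 3 := by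
    rw [finrank_span_eq_card hli3]
    rfl
  have h5 : Submodule.span ℂ (Set.range ![h, n, n']) ≤ S := by
    refine Submodule.span_le.2 ?_
    rintro _ ⟨i, rfl⟩
    fin_cases i
    · exact hh
    · exact hn
    · exact hn'
  refine Submodule.eq_of_le_of_finrank_le hS ?_
  rw [finrank_sl, ← h4]
  exact Submodule.finrank_mono h5

/-- the conjugate matrix -/
def gal (τ : ℂ ≃+* ℂ) (y : M2) : M2 := y.map τ

theorem gal_apply (τ : ℂ ≃+* ℂ) (y : M2) (i j : Fin 2) : gal τ y i j = τ (y i j) := rfl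

theorem gal_mul (τ : ℂ ≃+* ℂ) (y z : M2) : gal τ (y * z) = gal τ y * gal τ z :=
  Matrix.map_mul

theorem gal_add (τ : ℂ ≃+* ℂ) (y z : M2) : gal τ (y + z) = gal τ y + gal τ z := by
  ext i j
  exact map_add τ _ _

theorem gal_neg (τ : ℂ ≃+* ℂ) (y : M2) : gal τ (-y) = -gal τ y := by
  ext i j
  exact map_neg τ _

theorem gal_sub (τ : ℂ ≃+* ℂ) (y z : M2) : gal τ (y - z) = gal τ y - gal τ z := by
  rw [sub_eq_add_neg, gal_add, gal_neg, ← sub_eq_add_neg]

theorem gal_smul (τ : ℂ ≃+* ℂ) (c : ℂ) (y : M2) : gal τ (c • y) = τ c • gal τ y := by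
  ext i j
  exact map_mul τ _ _

theorem gal_inj {τ : ℂ ≃+* ℂ} {y z : M2} (h : gal τ y = gal τ z) : y = z := by
  ext i j
  exact τ.injective (congrFun (congrFun h i) j)

theorem gal_zero (τ : ℂ ≃+* ℂ) : gal τ 0 = 0 := by
  ext i j
  exact map_zero τ

theorem gal_gal (τ σ : ℂ ≃+* ℂ) (y : M2) : gal τ (gal σ y) = gal (τ * σ) y := rfl

/-- complex conjugation -/
def cc' : ℂ ≃+* ℂ := starRingAut

/-- **The image is one-dimensional or everything.** -/
theorem dich {S : Submodule ℂ M2} (hS : S ≤ sl) (hbr : ∀ x ∈ S, ∀ y ∈ S, br x y ∈ S)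
    (hcj : ∀ x ∈ S, gal cc' x ∈ S) {h : M2} (hh : h ∈ S) (h1 : h * h = 1)
    (hc : gal cc' h = -h) {y : M2} (hy : y ∈ S) (hy' : ∀ c : ℂ, y ≠ c • h) : S = sl := by
  have hh0 : h ≠ 0 := by
    rintro rfl
    rw [zero_mul] at h1
    exact zero_ne_one h1
  set n := br h y with hn
  have hnS : n ∈ S := hbr h hh y hy
  have hn0 : n ≠ 0 := by
    intro h0
    obtain ⟨c, hc⟩ := br_ne (hS hh) (hS hy) hh0 h0
    exact hy' c hc
  have hhn : h * n = -(n * h) := by
    rw [hn, br, mul_sub, sub_mul, ← mul_assoc, h1, one_mul, mul_assoc y h h, h1, mul_one,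
      mul_assoc]
    abel
  have hhnS : h * n ∈ S := by
    have h2 := hbr h hh n hnS
    have h3 : br h n = (2 : ℂ) • (h * n) := by
      have h4 : n * h = -(h * n) := by rw [hhn, neg_neg]
      rw [br, h4, sub_neg_eq_add, two_smul]
    rw [h3] at h2
    have h4 := Submodule.smul_mem S (2⁻¹ : ℂ) h2
    rwa [smul_smul, inv_mul_cancel₀ two_ne_zero, one_smul] at h4
  by_cases hli : LinearIndependent ℂ ![n, h * n]
  · refine full_of hS hh hnS hhnS h1 hhn ?_ hli
    rw [hhn, mul_neg, ← mul_assoc, hhn, neg_mul]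
  · have h2 : ∃ c : ℂ, h * n = c • n := by
      rw [LinearIndependent.pair_iff] at hli
      push Not at hli
      obtain ⟨s, t, hst, hne⟩ := hli
      by_cases ht : t = 0
      · exfalso
        rw [ht, zero_smul, add_zero] at hst
        exact hne ((smul_eq_zero.1 hst).resolve_right hn0) ht
      · refine ⟨-(t⁻¹ * s), ?_⟩
        have h5 : t • (h * n) = -(s • n) := eq_neg_of_add_eq_zero_right hst
        have h6 : h * n = t⁻¹ • t • (h * n) := by rw [smul_smul, inv_mul_cancel₀ ht, one_smul]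
        rw [h6, h5, smul_neg, smul_smul, neg_smul]
    obtain ⟨c, hc'⟩ := h2
    have hc0 : c ≠ 0 := by
      rintro rfl
      rw [zero_smul] at hc'
      apply hn0
      have h3 : h * (h * n) = n := by rw [← mul_assoc, h1, one_mul]
      rw [← h3, hc', mul_zero]
    have hc1 : c * c = 1 := by
      have h3 : h * (h * n) = n := by rw [← mul_assoc, h1, one_mul]
      rw [hc', mul_smul_comm, hc', smul_smul] at h3
      have h4 : (c * c - 1) • n = 0 := by rw [sub_smul, h3, one_smul, sub_self]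
      exact sub_eq_zero.1 ((smul_eq_zero.1 h4).resolve_right hn0)
    have hcb : cc' c = c := by
      have h3 : (c - 1) * (c + 1) = 0 := by linear_combination hc1
      rcases mul_eq_zero.1 h3 with h4 | h4
      · rw [sub_eq_zero.1 h4, map_one]
      · rw [eq_neg_of_add_eq_zero_left h4, map_neg, map_one]
    have h3 : h * gal cc' n = -(c • gal cc' n) := by
      have h4 := congrArg (gal cc') hc'
      rw [gal_mul, hc, gal_smul, hcb, neg_mul] at h4
      rw [← h4, neg_neg]
    have h4 : h * gal cc' n = -(gal cc' n * h) := by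
      have h5 := congrArg (gal cc') hhn
      rw [gal_mul, gal_neg, gal_mul, hc, neg_mul, mul_neg, neg_neg] at h5
      rw [← neg_neg (h * gal cc' n), h5]
    refine full_of hS hh hnS (hcj n hnS) h1 hhn h4 ?_
    rw [LinearIndependent.pair_iff]
    intro s t hst
    have h5 : (s * c) • n - (t * c) • gal cc' n = 0 := by
      have h6 := congrArg (fun z => h * z) hst
      simp only [mul_add, mul_smul_comm, mul_zero] at h6
      rw [hc', h3, smul_smul, smul_neg, smul_smul, ← sub_eq_add_neg] at h6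
      exact h6
    have h6 : s • n - t • gal cc' n = 0 := by
      have h7 : c • (s • n - t • gal cc' n) = 0 := by
        rw [smul_sub, smul_smul, smul_smul, mul_comm c s, mul_comm c t, h5]
      exact (smul_eq_zero.1 h7).resolve_left hc0
    have h7 : (2 * s) • n = 0 := by
      have h8 : (2 * s) • n = (s • n + t • gal cc' n) + (s • n - t • gal cc' n) := by
        rw [two_mul, add_smul]; abel
      rw [h8, hst, h6, add_zero]
    have hs : s = 0 := (mul_eq_zero.1 ((smul_eq_zero.1 h7).resolve_right hn0)).resolve_left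
      two_ne_zero
    refine ⟨hs, ?_⟩
    rw [hs, zero_smul, zero_add] at hst
    refine (smul_eq_zero.1 hst).resolve_right ?_
    intro h8
    apply hn0
    apply gal_inj (τ := cc')
    rw [h8, gal_zero]

end

end Pool.Agent.L5helper28.IF
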