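import Pool.Agent.L5helper28.IF.EllA

/-!
# Lie algebras with several representations in two-by-two matrices: independence
-/

set_option autoImplicit false
set_option linter.unusedSectionVars false

open Module ComplexConjugate

namespace Pool.Agent.L5helper28.IF

open Pool.Agent.N179.DB.Mt (M2 sl mem_sl mem_sl' eq_of sq_sl e0 f0 h0 e0_mem f0_mem h0_mem expand
  br br_mem br_ne finrank_sl lin3)

noncomputable section

/-- A Lie algebra with several representations in two-by-two matrices. -/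
structure ESys {A : Type*} [Ring A] [Algebra ℂ A] {ι : Type*} (L : Submodule ℂ A)
    (hs : (ℂ ≃+* ℂ) → A) (m : ι → A →ₗ[ℂ] M2) (F : Subfield ℂ) : Prop where
  lie : ∀ D ∈ L, ∀ E ∈ L, D * E - E * D ∈ L
  gen : ∀ σ, hs σ ∈ L
  mul : ∀ i, ∀ D ∈ L, ∀ E ∈ L, m i (D * E) = m i D * m i E
  tr : ∀ i, ∀ D ∈ L, m i D ∈ sl
  gl : ∀ i σ, m i (hs σ) = gal σ (m i (hs 1))
  sq : ∀ i, m i (hs 1) * m i (hs 1) = 1
  cj : ∀ i, gal cc' (m i (hs 1)) = -m i (hs 1)
  act : ∀ (τ : ℂ ≃+* ℂ), ∀ D ∈ L, ∃ D' ∈ L, ∀ i, m i D' = gal τ (m i D)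
  noiso : ∀ i j, i ≠ j → ∀ g : M2, (∀ a b, g a b ∈ F) →
    m i (hs 1) * g = g * m j (hs 1) → g = 0

/-- A nonzero stable space of matrices contains a nonzero rational matrix. -/
theorem exists_rat_mat (F : Subfield ℂ) {N : Submodule ℂ M2}
    (hN : ∀ (τ : ℂ ≃+* ℂ), ∀ g ∈ N, gal τ g ∈ N) (h0 : N ≠ ⊥) :
    ∃ g ∈ N, g ≠ 0 ∧ ∀ a b, g a b ∈ F := by
  let e : M2 →ₗ[ℂ] (Fin 2 × Fin 2 → ℂ) :=
    { toFun := fun y t => y t.1 t.2
      map_add' := fun _ _ => rfl
      map_smul' := fun _ _ => rfl }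
  have h1 := Pool.Agent.TH119.MX.defOver_of_aut (F := F) (N.map e) (by
    rintro τ - _ ⟨g, hg, rfl⟩
    exact ⟨gal τ g, hN τ g hg, rfl⟩)
  by_contra hcon
  push Not at hcon
  apply h0
  rw [eq_bot_iff]
  intro g hg
  have h2 := h1 ⟨g, hg, rfl⟩
  have h3 : Submodule.span ℂ {v : Fin 2 × Fin 2 → ℂ | v ∈ N.map e ∧ ∀ t, v t ∈ F} ≤ ⊥ := by
    refine Submodule.span_le.2 ?_
    rintro v ⟨⟨g, hg, rfl⟩, hv⟩
    by_cases hg0 : g = 0
    · rw [hg0, map_zero]
      exact zero_mem _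
    · obtain ⟨a, b, hab⟩ := hcon g hg hg0
      exact absurd (hv (a, b)) hab
  have h4 : e g = 0 := (Submodule.mem_bot ℂ).1 (h3 h2)
  rw [Submodule.mem_bot]
  ext a b
  exact congrFun h4 (a, b)

variable {A : Type*} [Ring A] [Algebra ℂ A] {ι : Type*} {L : Submodule ℂ A}
  {hs : (ℂ ≃+* ℂ) → A} {m : ι → A →ₗ[ℂ] M2} {F : Subfield ℂ}

namespace ESys

variable (S : ESys L hs m F)
include S

theorem le_sl (i : ι) : L.map (m i) ≤ sl := by
  rintro _ ⟨D, hD, rfl⟩
  exact S.tr i D hD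

theorem m_br (i : ι) {D E : A} (hD : D ∈ L) (hE : E ∈ L) :
    m i (D * E - E * D) = br (m i D) (m i E) := by
  rw [map_sub, S.mul i D hD E hE, S.mul i E hE D hD, br]

/-- **The dichotomy.** -/
theorem dich' (i : ι) : L.map (m i) = sl ∨ ∀ D ∈ L, ∃ c : ℂ, m i D = c • m i (hs 1) := by
  by_cases h : ∀ D ∈ L, ∃ c : ℂ, m i D = c • m i (hs 1)
  · exact Or.inr h
  · left
    push Not at h
    obtain ⟨D, hD, h1⟩ := h
    refine dich (S.le_sl i) ?_ ?_ ⟨hs 1, S.gen 1, rfl⟩ (S.sq i) (S.cj i) ⟨D, hD, rfl⟩ h1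
    · rintro _ ⟨D, hD, rfl⟩ _ ⟨E, hE, rfl⟩
      exact ⟨_, S.lie D hD E hE, S.m_br i hD hE⟩
    · rintro _ ⟨D, hD, rfl⟩
      obtain ⟨D', hD', h2⟩ := S.act cc' D hD
      exact ⟨D', hD', h2 i⟩

/-- **Pairs.** -/
theorem pair {i j : ι} (hi : L.map (m i) = sl) (hk : ∀ D ∈ L, m j D = 0 → m i D = 0) :
    ∃ g : M2, g ≠ 0 ∧ ∀ D ∈ L, m i D * g = g * m j D := by
  have hj : L.map (m j) = sl := by
    obtain ⟨De, hDe, h1⟩ : e0 ∈ L.map (m i) := by rw [hi]; exact e0_mem
    obtain ⟨Df, hDf, h2⟩ : f0 ∈ L.map (m i) := by rw [hi]; exact f0_mem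
    obtain ⟨Dh, hDh, h3⟩ : h0 ∈ L.map (m i) := by rw [hi]; exact h0_mem
    have hli : LinearIndependent ℂ ![m j De, m j Df, m j Dh] := by
      rw [Fintype.linearIndependent_iff]
      intro g hg
      rw [Fin.sum_univ_three] at hg
      simp only [Matrix.cons_val_zero, Matrix.cons_val_one, Matrix.cons_val] at hg
      have h4 := hk (g 0 • De + g 1 • Df + g 2 • Dh) (add_mem (add_mem
        (Submodule.smul_mem _ _ hDe) (Submodule.smul_mem _ _ hDf)) (Submodule.smul_mem _ _ hDh))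
        (by rw [map_add, map_add, map_smul, map_smul, map_smul]; exact hg)
      rw [map_add, map_add, map_smul, map_smul, map_smul, h1, h2, h3] at h4
      obtain ⟨ha, hb, hc⟩ := lin3 h4
      intro k
      fin_cases k
      · exact ha
      · exact hb
      · exact hc
    have h5 : Submodule.span ℂ (Set.range ![m j De, m j Df, m j Dh]) ≤ L.map (m j) := by
      refine Submodule.span_le.2 ?_
      rintro _ ⟨k, rfl⟩
      fin_cases k
      · exact ⟨De, hDe, rfl⟩
      · exact ⟨Df, hDf, rfl⟩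
      · exact ⟨Dh, hDh, rfl⟩
    have h4 : finrank ℂ (Submodule.span ℂ (Set.range ![m j De, m j Df, m j Dh])) = 3 := by
      rw [finrank_span_eq_card hli]
      rfl
    refine Submodule.eq_of_le_of_finrank_le (S.le_sl j) ?_
    rw [finrank_sl, ← h4]
    exact Submodule.finrank_mono h5
  obtain ⟨De, hDe, h1⟩ : e0 ∈ L.map (m j) := by rw [hj]; exact e0_mem
  obtain ⟨Df, hDf, h2⟩ : f0 ∈ L.map (m j) := by rw [hj]; exact f0_mem
  obtain ⟨Dh, hDh, h3⟩ : h0 ∈ L.map (m j) := by rw [hj]; exact h0_mem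
  have hlin : ∀ D ∈ L, m i D = (m j D) 0 1 • m i De + (m j D) 1 0 • m i Df +
      (m j D) 0 0 • m i Dh := by
    intro D hD
    have h4 := hk (D - ((m j D) 0 1 • De + (m j D) 1 0 • Df + (m j D) 0 0 • Dh))
      (sub_mem hD (add_mem (add_mem (Submodule.smul_mem _ _ hDe) (Submodule.smul_mem _ _ hDf))
        (Submodule.smul_mem _ _ hDh))) (by
        rw [map_sub, map_add, map_add, map_smul, map_smul, map_smul, h1, h2, h3,
          ← expand (S.tr j D hD), sub_self])
    rw [map_sub, map_add, map_add, map_smul, map_smul, map_smul] at h4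
    exact sub_eq_zero.1 h4
  have hrel : ∀ D ∈ L, ∀ E ∈ L, ∀ G ∈ L, ∀ c : ℂ, br (m j D) (m j E) = c • m j G →
      br (m i D) (m i E) = c • m i G := by
    intro D hD E hE G hG c hc
    have h4 := hk ((D * E - E * D) - c • G) (sub_mem (S.lie D hD E hE)
      (Submodule.smul_mem _ _ hG)) (by rw [map_sub, S.m_br j hD hE, map_smul, hc, sub_self])
    rw [map_sub, S.m_br i hD hE, map_smul] at h4
    exact sub_eq_zero.1 h4
  have r1 : br (m i De) (m i Df) = m i Dh := by
    have h4 := hrel De hDe Df hDf Dh hDh 1 (by rw [h1, h2, h3, one_smul, br_e0_f0])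
    rwa [one_smul] at h4
  have r2 : br (m i Dh) (m i De) = (2 : ℂ) • m i De :=
    hrel Dh hDh De hDe De hDe 2 (by rw [h1, h3, br_h0_e0])
  have r3 : br (m i Dh) (m i Df) = (-2 : ℂ) • m i Df :=
    hrel Dh hDh Df hDf Df hDf (-2) (by rw [h2, h3, br_h0_f0])
  have hE0 : m i De ≠ 0 := by
    intro h0
    have h4 : m i Dh = 0 := by
      rw [← r1, h0, br, zero_mul, mul_zero, sub_zero]
    have h5 : m i Df = 0 := by
      rw [h4, br, zero_mul, mul_zero, sub_zero] at r3
      exact (smul_eq_zero.1 r3.symm).resolve_left (by norm_num)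
    obtain ⟨D, hD, h6⟩ : e0 ∈ L.map (m i) := by rw [hi]; exact e0_mem
    rw [hlin D hD, h0, h4, h5, smul_zero, smul_zero, smul_zero, add_zero, add_zero] at h6
    have h7 := congrFun (congrFun h6 0) 1
    rw [e01] at h7
    exact zero_ne_one h7
  obtain ⟨g, hg, g1, g2, g3⟩ := Pool.Agent.N179.DB.Mt.exists_std r1 r2 r3 hE0
  refine ⟨g, ?_, fun D hD => ?_⟩
  · rintro rfl
    apply hg
    exact Matrix.det_zero
  · conv_rhs => rw [expand (S.tr j D hD)]
    rw [hlin D hD, add_mul, add_mul, smul_mul_assoc, smul_mul_assoc, smul_mul_assoc, g1, g2, g3,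
      mul_add, mul_add, mul_smul_comm, mul_smul_comm, mul_smul_comm]

/-- there is no equivariant matrix -/
theorem no_int {i j : ι} (hij : i ≠ j) {g : M2} (hg : ∀ D ∈ L, m i D * g = g * m j D) :
    g = 0 := by
  let N : Submodule ℂ M2 :=
    { carrier := {g | ∀ D ∈ L, m i D * g = g * m j D}
      zero_mem' := fun D _ => by rw [mul_zero, zero_mul]
      add_mem' := fun ha hb D hD => by rw [mul_add, add_mul, ha D hD, hb D hD]
      smul_mem' := fun c x hx D hD => by rw [mul_smul_comm, smul_mul_assoc, hx D hD] }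
  by_contra h0
  have h1 : N ≠ ⊥ := by
    intro h
    have h2 : g ∈ N := hg
    rw [h] at h2
    exact h0 ((Submodule.mem_bot ℂ).1 h2)
  obtain ⟨g', hg', hg0, hF⟩ := exists_rat_mat F (N := N) (by
    intro τ g hg D hD
    obtain ⟨D', hD', h2⟩ := S.act τ⁻¹ D hD
    have h3 : ∀ i, m i D = gal τ (m i D') := by
      intro i
      rw [h2, gal_gal, mul_inv_cancel]
      rfl
    rw [h3, h3, ← gal_mul, ← gal_mul, hg D' hD']) h1
  exact hg0 (S.noiso i j hij g' hF (hg' _ (S.gen 1)))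

end ESys

/-- the image of the elements which vanish at the indices in `G` -/
def KK (L : Submodule ℂ A) (m : ι → A →ₗ[ℂ] M2) (i : ι) (G : Finset ι) : Submodule ℂ M2 where
  carrier := {y | ∃ D ∈ L, (∀ j ∈ G, m j D = 0) ∧ m i D = y}
  zero_mem' := ⟨0, zero_mem _, fun j _ => map_zero _, map_zero _⟩
  add_mem' := by
    rintro _ _ ⟨D, hD, h1, rfl⟩ ⟨E, hE, h2, rfl⟩
    exact ⟨D + E, add_mem hD hE, fun j hj => by rw [map_add, h1 j hj, h2 j hj, add_zero],
      map_add _ _ _⟩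
  smul_mem' := by
    rintro c _ ⟨D, hD, h1, rfl⟩
    exact ⟨c • D, Submodule.smul_mem _ _ hD, fun j hj => by rw [map_smul, h1 j hj, smul_zero],
      map_smul _ _ _⟩

namespace ESys

variable (S : ESys L hs m F)
include S

theorem KK_ideal {i : ι} (hi : L.map (m i) = sl) {G : Finset ι} (h0 : KK L m i G ≠ ⊥) :
    KK L m i G = sl := by
  refine ideal_sl ?_ ?_ h0
  · rintro _ ⟨D, hD, -, rfl⟩
    exact S.tr i D hD
  · rintro x hx _ ⟨D, hD, h1, rfl⟩
    rw [← hi] at hx
    obtain ⟨E, hE, rfl⟩ := hx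
    refine ⟨E * D - D * E, S.lie E hE D hD, fun j hj => ?_, S.m_br i hE hD⟩
    rw [S.m_br j hE hD, h1 j hj, br, mul_zero, zero_mul, sub_zero]

theorem KK_one {i j : ι} (hi : L.map (m i) = sl) (hij : i ≠ j) : KK L m i {j} = sl := by
  refine S.KK_ideal hi ?_
  intro h0
  obtain ⟨g, hg0, hg⟩ := S.pair hi (j := j) (by
    intro D hD h1
    have h2 : m i D ∈ KK L m i {j} :=
      ⟨D, hD, fun k hk => by rw [Finset.mem_singleton.1 hk]; exact h1, rfl⟩
    rw [h0] at h2
    exact (Submodule.mem_bot ℂ).1 h2)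
  exact hg0 (S.no_int hij hg)

/-- **The large members.** -/
theorem KK_full {i : ι} (hi : L.map (m i) = sl) {G : Finset ι} (hG : i ∉ G) :
    KK L m i G = sl := by
  classical
  induction G using Finset.induction_on with
  | empty =>
    refine S.KK_ideal hi ?_
    intro h0
    obtain ⟨D, hD, h1⟩ : e0 ∈ L.map (m i) := by rw [hi]; exact e0_mem
    have h2 : e0 ∈ KK L m i ∅ := ⟨D, hD, fun j hj => absurd hj (Finset.notMem_empty j), h1⟩
    rw [h0] at h2
    have h2' : e0 = 0 := (Submodule.mem_bot ℂ).1 h2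
    have h3 := congrFun (congrFun h2' 0) 1
    rw [e01] at h3
    exact one_ne_zero h3
  | insert j G hj ih =>
    have hij : i ≠ j := fun h => hG (by rw [h]; exact Finset.mem_insert_self _ _)
    have hiG : i ∉ G := fun h => hG (Finset.mem_insert_of_mem h)
    obtain ⟨D, hD, h1, h2⟩ : h0 ∈ KK L m i G := by rw [ih hiG]; exact h0_mem
    obtain ⟨E, hE, h3, h4⟩ : e0 ∈ KK L m i {j} := by rw [S.KK_one hi hij]; exact e0_mem
    refine S.KK_ideal hi ?_
    intro h0'
    have h5 : m i (D * E - E * D) ∈ KK L m i (insert j G) := by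
      refine ⟨_, S.lie D hD E hE, fun k hk => ?_, rfl⟩
      rw [S.m_br k hD hE]
      rcases Finset.mem_insert.1 hk with rfl | hk
      · rw [h3 k (Finset.mem_singleton_self k), br, mul_zero, zero_mul, sub_zero]
      · rw [h1 k hk, br, mul_zero, zero_mul, sub_zero]
    rw [S.m_br i hD hE, h2, h4, br_h0_e0, h0'] at h5
    have h6 := (smul_eq_zero.1 ((Submodule.mem_bot ℂ).1 h5)).resolve_left two_ne_zero
    have h3 := congrFun (congrFun h6 0) 1
    rw [e01] at h3
    exact one_ne_zero h3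

end ESys

/-! ### The small members -/

/-- the coefficient -/
def lam (hs : (ℂ ≃+* ℂ) → A) (m : ι → A →ₗ[ℂ] M2) (i : ι) : A →ₗ[ℂ] ℂ :=
  (2⁻¹ : ℂ) • (Matrix.traceLinearMap (Fin 2) ℂ ℂ ∘ₗ
    LinearMap.mulRight ℂ (m i (hs 1)) ∘ₗ m i)

theorem lam_apply (i : ι) (D : A) : lam hs m i D = 2⁻¹ * (m i D * m i (hs 1)).trace := rfl

namespace ESys

variable (S : ESys L hs m F)
include S

theorem eq_lam {i : ι} {D : A} {c : ℂ} (h : m i D = c • m i (hs 1)) :
    c = lam hs m i D := by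
  rw [lam_apply, h, smul_mul_assoc, S.sq i, Matrix.trace_smul, Matrix.trace_one]
  simp only [Fintype.card_fin, Nat.cast_ofNat, smul_eq_mul]
  ring

theorem hs_ne (i : ι) : m i (hs 1) ≠ 0 := by
  intro h
  have h1 := S.sq i
  rw [h, zero_mul] at h1
  exact zero_ne_one h1

/-- the character -/
theorem eps {i : ι} (hi : ∀ D ∈ L, ∃ c : ℂ, m i D = c • m i (hs 1)) (σ : ℂ ≃+* ℂ) :
    gal σ (m i (hs 1)) = lam hs m i (hs σ) • m i (hs 1) ∧
      (lam hs m i (hs σ) = 1 ∨ lam hs m i (hs σ) = -1) := by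
  obtain ⟨c, hc⟩ := hi (hs σ) (S.gen σ)
  have h1 := S.eq_lam hc
  rw [h1] at hc
  rw [S.gl] at hc
  refine ⟨hc, ?_⟩
  have h2 := congrArg (gal σ) (S.sq i)
  rw [gal_mul, hc, smul_mul_assoc, mul_smul_comm, S.sq i, smul_smul] at h2
  have h3 : gal σ (1 : M2) = 1 := by
    ext a b
    rw [gal_apply, Matrix.one_apply]
    split_ifs
    · exact map_one σ
    · exact map_zero σ
  rw [h3] at h2
  have h4 : (lam hs m i (hs σ) * lam hs m i (hs σ) - 1) • (1 : M2) = 0 := by
    rw [sub_smul, h2, one_smul, sub_self]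
  have h5 := (smul_eq_zero.1 h4).resolve_right one_ne_zero
  have h6 : (lam hs m i (hs σ) - 1) * (lam hs m i (hs σ) + 1) = 0 := by linear_combination h5
  rcases mul_eq_zero.1 h6 with h | h
  · exact Or.inl (sub_eq_zero.1 h)
  · exact Or.inr (eq_neg_of_add_eq_zero_left h)

/-- the character as a homomorphism -/
def chi {i : ι} (hi : ∀ D ∈ L, ∃ c : ℂ, m i D = c • m i (hs 1)) : (ℂ ≃+* ℂ) →* ℂ where
  toFun σ := lam hs m i (hs σ)
  map_one' := (S.eq_lam (i := i) (D := hs 1) (c := 1) (one_smul _ _).symm).symm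
  map_mul' := by
    intro σ τ
    have h1 := (S.eps hi (σ * τ)).1
    rw [← gal_gal, (S.eps hi τ).1, gal_smul, (S.eps hi σ).1, smul_smul] at h1
    have h2 : σ (lam hs m i (hs τ)) = lam hs m i (hs τ) := by
      rcases (S.eps hi τ).2 with h | h
      · rw [h, map_one]
      · rw [h, map_neg, map_one]
    rw [h2] at h1
    have h3 : (lam hs m i (hs (σ * τ)) - lam hs m i (hs τ) * lam hs m i (hs σ)) •
        m i (hs 1) = 0 := by
      rw [sub_smul, h1, sub_self]
    have h4 := (smul_eq_zero.1 h3).resolve_right (S.hs_ne i)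
    rw [sub_eq_zero.1 h4, mul_comm]

/-- the characters are different -/
theorem chi_ne {i j : ι} (hij : i ≠ j) (hi : ∀ D ∈ L, ∃ c : ℂ, m i D = c • m i (hs 1))
    (hj : ∀ D ∈ L, ∃ c : ℂ, m j D = c • m j (hs 1)) : S.chi hi ≠ S.chi hj := by
  intro h
  have h1 : ∀ σ, lam hs m i (hs σ) = lam hs m j (hs σ) := fun σ => DFunLike.congr_fun h σ
  let N : Submodule ℂ M2 :=
    { carrier := {g | m i (hs 1) * g = g * m j (hs 1)}
      zero_mem' := by rw [Set.mem_setOf_eq, mul_zero, zero_mul]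
      add_mem' := fun {a b} ha hb => by
        rw [Set.mem_setOf_eq] at ha hb ⊢
        rw [mul_add, add_mul, ha, hb]
      smul_mem' := fun c x hx => by
        rw [Set.mem_setOf_eq] at hx ⊢
        rw [mul_smul_comm, smul_mul_assoc, hx] }
  have hN : N ≠ ⊥ := by
    -- `h_i y + y h_j` is in `N`
    have h2 : ∀ y : M2, m i (hs 1) * y + y * m j (hs 1) ∈ N := by
      intro y
      change m i (hs 1) * (m i (hs 1) * y + y * m j (hs 1)) =
        (m i (hs 1) * y + y * m j (hs 1)) * m j (hs 1)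
      rw [mul_add, add_mul, ← mul_assoc, S.sq i, one_mul, mul_assoc y, S.sq j, mul_one,
        ← mul_assoc, add_comm]
    intro h0
    rw [h0] at h2
    have h3 : ∀ y : M2, m i (hs 1) * y = -(y * m j (hs 1)) := fun y =>
      eq_neg_of_add_eq_zero_left ((Submodule.mem_bot ℂ).1 (h2 y))
    -- `h_i = - h_j` is central
    have h4 : m i (hs 1) = -m j (hs 1) := by
      have h5 := h3 1
      rwa [mul_one, one_mul] at h5
    have h5 : ∀ y : M2, m i (hs 1) * y = y * m i (hs 1) := by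
      intro y
      rw [h3 y, h4, mul_neg]
    have h6 := S.tr i (hs 1) (S.gen 1)
    have h7 : ∀ x ∈ sl, ∃ c : ℂ, x = c • m i (hs 1) := fun x hx =>
      br_ne h6 hx (S.hs_ne i) (by rw [br, h5, sub_self])
    obtain ⟨a, ha⟩ := h7 e0 e0_mem
    obtain ⟨b, hb⟩ := h7 f0 f0_mem
    have h8 : br e0 f0 = 0 := by
      rw [ha, hb, br, smul_mul_assoc, mul_smul_comm, smul_mul_assoc, mul_smul_comm,
        smul_comm a b, sub_self]
    rw [br_e0_f0] at h8
    have h9 := congrFun (congrFun h8 0) 0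
    have h10 : Pool.Agent.N179.DB.Mt.h0 0 0 = 1 := rfl
    rw [h10] at h9
    exact one_ne_zero h9
  obtain ⟨g, hg, hg0, hF⟩ := exists_rat_mat F (N := N) (by
    intro τ g hg
    have hg' : m i (hs 1) * g = g * m j (hs 1) := hg
    change m i (hs 1) * gal τ g = gal τ g * m j (hs 1)
    have h2 := congrArg (gal τ) hg'
    rw [gal_mul, gal_mul, (S.eps hi τ).1, (S.eps hj τ).1, h1 τ, smul_mul_assoc,
      mul_smul_comm] at h2
    have h3 : lam hs m j (hs τ) ≠ 0 := by
      rcases (S.eps hj τ).2 with h | h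
      · rw [h]; exact one_ne_zero
      · rw [h]; exact neg_ne_zero.2 one_ne_zero
    exact smul_right_injective _ h3 h2) hN
  exact hg0 (S.noiso i j hij g hF hg)

/-- **The small members are independent.** -/
theorem lam_surj {C : Finset ι} (hC : ∀ i ∈ C, ∀ D ∈ L, ∃ c : ℂ, m i D = c • m i (hs 1))
    (i : ι) : ∃ D ∈ L, ∀ j ∈ C, (j = i → lam hs m j D = 1) ∧ (j ≠ i → lam hs m j D = 0) := by
  classical
  let Λ : A →ₗ[ℂ] (C → ℂ) := LinearMap.pi fun c => lam hs m c
  by_contra hcon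
  have h1 : (fun c : C => if (c : ι) = i then (1 : ℂ) else 0) ∉ L.map Λ := by
    rintro ⟨D, hD, h⟩
    refine hcon ⟨D, hD, fun j hj => ⟨fun hji => ?_, fun hji => ?_⟩⟩
    · have h2 := congrFun h ⟨j, hj⟩
      simp only [if_pos hji] at h2
      exact h2
    · have h2 := congrFun h ⟨j, hj⟩
      simp only [if_neg hji] at h2
      exact h2
  obtain ⟨f, hf, hM⟩ := Submodule.exists_le_ker_of_notMem h1
  have h2 : ∀ σ, ∑ c : C, f (Pi.single c 1) * lam hs m c (hs σ) = 0 := by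
    intro σ
    have h3 : f (Λ (hs σ)) = 0 := hM ⟨hs σ, S.gen σ, rfl⟩
    rw [LinearMap.pi_apply_eq_sum_univ f] at h3
    rw [← h3]
    refine Finset.sum_congr rfl fun c _ => ?_
    rw [smul_eq_mul, mul_comm]
    congr 2
    funext d
    rw [Pi.single_apply]
    simp only [eq_comm]
  let χ : C → ((ℂ ≃+* ℂ) →* ℂ) := fun c => S.chi (hC c c.2)
  have hχ : Function.Injective χ := by
    intro c d hcd
    by_contra hne
    exact S.chi_ne (fun h => hne (Subtype.ext h)) (hC c c.2) (hC d d.2) hcd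
  have hli := (linearIndependent_monoidHom (ℂ ≃+* ℂ) ℂ).comp χ hχ
  have h3 := Fintype.linearIndependent_iff.1 hli (fun c => f (Pi.single c 1)) (by
    funext σ
    rw [Finset.sum_apply]
    exact h2 σ)
  apply hf
  rw [LinearMap.pi_apply_eq_sum_univ f]
  refine Finset.sum_eq_zero fun c _ => ?_
  have h4 : (fun j : C => if c = j then (1 : ℂ) else 0) = Pi.single c 1 := by
    funext d
    rw [Pi.single_apply]
    simp only [eq_comm]
  rw [h4, h3 c, smul_zero]

/-- **Independence.** -/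
theorem main (G : Finset ι) {i : ι} (hiG : i ∈ G) {D : A} (hD : D ∈ L) :
    ∃ D' ∈ L, (∀ j ∈ G, j ≠ i → m j D' = 0) ∧ m i D' = m i D := by
  classical
  have hfull : ∀ j, L.map (m j) = sl → ∀ D ∈ L, ∃ D' ∈ L,
      (∀ k ∈ G, k ≠ j → m k D' = 0) ∧ m j D' = m j D := by
    intro j hj D hD
    have h1 : m j D ∈ KK L m j (G.erase j) := by
      rw [S.KK_full hj (Finset.notMem_erase j G)]
      exact S.tr j D hD
    obtain ⟨D', hD', h2, h3⟩ := h1
    exact ⟨D', hD', fun k hk hkj => h2 k (Finset.mem_erase.2 ⟨hkj, hk⟩), h3⟩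
  rcases S.dich' i with hi | hi
  · exact hfull i hi D hD
  · let C : Finset ι := G.filter fun j => ∀ D ∈ L, ∃ c : ℂ, m j D = c • m j (hs 1)
    let N : Finset ι := G.filter fun j => L.map (m j) = sl
    obtain ⟨D0, hD0, h0⟩ := S.lam_surj (C := C) (fun j hj => (Finset.mem_filter.1 hj).2) i
    have h1 : ∀ j : ι, ∃ D' ∈ L, j ∈ N → ((∀ k ∈ G, k ≠ j → m k D' = 0) ∧
        m j D' = m j D0) := by
      intro j
      by_cases hj : j ∈ N
      · obtain ⟨D', hD', h2⟩ := hfull j (Finset.mem_filter.1 hj).2 D0 hD0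
        exact ⟨D', hD', fun _ => h2⟩
      · exact ⟨0, zero_mem _, fun h => absurd h hj⟩
    choose E hE h2 using h1
    obtain ⟨c, hc⟩ := hi D hD
    have hiN : i ∉ N := by
      intro h
      have h3 := (Finset.mem_filter.1 h).2
      obtain ⟨D1, hD1, h4⟩ : e0 ∈ L.map (m i) := by rw [h3]; exact e0_mem
      obtain ⟨D2, hD2, h5⟩ : f0 ∈ L.map (m i) := by rw [h3]; exact f0_mem
      obtain ⟨a, ha⟩ := hi D1 hD1
      obtain ⟨b, hb⟩ := hi D2 hD2
      have h8 : br e0 f0 = 0 := by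
        rw [← h4, ← h5, ha, hb, br, smul_mul_assoc, mul_smul_comm, smul_mul_assoc,
          mul_smul_comm, smul_comm a b, sub_self]
      rw [br_e0_f0] at h8
      have h9 := congrFun (congrFun h8 0) 0
      have h10 : Pool.Agent.N179.DB.Mt.h0 0 0 = 1 := rfl
      rw [h10] at h9
      exact one_ne_zero h9
    refine ⟨c • (D0 - ∑ j ∈ N, E j), Submodule.smul_mem _ _ (sub_mem hD0
      (sum_mem fun j _ => hE j)), ?_, ?_⟩
    · intro j hj hji
      rw [map_smul, map_sub, map_sum]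
      by_cases hjN : j ∈ N
      · rw [Finset.sum_eq_single j, (h2 j hjN).2, sub_self, smul_zero]
        · intro k hk hkj
          exact (h2 k hk).1 j hj (Ne.symm hkj)
        · intro h
          exact absurd hjN h
      · rw [Finset.sum_eq_zero, sub_zero]
        · have hjC : ∀ D ∈ L, ∃ c : ℂ, m j D = c • m j (hs 1) := by
            rcases S.dich' j with h | h
            · exact absurd (Finset.mem_filter.2 ⟨hj, h⟩) hjN
            · exact h
          obtain ⟨a, ha⟩ := hjC D0 hD0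
          have h3 := S.eq_lam ha
          rw [(h0 j (Finset.mem_filter.2 ⟨hj, hjC⟩)).2 hji] at h3
          rw [ha, h3, zero_smul, smul_zero]
        · intro k hk
          exact (h2 k hk).1 j hj (fun h => hjN (h ▸ hk))
    · rw [map_smul, map_sub, map_sum, Finset.sum_eq_zero, sub_zero]
      · obtain ⟨a, ha⟩ := hi D0 hD0
        have h3 := S.eq_lam ha
        rw [(h0 i (Finset.mem_filter.2 ⟨hiG, hi⟩)).1 rfl] at h3
        rw [ha, h3, one_smul, hc]
      · intro k hk
        exact (h2 k hk).1 i hiG (fun h => hiN (h ▸ hk))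

end ESys

end

end Pool.Agent.L5helper28.IF
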