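import Pool.Agent.L5helper28.IF.Kun2
import Pool.Agent.N179.DB.Two

/-!
# The Lie algebras of the Hodge groups, independent families
-/

set_option autoImplicit false
set_option linter.unusedSectionVars false

open CategoryTheory AlgebraicGeometry TensorProduct

universe u

namespace Pool.Agent.L5helper28.IF

open Module
open Pool.Agent.H914 Pool.Agent.H914.VarClass Pool.Agent.H914.VarClass.Obj
  Pool.Agent.H914.WeilCohomology
open Pool.Agent.Y121 Pool.Agent.Y121.AHS Pool.Agent.N996 Pool.Agent.N996.FP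
open Pool.Agent.N179.DB (sl sl_smul sl_basis sl_comp sl_refl sl_symm sl_symm' sl_inj repr_sl InF)

noncomputable section

variable {k : Type u} [Field k] {𝒱 : VarClass k} {ops : CycleOps 𝒱}

variable {T : HodgeTheory ops} {n : ℕ} {X : Fin n → 𝒱.Obj}

/-! ### Coordinates -/

theorem repr_rb {Y : 𝒱.Obj} (l : ℂ) (c : T.W.H Y) (i : Bi T.W Y) :
    (rb T.W Y).repr (l ⊗ₜ[T.W.K] c) i =
      algebraMap T.W.K ℂ ((Module.finBasis T.W.K (T.W.H Y)).repr c i) * l := by
  rw [rb, Basis.baseChange_repr_tmul, Algebra.smul_def]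

variable (T X) in
/-- the index type of the coordinates -/
abbrev Co : Type := Σ a : Fin n, Bi T.W (X a) × Bi T.W (X a)

variable (T X) in
/-- the rational coordinates -/
def cK : Tuples T X →ₗ[T.W.K] (Co T X → T.W.K) where
  toFun D t := (Module.finBasis T.W.K (T.W.H (X t.1))).repr
    (D t.1 (Module.finBasis T.W.K (T.W.H (X t.1)) t.2.2)) t.2.1
  map_add' D E := by
    funext t
    rw [Pi.add_apply, LinearMap.add_apply, map_add]
    rfl
  map_smul' c D := by
    funext t
    rw [Pi.smul_apply, LinearMap.smul_apply, map_smul]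
    rfl

theorem cK_inj {D E : Tuples T X} (h : cK T X D = cK T X E) : D = E := by
  funext a
  refine (Module.finBasis T.W.K (T.W.H (X a))).ext fun j => ?_
  refine (Module.finBasis T.W.K (T.W.H (X a))).repr.injective (Finsupp.ext fun i => ?_)
  exact congrFun h ⟨a, i, j⟩

theorem cK_surj (r : Co T X → T.W.K) : ∃ D : Tuples T X, cK T X D = r := by
  classical
  refine ⟨fun a => Matrix.toLin (Module.finBasis T.W.K (T.W.H (X a)))
    (Module.finBasis T.W.K (T.W.H (X a))) (fun i j => r ⟨a, i, j⟩), ?_⟩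
  funext t
  obtain ⟨a, i, j⟩ := t
  change (Module.finBasis T.W.K (T.W.H (X a))).repr (Matrix.toLin _ _ _
    (Module.finBasis T.W.K (T.W.H (X a)) j)) i = r ⟨a, i, j⟩
  rw [Matrix.toLin_self, map_sum, Finsupp.finset_sum_apply, Finset.sum_eq_single i]
  · rw [map_smul, Finsupp.smul_apply, Basis.repr_self, Finsupp.single_eq_same, smul_eq_mul,
      mul_one]
  · intro l _ hl
    rw [map_smul, Finsupp.smul_apply, Basis.repr_self, Finsupp.single_eq_of_ne, smul_zero]
    first
      | exact hl
      | exact Ne.symm hl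
  · intro h
    exact absurd (Finset.mem_univ _) h

variable (T X) in
/-- the complex coordinates -/
def cC : (∀ a, Module.End ℂ (CV T.W (X a))) →ₗ[ℂ] (Co T X → ℂ) where
  toFun D t := (rb T.W (X t.1)).repr (D t.1 (rb T.W (X t.1) t.2.2)) t.2.1
  map_add' D E := by
    funext t
    rw [Pi.add_apply, LinearMap.add_apply, map_add]
    rfl
  map_smul' c D := by
    funext t
    rw [Pi.smul_apply, LinearMap.smul_apply, map_smul]
    rfl

theorem cC_inj {D E : ∀ a, Module.End ℂ (CV T.W (X a))} (h : cC T X D = cC T X E) : D = E := by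
  funext a
  refine (rb T.W (X a)).ext fun j => ?_
  refine (rb T.W (X a)).repr.injective (Finsupp.ext fun i => ?_)
  exact congrFun h ⟨a, i, j⟩

/-- the complexification of a tuple -/
def cpl (D : Tuples T X) : ∀ a, Module.End ℂ (CV T.W (X a)) := fun a => (D a).baseChange ℂ

theorem cC_cpl (D : Tuples T X) (t : Co T X) :
    cC T X (cpl D) t = algebraMap T.W.K ℂ (cK T X D t) := by
  change (rb T.W (X t.1)).repr ((D t.1).baseChange ℂ (rb T.W (X t.1) t.2.2)) t.2.1 = _
  rw [rb_apply, LinearMap.baseChange_tmul, repr_rb, mul_one]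
  rfl

theorem cC_cjg (τ : ℂ ≃+* ℂ) (D : ∀ a, Module.End ℂ (CV T.W (X a))) (t : Co T X) :
    cC T X (fun a => cjg (rb T.W (X a)) τ (D a)) t = τ (cC T X D t) := by
  change (rb T.W (X t.1)).repr (cjg (rb T.W (X t.1)) τ (D t.1) (rb T.W (X t.1) t.2.2)) t.2.1 =
    τ ((rb T.W (X t.1)).repr (D t.1 (rb T.W (X t.1) t.2.2)) t.2.1)
  rw [cjg_apply, sl_basis, repr_sl]

theorem cpl_mul (D E : Tuples T X) : cpl (D * E) = cpl D * cpl E := by
  funext a
  exact LinearMap.baseChange_mul (R := T.W.K) (A := ℂ) (D a) (E a)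

theorem cpl_sub (D E : Tuples T X) : cpl (D - E) = cpl D - cpl E := by
  funext a
  exact LinearMap.baseChange_sub (D a) (E a)

theorem cpl_add (D E : Tuples T X) : cpl (D + E) = cpl D + cpl E := by
  funext a
  exact LinearMap.baseChange_add (D a) (E a)

theorem cpl_zero : cpl (0 : Tuples T X) = 0 := by
  funext a
  exact LinearMap.baseChange_zero

theorem cpl_smul (c : T.W.K) (D : Tuples T X) :
    cpl (c • D) = (algebraMap T.W.K ℂ c) • cpl D := by
  apply cC_inj
  funext t
  rw [map_smul, Pi.smul_apply, cC_cpl, cC_cpl, map_smul, Pi.smul_apply, smul_eq_mul, smul_eq_mul,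
    map_mul]

/-- the complexification of a space of tuples -/
def cps (g : Submodule T.W.K (Tuples T X)) : Submodule ℂ (∀ a, Module.End ℂ (CV T.W (X a))) :=
  Submodule.span ℂ (cpl '' (g : Set (Tuples T X)))

theorem mem_of_cps {g : Submodule T.W.K (Tuples T X)} {D : Tuples T X}
    (h : cpl D ∈ cps g) : D ∈ g := by
  classical
  by_contra hD
  have h1 : cK T X D ∉ g.map (cK T X) := by
    rintro ⟨E, hE, h2⟩
    rw [cK_inj h2] at hE
    exact hD hE
  obtain ⟨f, hf, hM⟩ := Submodule.exists_le_ker_of_notMem h1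
  let F : (Co T X → ℂ) →ₗ[ℂ] ℂ :=
    ∑ t, algebraMap T.W.K ℂ (f (Pi.single t 1)) • LinearMap.proj t
  have h2 : ∀ E : Tuples T X, F (cC T X (cpl E)) = algebraMap T.W.K ℂ (f (cK T X E)) := by
    intro E
    have h3 : F (cC T X (cpl E)) =
        ∑ t, algebraMap T.W.K ℂ (f (Pi.single t 1)) * cC T X (cpl E) t := by
      rw [LinearMap.sum_apply]
      rfl
    rw [h3, LinearMap.pi_apply_eq_sum_univ f, map_sum]
    refine Finset.sum_congr rfl fun t _ => ?_
    rw [cC_cpl, smul_eq_mul, map_mul, mul_comm]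
    congr 3
    funext s
    rw [Pi.single_apply]
    simp only [eq_comm]
  have h3 : cps g ≤ LinearMap.ker (F ∘ₗ cC T X) := by
    refine Submodule.span_le.2 ?_
    rintro _ ⟨E, hE, rfl⟩
    change F (cC T X (cpl E)) = 0
    have h4 : f (cK T X E) = 0 := hM ⟨E, hE, rfl⟩
    rw [h2, h4, map_zero]
  have h4 : F (cC T X (cpl D)) = 0 := h3 h
  rw [h2] at h4
  exact hf ((map_eq_zero _).1 h4)

/-! ### The Lie algebra -/

theorem cpl_cjg (τ : ℂ ≃+* ℂ) (D : Tuples T X) :
    (fun a => cjg (rb T.W (X a)) τ (cpl D a)) = cpl D := by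
  apply cC_inj
  funext t
  rw [cC_cjg, cC_cpl, fixK T.rat]

variable (X) in
/-- the restriction to finitely many varieties -/
def rs : (Ops fun Y : 𝒱.Obj => CV T.W Y) →ₗ[ℂ] ∀ a, Module.End ℂ (CV T.W (X a)) where
  toFun D a := D (X a)
  map_add' _ _ := rfl
  map_smul' _ _ := rfl

theorem cps_br {g : Submodule T.W.K (Tuples T X)} (hg : IsLieSub g)
    {A B : ∀ a, Module.End ℂ (CV T.W (X a))} (hA : A ∈ cps g) (hB : B ∈ cps g) :
    A * B - B * A ∈ cps g := by
  induction hA using Submodule.span_induction with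
  | mem A hA =>
    obtain ⟨D, hD, rfl⟩ := hA
    induction hB using Submodule.span_induction with
    | mem B hB =>
      obtain ⟨E, hE, rfl⟩ := hB
      rw [← cpl_mul, ← cpl_mul, ← cpl_sub]
      exact Submodule.subset_span ⟨_, hg D hD E hE, rfl⟩
    | zero => rw [mul_zero, zero_mul, sub_zero]; exact zero_mem _
    | add x y _ _ hx hy =>
      have h1 : cpl D * (x + y) - (x + y) * cpl D =
          (cpl D * x - x * cpl D) + (cpl D * y - y * cpl D) := by
        rw [mul_add, add_mul]; abel
      rw [h1]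
      exact add_mem hx hy
    | smul c x _ hx =>
      have h1 : cpl D * (c • x) - (c • x) * cpl D = c • (cpl D * x - x * cpl D) := by
        rw [mul_smul_comm, smul_mul_assoc, smul_sub]
      rw [h1]
      exact Submodule.smul_mem _ _ hx
  | zero => rw [mul_zero, zero_mul, sub_zero]; exact zero_mem _
  | add x y _ _ hx hy =>
    have h1 : (x + y) * B - B * (x + y) = (x * B - B * x) + (y * B - B * y) := by
      rw [mul_add, add_mul]; abel
    rw [h1]
    exact add_mem hx hy
  | smul c x _ hx =>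
    have h1 : (c • x) * B - B * (c • x) = c • (x * B - B * x) := by
      rw [mul_smul_comm, smul_mul_assoc, smul_sub]
    rw [h1]
    exact Submodule.smul_mem _ _ hx

theorem cps_cjg {g : Submodule T.W.K (Tuples T X)} (τ : ℂ ≃+* ℂ)
    {A : ∀ a, Module.End ℂ (CV T.W (X a))} (hA : A ∈ cps g) :
    (fun a => cjg (rb T.W (X a)) τ (A a)) ∈ cps g := by
  induction hA using Submodule.span_induction with
  | mem A hA =>
    obtain ⟨D, hD, rfl⟩ := hA
    rw [cpl_cjg]
    exact Submodule.subset_span ⟨D, hD, rfl⟩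
  | zero =>
    have h1 : (fun a => cjg (rb T.W (X a)) τ ((0 : ∀ a, Module.End ℂ (CV T.W (X a))) a)) = 0 := by
      funext a
      exact cjg_zero _ τ
    rw [h1]
    exact zero_mem _
  | add x y _ _ hx hy =>
    have h1 : (fun a => cjg (rb T.W (X a)) τ ((x + y) a)) =
        (fun a => cjg (rb T.W (X a)) τ (x a)) + fun a => cjg (rb T.W (X a)) τ (y a) := by
      funext a
      exact cjg_add _ τ _ _
    rw [h1]
    exact add_mem hx hy
  | smul c x _ hx =>
    have h1 : (fun a => cjg (rb T.W (X a)) τ ((c • x) a)) =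
        τ c • fun a => cjg (rb T.W (X a)) τ (x a) := by
      funext a
      exact cjg_smul _ τ c _
    rw [h1]
    exact Submodule.smul_mem _ _ hx

/-- the tuple of the Hodge operators -/
theorem hop_mem {g : Submodule T.W.K (Tuples T X)} (hg : ContainsHodge g) :
    (fun a => hop T (X a)) ∈ cps g := by
  obtain ⟨m, c, f, hf, h⟩ := hg
  have h1 : (fun a => hop T (X a)) = ∑ i, c i • cpl (f i) := by
    funext a
    refine LinearMap.ext fun x => ?_
    have h2 : ∀ x : CV T.W (X a), (∑ i, c i • cpl (f i)) a x =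
        ∑ i, c i • (f i a).baseChange ℂ x := by
      intro x
      rw [Finset.sum_apply, LinearMap.sum_apply]
      rfl
    rw [h2]
    refine hop_ind (P := fun x => hop T (X a) x = ∑ i, c i • (f i a).baseChange ℂ x) ?_ ?_ ?_ x
    · intro p q x hx
      rw [hop_pq hx]
      exact (h a p q x hx).symm
    · intro x y hx hy
      rw [map_add, hx, hy, ← Finset.sum_add_distrib]
      refine Finset.sum_congr rfl fun i _ => ?_
      rw [map_add, smul_add]
    · rw [map_zero]
      symm
      refine Finset.sum_eq_zero fun i _ => ?_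
      rw [map_zero, smul_zero]
  rw [h1]
  exact sum_mem fun i _ => Submodule.smul_mem _ _ (Submodule.subset_span ⟨_, hf i, rfl⟩)

theorem LT_le_cps {g : Submodule T.W.K (Tuples T X)} (hg : IsLieSub g) (hg' : ContainsHodge g)
    {D : Ops fun Y : 𝒱.Obj => CV T.W Y} (hD : D ∈ LT T) : rs X D ∈ cps g := by
  refine LL_ind (P := fun D => rs X D ∈ cps g) ?_ ?_ ?_ ?_ ?_ hD
  · intro σ
    exact cps_cjg σ (hop_mem hg')
  · rw [map_zero]
    exact zero_mem _
  · intro D E _ _ hD hE
    rw [map_add]
    exact add_mem hD hE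
  · intro c D _ hD
    rw [map_smul]
    exact Submodule.smul_mem _ _ hD
  · intro D E _ _ hD hE
    have h1 : rs X (D * E - E * D) = rs X D * rs X E - rs X E * rs X D := rfl
    rw [h1]
    exact cps_br hg hD hE

variable (T X) in
/-- the rational tuples in the Lie algebra -/
def gr0 : Submodule T.W.K (Tuples T X) where
  carrier := {D | ∃ E ∈ LT T, rs X E = cpl D}
  zero_mem' := ⟨0, zero_mem _, by rw [cpl_zero, map_zero]⟩
  add_mem' := by
    rintro D D' ⟨E, hE, h⟩ ⟨E', hE', h'⟩
    exact ⟨E + E', add_mem hE hE', by rw [cpl_add, map_add, h, h']⟩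
  smul_mem' := by
    rintro c D ⟨E, hE, h⟩
    exact ⟨algebraMap T.W.K ℂ c • E, Submodule.smul_mem _ _ hE, by rw [cpl_smul, map_smul, h]⟩

theorem gr0_br : IsLieSub (gr0 T X) := by
  rintro D ⟨E, hE, h⟩ D' ⟨E', hE', h'⟩
  refine ⟨E * E' - E' * E, LL_br hE hE', ?_⟩
  rw [cpl_sub, cpl_mul, cpl_mul, ← h, ← h']
  rfl

/-- the elements of the Lie algebra are combinations of rational tuples -/
theorem rs_mem {D : Ops fun Y : 𝒱.Obj => CV T.W Y} (hD : D ∈ LT T) : rs X D ∈ cps (gr0 T X) := by
  classical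
  let N : Submodule ℂ (Co T X → ℂ) := ((LT T).map (rs X)).map (cC T X)
  have h1 := Pool.Agent.TH119.MX.defOver_of_aut (F := (algebraMap T.W.K ℂ).fieldRange) N (by
    rintro τ - _ ⟨_, ⟨E, hE, rfl⟩, rfl⟩
    refine ⟨_, ⟨_, cjg_mem (fun X => rb T.W X) (fun X => hop T X) τ hE, rfl⟩, ?_⟩
    funext t
    exact cC_cjg τ (rs X E) t)
  have h2 : cC T X (rs X D) ∈ N := ⟨_, ⟨D, hD, rfl⟩, rfl⟩
  have h3 := h1 h2
  have h4 : Submodule.span ℂ {v : Co T X → ℂ | v ∈ N ∧ ∀ t, v t ∈ (algebraMap T.W.K ℂ).fieldRange} ≤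
      (cps (gr0 T X)).map (cC T X) := by
    refine Submodule.span_le.2 ?_
    rintro v ⟨⟨_, ⟨E, hE, rfl⟩, rfl⟩, hv⟩
    choose r hr using hv
    obtain ⟨D', hD'⟩ := cK_surj r
    have h5 : rs X E = cpl D' := by
      apply cC_inj
      funext t
      rw [cC_cpl, hD', hr]
    exact ⟨rs X E, Submodule.subset_span ⟨D', ⟨E, hE, h5⟩, h5.symm⟩, rfl⟩
  obtain ⟨A, hA, h5⟩ := h4 h3
  rw [← cC_inj h5]
  exact hA

theorem exists_comb {g : Submodule T.W.K (Tuples T X)}
    {A : ∀ a, Module.End ℂ (CV T.W (X a))} (hA : A ∈ cps g) :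
    ∃ (m : ℕ) (c : Fin m → ℂ) (f : Fin m → Tuples T X), (∀ i, f i ∈ g) ∧
      A = ∑ i, c i • cpl (f i) := by
  induction hA using Submodule.span_induction with
  | mem A hA =>
    obtain ⟨D, hD, rfl⟩ := hA
    exact ⟨1, fun _ => 1, fun _ => D, fun _ => hD, by simp⟩
  | zero => exact ⟨0, fun _ => 1, fun _ => 0, fun _ => zero_mem _, by simp⟩
  | add A B _ _ hA hB =>
    obtain ⟨m, c, f, hf, rfl⟩ := hA
    obtain ⟨m', c', f', hf', rfl⟩ := hB
    refine ⟨m + m', Fin.append c c', Fin.append f f', fun i => ?_, ?_⟩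
    · refine Fin.addCases (fun i => ?_) (fun i => ?_) i
      · rw [Fin.append_left]; exact hf i
      · rw [Fin.append_right]; exact hf' i
    · rw [Fin.sum_univ_add]
      congr 1
      · refine Finset.sum_congr rfl fun i _ => ?_
        rw [Fin.append_left, Fin.append_left]
      · refine Finset.sum_congr rfl fun i _ => ?_
        rw [Fin.append_right, Fin.append_right]
  | smul r A _ hA =>
    obtain ⟨m, c, f, hf, rfl⟩ := hA
    refine ⟨m, fun i => r * c i, f, hf, ?_⟩
    rw [Finset.smul_sum]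
    refine Finset.sum_congr rfl fun i _ => ?_
    rw [smul_smul]

theorem gr0_hodge : ContainsHodge (gr0 T X) := by
  have h1 : (fun Y => hop T Y : Ops fun Y : 𝒱.Obj => CV T.W Y) ∈ LT T := H_mem
  obtain ⟨m, c, f, hf, h2⟩ := exists_comb (rs_mem (X := X) h1)
  refine ⟨m, c, f, hf, fun a p q x hx => ?_⟩
  have h3 : hop T (X a) x = ∑ i, c i • (f i a).baseChange ℂ (show CV T.W (X a) from x) := by
    have h4 := LinearMap.congr_fun (congrFun h2 a) (show CV T.W (X a) from x)
    rw [Finset.sum_apply, LinearMap.sum_apply] at h4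
    exact h4
  rw [hop_pq hx] at h3
  exact h3.symm

/-- **The Lie algebra of the Hodge group.** -/
theorem mem_hodgeLie {D : Tuples T X} : D ∈ HodgeLie T X ↔ ∃ E ∈ LT T, rs X E = cpl D := by
  constructor
  · intro h
    exact (Submodule.mem_sInf.1 h) (gr0 T X) ⟨gr0_br, gr0_hodge⟩
  · rintro ⟨E, hE, h⟩
    refine Submodule.mem_sInf.2 ?_
    rintro g ⟨hg, hg'⟩
    refine mem_of_cps ?_
    rw [← h]
    exact LT_le_cps hg hg' hE

theorem gr0_eq : gr0 T X = HodgeLie T X := by
  ext D
  exact mem_hodgeLie.symm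

/-! ### Independence -/

theorem Independent.ind {ι : Type*} {X : ι → 𝒱.Obj} (h : Independent T X) (F : Finset ι) :
    Ind (LT T) X F := by
  classical
  intro i hi D hD
  let e : Fin F.card → ι := fun a => (F.equivFin.symm a : ι)
  have he : Function.Injective e := fun a b hab => F.equivFin.symm.injective (Subtype.ext hab)
  let a₀ : Fin F.card := F.equivFin ⟨i, hi⟩
  have hea : e a₀ = i := by
    change ((F.equivFin.symm (F.equivFin ⟨i, hi⟩) : F) : ι) = i
    rw [Equiv.symm_apply_apply]
  have h1 : rs (fun _ : Fin 1 => X (e a₀)) D ∈ cps (gr0 T fun _ : Fin 1 => X (e a₀)) := rs_mem hD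
  have h2 : ∀ A ∈ cps (gr0 T fun _ : Fin 1 => X (e a₀)),
      ∃ D' ∈ JF (LT T) X ((F : Set ι) \ {e a₀}), D' (X (e a₀)) = A 0 := by
    intro A hA
    induction hA using Submodule.span_induction with
    | mem A hA =>
      obtain ⟨D', hD', rfl⟩ := hA
      rw [gr0_eq] at hD'
      obtain ⟨U, hU⟩ : ∃ U : Tuples T fun a => X (e a),
          U = Function.update (0 : Tuples T fun a => X (e a)) a₀ (D' 0) := ⟨_, rfl⟩
      have hU0 : U a₀ = D' 0 := by rw [hU, Function.update_self]
      have hU1 : ∀ a, a ≠ a₀ → U a = 0 := by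
        intro a ha
        rw [hU, Function.update_of_ne ha]
        rfl
      obtain ⟨E, hE, h3⟩ := mem_hodgeLie.1 (h F.card e he U (by
          intro a
          by_cases ha : a = a₀
          · subst ha
            have h4 : (fun _ => U a₀ : Tuples T fun _ : Fin 1 => X (e a₀)) = D' := by
              funext b
              rw [hU0, Subsingleton.elim b 0]
            rw [h4]
            exact hD'
          · have h4 : (fun _ => U a : Tuples T fun _ : Fin 1 => X (e a)) = 0 := by
              funext b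
              rw [hU1 a ha]
              rfl
            rw [h4]
            exact zero_mem _))
      refine ⟨E, ⟨hE, fun j hj => ?_⟩, ?_⟩
      · let b : Fin F.card := F.equivFin ⟨j, hj.1⟩
        have hb : e b = j := by
          change ((F.equivFin.symm (F.equivFin ⟨j, hj.1⟩) : F) : ι) = j
          rw [Equiv.symm_apply_apply]
        have hb' : b ≠ a₀ := by
          intro h5
          rw [h5] at hb
          exact hj.2 hb.symm
        have h5 := congrFun h3 b
        have h6 : cpl U b = 0 := by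
          rw [cpl, hU1 b hb']
          exact LinearMap.baseChange_zero
        rw [h6] at h5
        have h7 : E (X (e b)) = 0 := h5
        rw [hb] at h7
        exact h7
      · have h5 := congrFun h3 a₀
        have h6 : cpl U a₀ = (D' 0).baseChange ℂ := by
          rw [cpl, hU0]
        rw [h6] at h5
        exact h5
    | zero => exact ⟨0, zero_mem _, rfl⟩
    | add A B _ _ hA hB =>
      obtain ⟨D', hD', h3⟩ := hA
      obtain ⟨D'', hD'', h4⟩ := hB
      exact ⟨D' + D'', add_mem hD' hD'', by rw [Pi.add_apply, h3, h4]; rfl⟩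
    | smul c A _ hA =>
      obtain ⟨D', hD', h3⟩ := hA
      exact ⟨c • D', Submodule.smul_mem _ _ hD', by rw [Pi.smul_apply, h3]; rfl⟩
  have h3 := h2 _ h1
  rw [hea] at h3
  exact h3

theorem independent_of_ind {ι : Type*} {X : ι → 𝒱.Obj}
    (h : ∀ F : Finset ι, Ind (LT T) X F) : Independent T X := by
  classical
  intro n e he D hD
  rw [mem_hodgeLie]
  have h1 : ∀ a, ∃ E ∈ LT T, E (X (e a)) = (D a).baseChange ℂ ∧
      ∀ b, b ≠ a → E (X (e b)) = 0 := by
    intro a
    obtain ⟨E, hE, h2⟩ := mem_hodgeLie.1 (hD a)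
    have h3 : E (X (e a)) = (D a).baseChange ℂ := congrFun h2 0
    obtain ⟨D', hD', h4⟩ := h (Finset.univ.image e) (e a) (by simp) E hE
    refine ⟨D', hD'.1, by rw [h4, h3], fun b hb => hD'.2 (e b) ⟨by simp, ?_⟩⟩
    intro h5
    exact hb (he h5)
  choose E hE h2 h3 using h1
  refine ⟨∑ a, E a, sum_mem fun a _ => hE a, ?_⟩
  funext b
  change (∑ a, E a) (X (e b)) = (D b).baseChange ℂ
  rw [Finset.sum_apply, Finset.sum_eq_single b]
  · exact h2 b
  · intro a _ hab
    exact h3 a b (Ne.symm hab)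
  · intro hb
    exact absurd (Finset.mem_univ _) hb

theorem independent_iff {ι : Type*} {X : ι → 𝒱.Obj} :
    Independent T X ↔ ∀ F : Finset ι, Ind (LT T) X F :=
  ⟨fun h => h.ind, independent_of_ind⟩

end

end Pool.Agent.L5helper28.IF
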