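import Pool.Agent.L5helper28.IF.EllB
import Pool.Agent.L5helper28.IF.Ind

/-!
# The cohomology of elliptic curves
-/

set_option autoImplicit false
set_option linter.unusedSectionVars false

open CategoryTheory AlgebraicGeometry TensorProduct

universe u

namespace Pool.Agent.L5helper28.IF

open Module
open Pool.Agent.H914 Pool.Agent.H914.VarClass Pool.Agent.H914.VarClass.Obj
  Pool.Agent.H914.WeilCohomology
open Pool.Agent.Y121 Pool.Agent.Y121.AHS Pool.Agent.N996 Pool.Agent.N996.FP
open Pool.Agent.N179.DB (sl_smul sl_basis sl_comp sl_refl sl_symm sl_symm' sl_inj repr_sl InF)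
open Pool.Agent.N179.DB.Mt (M2 mem_sl mem_sl' eq_of br)

noncomputable section

variable {k : Type u} [Field k] {𝒱 : VarClass k} {ops : CycleOps 𝒱}

variable {T : HodgeTheory ops} {E X Y : 𝒱.Obj}

/-! ### Linear forms -/

/-- the complexification of a linear form -/
def fC {V : Type} [AddCommGroup V] [Module T.W.K V] (φ : V →ₗ[T.W.K] T.W.K) :
    ℂ ⊗[T.W.K] V →ₗ[ℂ] ℂ :=
  (TensorProduct.AlgebraTensorModule.rid T.W.K ℂ ℂ).toLinearMap ∘ₗ φ.baseChange ℂ

theorem fC_tmul {V : Type} [AddCommGroup V] [Module T.W.K V] (φ : V →ₗ[T.W.K] T.W.K) (l : ℂ)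
    (c : V) : fC φ (l ⊗ₜ[T.W.K] c) = algebraMap T.W.K ℂ (φ c) * l := by
  rw [fC, LinearMap.comp_apply, LinearMap.baseChange_tmul]
  change TensorProduct.AlgebraTensorModule.rid T.W.K ℂ ℂ (l ⊗ₜ[T.W.K] φ c) = _
  rw [TensorProduct.AlgebraTensorModule.rid_tmul, Algebra.smul_def]

theorem fC_sl (φ : T.W.H X →ₗ[T.W.K] T.W.K) (τ : ℂ ≃+* ℂ) (x : CV T.W X) :
    fC φ (Pool.Agent.N179.DB.sl (rb T.W X) τ x) = τ (fC φ x) := by
  refine cv_ind (P := fun x => fC φ (Pool.Agent.N179.DB.sl (rb T.W X) τ x) = τ (fC φ x))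
    ?_ ?_ ?_ x
  · rw [map_zero, map_zero, map_zero]
  · intro l c
    rw [sl_tmul T.rat, fC_tmul, fC_tmul, map_mul, fixK T.rat]
  · intro a b ha hb
    rw [map_add, map_add, ha, hb, map_add, map_add]

/-! ### Types and degrees -/

theorem type_gr {p q : ℤ} {i : ℕ} (h : p + q = i) {x : CV T.W X}
    (hx : IsType T.pq p q (show HL T.W ℂ X from x)) : x ∈ (T.W.gr X i).baseChange ℂ := by
  have h1 : T.pq X p q ≤ grL T.W ℂ X i := by
    rw [T.span X i]
    exact le_iSup (fun r : {r : ℤ × ℤ // r.1 + r.2 = i} => T.pq X r.1.1 r.1.2) ⟨(p, q), h⟩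
  exact h1 hx

theorem gr_type {i : ℕ} {x : CV T.W X} (hx : x ∈ (T.W.gr X i).baseChange ℂ) :
    (show HL T.W ℂ X from x) ∈ (⨆ r : {r : ℤ × ℤ // r.1 + r.2 = i}, T.pq X r.1.1 r.1.2) := by
  have h1 : (show HL T.W ℂ X from x) ∈ grL T.W ℂ X i := hx
  rw [T.span X i] at h1
  exact h1

/-- The possible types. -/
theorem types_curve {ψ : RForm T.W E} (hE : IsEllipticCurve T E) (hψ : IsPolarisation T E ψ)
    {p q : ℤ} {x : HL T.W ℂ E} (hx : IsType T.pq p q x) (hx0 : x ≠ 0) :
    (p = 0 ∨ p = 1) ∧ (q = 0 ∨ q = 1) := by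
  obtain ⟨h1, h2, h3, h4⟩ := hψ.range p q x hx hx0
  have h5 : (E.dim : ℤ) = 1 := by rw [hE.1]; rfl
  rw [h5] at h2 h4
  constructor <;> omega

/-- the projection to the cohomology of degree one -/
def q1 (T : HodgeTheory ops) (E : 𝒱.Obj) : Module.End T.W.K (T.W.H E) :=
  proj (T.W.isInternal E) 1

theorem q1_ne {i : ℕ} (hi : i ≠ 1) {x : CV T.W E} (hx : x ∈ (T.W.gr E i).baseChange ℂ) :
    (q1 T E).baseChange ℂ x = 0 := by
  rw [Submodule.baseChange_eq_span] at hx
  induction hx using Submodule.span_induction with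
  | mem x hx =>
    obtain ⟨c, hc, rfl⟩ := hx
    rw [TensorProduct.mk_apply, LinearMap.baseChange_tmul]
    have h1 : q1 T E c = 0 := proj_ne (T.W.isInternal E) hc hi
    rw [h1, TensorProduct.tmul_zero]
  | zero => rw [map_zero]
  | add x y _ _ hx hy => rw [map_add, hx, hy, add_zero]
  | smul c x _ hx => rw [map_smul, hx, smul_zero]

theorem q1_same {x : CV T.W E} (hx : x ∈ (T.W.gr E 1).baseChange ℂ) :
    (q1 T E).baseChange ℂ x = x := by
  rw [Submodule.baseChange_eq_span] at hx
  induction hx using Submodule.span_induction with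
  | mem x hx =>
    obtain ⟨c, hc, rfl⟩ := hx
    rw [TensorProduct.mk_apply, LinearMap.baseChange_tmul]
    have h1 : q1 T E c = c := proj_same (T.W.isInternal E) hc
    rw [h1]
  | zero => rw [map_zero]
  | add x y _ _ hx hy => rw [map_add, hx, hy]
  | smul c x _ hx => rw [map_smul, hx]

section one

variable {ψ : RForm T.W E} (hE : IsEllipticCurve T E) (hψ : IsPolarisation T E ψ)
include hE hψ

/-- The projector is the square of the Hodge operator. -/
theorem hop_hop (x : CV T.W E) : hop T E (hop T E x) = (q1 T E).baseChange ℂ x := by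
  refine hop_ind (P := fun x => hop T E (hop T E x) = (q1 T E).baseChange ℂ x) ?_ ?_ ?_ x
  · intro p q x hx
    by_cases hx0 : x = 0
    · rw [hx0, map_zero, map_zero, map_zero]
    · obtain ⟨h1, h2⟩ := types_curve hE hψ hx hx0
      rw [hop_pq hx, map_smul, hop_pq hx, smul_smul]
      rcases h1 with rfl | rfl <;> rcases h2 with rfl | rfl
      · rw [q1_ne (i := 0) (by decide) (type_gr (by norm_num) hx)]
        norm_num
      · rw [q1_same (type_gr (by norm_num) hx)]
        norm_num
      · rw [q1_same (type_gr (by norm_num) hx)]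
        norm_num
      · rw [q1_ne (i := 2) (by decide) (type_gr (by norm_num) hx)]
        norm_num
  · intro a b ha hb
    rw [map_add, map_add, ha, hb, map_add]
  · rw [map_zero, map_zero, map_zero]

theorem isShift_q1 : IsShift T (q1 T E) 0 := by
  intro p q x hx
  rw [add_zero, add_zero]
  change IsType T.pq p q (show HL T.W ℂ E from (q1 T E).baseChange ℂ (show CV T.W E from x))
  rw [← hop_hop hE hψ, hop_pq hx, map_smul, hop_pq hx]
  exact Submodule.smul_mem _ _ (Submodule.smul_mem _ _ hx)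

theorem LT_q1 {D : Ops fun X : 𝒱.Obj => CV T.W X} (hD : D ∈ LT T) (x : CV T.W E) :
    D E ((q1 T E).baseChange ℂ x) = (q1 T E).baseChange ℂ (D E x) :=
  LT_map hD (isShift_q1 hE hψ) x

end one

/-! ### Coordinates -/

section coord

variable (c : Basis (Fin 2) T.W.K (T.W.gr E 1))

/-- the coordinates -/
def ph (a : Fin 2) : T.W.H E →ₗ[T.W.K] T.W.K :=
  c.coord a ∘ₗ LinearMap.codRestrict (T.W.gr E 1) (q1 T E)
    (fun x => proj_mem (T.W.isInternal E) 1 x)

theorem ph_basis (a b : Fin 2) : ph c a (c b : T.W.H E) = if b = a then 1 else 0 := by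
  have h1 : LinearMap.codRestrict (T.W.gr E 1) (q1 T E)
    (fun x => proj_mem (T.W.isInternal E) 1 x) (c b : T.W.H E) = c b :=
    Subtype.ext (proj_same (T.W.isInternal E) (c b).2)
  rw [ph, LinearMap.comp_apply, h1, Basis.coord_apply, Basis.repr_self, Finsupp.single_apply]

theorem q1_eq (x : T.W.H E) : q1 T E x = ∑ a, ph c a x • (c a : T.W.H E) := by
  have h1 := c.sum_repr (LinearMap.codRestrict (T.W.gr E 1) (q1 T E)
    (fun x => proj_mem (T.W.isInternal E) 1 x) x)
  have h2 := congrArg (Subtype.val) h1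
  rw [Submodule.coe_sum] at h2
  exact h2.symm

/-- the basis vectors -/
def ev (b : Fin 2) : CV T.W E := (1 : ℂ) ⊗ₜ[T.W.K] (c b : T.W.H E)

theorem q1C_eq (x : CV T.W E) :
    (q1 T E).baseChange ℂ x = ∑ a, fC (ph c a) x • ev c a := by
  refine cv_ind (P := fun x => (q1 T E).baseChange ℂ x = ∑ a, fC (ph c a) x • ev c a) ?_ ?_ ?_ x
  · rw [map_zero]
    symm
    refine Finset.sum_eq_zero fun a _ => ?_
    rw [map_zero, zero_smul]
  · intro l x
    rw [LinearMap.baseChange_tmul, q1_eq c, TensorProduct.tmul_sum]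
    refine Finset.sum_congr rfl fun a _ => ?_
    rw [fC_tmul, ev, TensorProduct.tmul_smul, TensorProduct.smul_tmul', TensorProduct.smul_tmul',
      Algebra.smul_def, smul_eq_mul, mul_one]
  · intro x y hx hy
    rw [map_add, hx, hy, ← Finset.sum_add_distrib]
    refine Finset.sum_congr rfl fun a _ => ?_
    rw [map_add, add_smul]

theorem q1_ev (b : Fin 2) : (q1 T E).baseChange ℂ (ev c b) = ev c b := by
  refine q1_same ?_
  exact Submodule.tmul_mem_baseChange_of_mem (1 : ℂ) (c b).2

theorem fC_ev (a b : Fin 2) : fC (ph c a) (ev c b) = if b = a then 1 else 0 := by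
  rw [ev, fC_tmul, ph_basis, mul_one]
  split_ifs
  · rw [map_one]
  · rw [map_zero]

theorem sl_ev (τ : ℂ ≃+* ℂ) (b : Fin 2) :
    Pool.Agent.N179.DB.sl (rb T.W E) τ (ev c b) = ev c b := by
  rw [ev, sl_tmul T.rat, map_one]

theorem fC_q1 (a : Fin 2) (x : CV T.W E) :
    fC (ph c a) ((q1 T E).baseChange ℂ x) = fC (ph c a) x := by
  rw [q1C_eq c, map_sum, Finset.sum_eq_single a]
  · rw [map_smul, fC_ev, if_pos rfl, smul_eq_mul, mul_one]
  · intro b _ hb
    rw [map_smul, fC_ev, if_neg hb, smul_zero]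
  · intro h
    exact absurd (Finset.mem_univ _) h

/-- the matrix of an operator on the cohomology of degree one -/
def mt : (Ops fun X : 𝒱.Obj => CV T.W X) →ₗ[ℂ] M2 where
  toFun D := Matrix.of fun a b => fC (ph c a) (D E (ev c b))
  map_add' D D' := by
    ext a b
    change fC (ph c a) ((D E + D' E) (ev c b)) = _
    rw [LinearMap.add_apply, map_add]
    rfl
  map_smul' r D := by
    ext a b
    change fC (ph c a) ((r • D E) (ev c b)) = _
    rw [LinearMap.smul_apply, map_smul]
    rfl

theorem mt_apply (D : Ops fun X : 𝒱.Obj => CV T.W X) (a b : Fin 2) :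
    mt c D a b = fC (ph c a) (D E (ev c b)) := rfl

variable {ψ : RForm T.W E} (hE : IsEllipticCurve T E) (hψ : IsPolarisation T E ψ)
include hE hψ

theorem D_ev {D : Ops fun X : 𝒱.Obj => CV T.W X} (hD : D ∈ LT T) (b : Fin 2) :
    D E (ev c b) = ∑ a, mt c D a b • ev c a := by
  conv_lhs => rw [← q1_ev c b, LT_q1 hE hψ hD]
  rw [q1C_eq c]
  rfl

theorem mt_mul (D : Ops fun X : 𝒱.Obj => CV T.W X) {D' : Ops fun X : 𝒱.Obj => CV T.W X}
    (hD' : D' ∈ LT T) : mt c (D * D') = mt c D * mt c D' := by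
  ext a b
  rw [mt_apply, Matrix.mul_apply]
  change fC (ph c a) (D E (D' E (ev c b))) = _
  rw [D_ev c hE hψ hD' b, map_sum, map_sum]
  refine Finset.sum_congr rfl fun d _ => ?_
  rw [map_smul, map_smul, smul_eq_mul, mul_comm]
  rfl

theorem mt_gal (τ : ℂ ≃+* ℂ) (D : Ops fun X : 𝒱.Obj => CV T.W X) :
    mt c (fun X => cjg (rb T.W X) τ (D X)) = gal τ (mt c D) := by
  ext a b
  rw [mt_apply, gal_apply, mt_apply, cjg_apply, sl_ev, fC_sl]

/-- the matrix of the Hodge operator -/
theorem mt_sq : mt c (fun X => hop T X) * mt c (fun X => hop T X) = 1 := by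
  rw [← mt_mul c hE hψ _ H_mem]
  ext a b
  rw [mt_apply, Matrix.one_apply]
  change fC (ph c a) (hop T E (hop T E (ev c b))) = _
  rw [hop_hop hE hψ, fC_q1, fC_ev]
  simp only [eq_comm]

theorem mt_cj : gal cc' (mt c (fun X => hop T X)) = -mt c (fun X => hop T X) := by
  have h1 := mt_gal c hE hψ cc' (fun X => hop T X)
  rw [← h1]
  ext a b
  rw [mt_apply, Matrix.neg_apply, mt_apply, cjg_apply, sl_ev]
  have h2 := (polS hψ).cj (ev c b)
  have h3 : Pool.Agent.N179.DB.sl (rb T.W E) cc (ev c b) = ev c b := sl_ev c _ b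
  rw [h3] at h2
  have h4 : Pool.Agent.N179.DB.sl (rb T.W E) cc' (hop T E (ev c b)) = -hop T E (ev c b) :=
    neg_eq_iff_eq_neg.1 h2.symm
  rw [h4, map_neg]

theorem mt_tr_hop : mt c (fun X => hop T X) ∈ Pool.Agent.N179.DB.Mt.sl := by
  have h1 := mt_sq c hE hψ
  have h2 := mt_cj c hE hψ
  set M := mt c (fun X => hop T X)
  rw [mem_sl']
  by_contra hcon
  have hs : M 0 0 + M 1 1 ≠ 0 := fun h => hcon (eq_neg_of_add_eq_zero_right h)
  have a1 := congrFun (congrFun h1 0) 0
  have a2 := congrFun (congrFun h1 0) 1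
  have a3 := congrFun (congrFun h1 1) 0
  rw [mul_ap] at a1 a2 a3
  rw [Matrix.one_apply_eq] at a1
  rw [Matrix.one_apply_ne (by decide)] at a2 a3
  have b2 : M 0 1 = 0 := by
    have h3 : M 0 1 * (M 0 0 + M 1 1) = 0 := by linear_combination a2
    exact (mul_eq_zero.1 h3).resolve_right hs
  rw [b2, zero_mul, add_zero] at a1
  have h3 : (M 0 0 - 1) * (M 0 0 + 1) = 0 := by linear_combination a1
  have h4 := congrFun (congrFun h2 0) 0
  rw [gal_apply, Matrix.neg_apply] at h4
  rcases mul_eq_zero.1 h3 with h5 | h5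
  · rw [sub_eq_zero.1 h5, map_one] at h4
    norm_num at h4
  · rw [eq_neg_of_add_eq_zero_left h5, map_neg, map_one] at h4
    norm_num at h4

theorem mt_tr {D : Ops fun X : 𝒱.Obj => CV T.W X} (hD : D ∈ LT T) :
    mt c D ∈ Pool.Agent.N179.DB.Mt.sl := by
  refine LL_ind (P := fun D => mt c D ∈ Pool.Agent.N179.DB.Mt.sl) ?_ ?_ ?_ ?_ ?_ hD
  · intro σ
    have h1 : mt c (hh (fun X => rb T.W X) (fun X => hop T X) σ) =
      gal σ (mt c (fun X => hop T X)) := mt_gal c hE hψ σ _
    rw [h1]
    have h2 := mem_sl'.1 (mt_tr_hop c hE hψ)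
    rw [mem_sl', gal_apply, gal_apply, h2, map_neg]
  · rw [map_zero]
    exact zero_mem _
  · intro D D' _ _ h1 h2
    rw [map_add]
    exact add_mem h1 h2
  · intro r D _ h1
    rw [map_smul]
    exact Submodule.smul_mem _ _ h1
  · intro D D' hD hD' _ _
    rw [map_sub, mt_mul c hE hψ D hD', mt_mul c hE hψ D' hD]
    exact Pool.Agent.N179.DB.Mt.br_mem _ _

omit c in
theorem hodge_deg {i : ℕ} {j : ℕ} (hij : i = 2 * j) (hj : j ≤ 1) {x : T.W.H E}
    (hx : x ∈ T.W.gr E i) : IsHodge T E j x := by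
  subst hij
  refine ⟨hx, ?_⟩
  have h1 := gr_type (T := T) (X := E) (i := 2 * j) (x := (1 : ℂ) ⊗ₜ[T.W.K] x)
    (Submodule.tmul_mem_baseChange_of_mem (1 : ℂ) hx)
  have h2 : (⨆ r : {r : ℤ × ℤ // r.1 + r.2 = ((2 * j : ℕ) : ℤ)}, T.pq E r.1.1 r.1.2) ≤
      T.pq E j j := by
    refine iSup_le fun r y hy => ?_
    by_cases hy0 : y = 0
    · rw [hy0]
      exact zero_mem _
    · obtain ⟨h3, h4⟩ := types_curve hE hψ hy hy0
      have h5 := r.2
      have h6 : r.1.1 = j ∧ r.1.2 = j := by
        push_cast at h5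
        omega
      rw [h6.1, h6.2] at hy
      exact hy
  exact h2 h1

/-- An element of the Lie algebra with vanishing matrix vanishes. -/
theorem mt_inj {D : Ops fun X : 𝒱.Obj => CV T.W X} (hD : D ∈ LT T) (h0 : mt c D = 0) :
    D E = 0 := by
  have h1 : ∀ x : T.W.H E, D E ((1 : ℂ) ⊗ₜ[T.W.K] x) = 0 := by
    intro x
    refine gr_induction (T.W.isInternal E) (p := fun x => D E ((1 : ℂ) ⊗ₜ[T.W.K] x) = 0)
      ?_ ?_ x
    · intro i x hx
      by_cases h2 : i = 0
      · exact hodge_inv (hodge_deg hE hψ (j := 0) (by omega) (by omega) hx) D hD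
      · by_cases h3 : i = 1
        · subst h3
          have h4 : D E ((q1 T E).baseChange ℂ ((1 : ℂ) ⊗ₜ[T.W.K] x)) = 0 := by
            rw [q1C_eq c, map_sum]
            refine Finset.sum_eq_zero fun a _ => ?_
            rw [map_smul, D_ev c hE hψ hD, Finset.sum_eq_zero, smul_zero]
            intro b _
            rw [h0, Matrix.zero_apply, zero_smul]
          rw [q1_same (Submodule.tmul_mem_baseChange_of_mem (1 : ℂ) hx)] at h4
          exact h4
        · by_cases h4 : i = 2
          · exact hodge_inv (hodge_deg hE hψ (j := 1) (by omega) (by omega) hx) D hD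
          · rw [T.W.gr_eq_bot E i (by rw [hE.1]; omega)] at hx
            rw [(Submodule.mem_bot _).1 hx, TensorProduct.tmul_zero, map_zero]
    · intro x y hx hy
      rw [TensorProduct.tmul_add, map_add, hx, hy, add_zero]
  refine LinearMap.ext fun z => ?_
  refine cv_ind (P := fun z => D E z = (0 : End ℂ (CV T.W E)) z) ?_ ?_ ?_ z
  · rw [map_zero, map_zero]
  · intro l x
    have h3 : (l ⊗ₜ[T.W.K] x : CV T.W E) = l • ((1 : ℂ) ⊗ₜ[T.W.K] x) := by
      rw [TensorProduct.smul_tmul', smul_eq_mul, mul_one]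
    rw [h3, map_smul, h1, smul_zero]
    rfl
  · intro x y hx hy
    rw [map_add, map_add, hx, hy]

/-- the coordinates of the image under the Hodge operator -/
theorem fC_hop (a : Fin 2) (x : CV T.W E) :
    fC (ph c a) (hop T E x) = ∑ b, mt c (fun X => hop T X) a b * fC (ph c b) x := by
  have h1 : hop T E ((q1 T E).baseChange ℂ x) = (q1 T E).baseChange ℂ (hop T E x) :=
    LT_q1 hE hψ (D := fun X => hop T X) H_mem x
  rw [← fC_q1, ← h1, q1C_eq c, map_sum, map_sum]
  refine Finset.sum_congr rfl fun b _ => ?_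
  rw [map_smul, map_smul, smul_eq_mul, mul_comm]
  rfl

end coord

/-! ### The family -/

/-- eigenvectors of degree one have a type -/
theorem type_of_hop {ψ : RForm T.W E} (hE : IsEllipticCurve T E) (hψ : IsPolarisation T E ψ)
    {x : CV T.W E} (hx : x ∈ (T.W.gr E 1).baseChange ℂ) :
    (hop T E x = x → IsType T.pq 1 0 (show HL T.W ℂ E from x)) ∧
    (hop T E x = -x → IsType T.pq 0 1 (show HL T.W ℂ E from x)) := by
  have h1 := gr_type hx
  have h2 : (⨆ r : {r : ℤ × ℤ // r.1 + r.2 = ((1 : ℕ) : ℤ)}, T.pq E r.1.1 r.1.2) ≤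
      T.pq E 1 0 ⊔ T.pq E 0 1 := by
    refine iSup_le fun r y hy => ?_
    by_cases hy0 : y = 0
    · rw [hy0]
      exact zero_mem _
    · obtain ⟨h3, h4⟩ := types_curve hE hψ hy hy0
      have h5 := r.2
      have h6 : (r.1.1 = 1 ∧ r.1.2 = 0) ∨ (r.1.1 = 0 ∧ r.1.2 = 1) := by
        push_cast at h5
        omega
      rcases h6 with h6 | h6
      · rw [h6.1, h6.2] at hy
        exact Submodule.mem_sup_left hy
      · rw [h6.1, h6.2] at hy
        exact Submodule.mem_sup_right hy
  obtain ⟨u, hu, v, hv, h3⟩ := Submodule.mem_sup.1 (h2 h1)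
  have hu' : hop T E (show CV T.W E from u) = u := by
    rw [hop_pq (T := T) (X := E) (x := (show CV T.W E from u)) hu]
    norm_num
  have hv' : hop T E (show CV T.W E from v) = -(show CV T.W E from v) := by
    rw [hop_pq (T := T) (X := E) (x := (show CV T.W E from v)) hv]
    norm_num
  have h4 : (show CV T.W E from u) + (show CV T.W E from v) = x := h3
  have h5 : hop T E x = (show CV T.W E from u) - (show CV T.W E from v) := by
    rw [← h4, map_add, hu', hv', ← sub_eq_add_neg]
  constructor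
  · intro h
    rw [h, ← h4] at h5
    have h6 : (2 : ℂ) • (show CV T.W E from v) = 0 := by
      rw [two_smul]
      have h7 := sub_eq_zero.2 h5
      have h8 : (show CV T.W E from u) + (show CV T.W E from v) -
        ((show CV T.W E from u) - (show CV T.W E from v)) =
        (show CV T.W E from v) + (show CV T.W E from v) := by abel
      rwa [h8] at h7
    have h7 : (show CV T.W E from v) = 0 := (smul_eq_zero.1 h6).resolve_left two_ne_zero
    rw [h7, add_zero] at h4
    rw [← h4]
    exact hu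
  · intro h
    rw [h, ← h4] at h5
    have h6 : (2 : ℂ) • (show CV T.W E from u) = 0 := by
      rw [two_smul]
      have h7 := sub_eq_zero.2 h5.symm
      have h8 : (show CV T.W E from u) - (show CV T.W E from v) -
        (-((show CV T.W E from u) + (show CV T.W E from v))) =
        (show CV T.W E from u) + (show CV T.W E from u) := by abel
      rwa [h8] at h7
    have h7 : (show CV T.W E from u) = 0 := (smul_eq_zero.1 h6).resolve_left two_ne_zero
    rw [h7, zero_add] at h4
    rw [← h4]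
    exact hv

/-- **Rational matrices which commute with the Hodge operators.** -/
theorem no_mat {E' : 𝒱.Obj} {ψ : RForm T.W E} (hE : IsEllipticCurve T E)
    (hψ : IsPolarisation T E ψ) {ψ' : RForm T.W E'} (hE' : IsEllipticCurve T E')
    (hψ' : IsPolarisation T E' ψ') (c : Basis (Fin 2) T.W.K (T.W.gr E 1))
    (c' : Basis (Fin 2) T.W.K (T.W.gr E' 1)) (hno : NoMorphism T E' E) {g : M2}
    (hg : ∀ a b, g a b ∈ (algebraMap T.W.K ℂ).fieldRange)
    (h : mt c (fun X => hop T X) * g = g * mt c' (fun X => hop T X)) : g = 0 := by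
  choose r hr using hg
  let f : T.W.H E' →ₗ[T.W.K] T.W.H E :=
    ∑ a, ∑ b, r a b • (ph c' b).smulRight (c a : T.W.H E)
  have hf : ∀ x, f x = ∑ a, (∑ b, r a b * ph c' b x) • (c a : T.W.H E) := by
    intro x
    change (∑ a, ∑ b, r a b • (ph c' b).smulRight (c a : T.W.H E)) x = _
    rw [LinearMap.sum_apply]
    refine Finset.sum_congr rfl fun a _ => ?_
    rw [LinearMap.sum_apply, Finset.sum_smul]
    refine Finset.sum_congr rfl fun b _ => ?_
    rw [LinearMap.smul_apply, LinearMap.smulRight_apply, smul_smul]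
  have hfC : ∀ x : CV T.W E', f.baseChange ℂ x =
      ∑ a, (∑ b, g a b * fC (ph c' b) x) • ev c a := by
    intro x
    refine cv_ind (P := fun x => f.baseChange ℂ x =
      ∑ a, (∑ b, g a b * fC (ph c' b) x) • ev c a) ?_ ?_ ?_ x
    · rw [map_zero]
      symm
      refine Finset.sum_eq_zero fun a _ => ?_
      rw [Finset.sum_eq_zero, zero_smul]
      intro b _
      rw [map_zero, mul_zero]
    · intro l x
      rw [LinearMap.baseChange_tmul, hf, TensorProduct.tmul_sum]
      refine Finset.sum_congr rfl fun a _ => ?_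
      rw [TensorProduct.tmul_smul, TensorProduct.smul_tmul', ev, TensorProduct.smul_tmul',
        Algebra.smul_def, smul_eq_mul, mul_one, map_sum, Finset.sum_mul]
      congr 1
      refine Finset.sum_congr rfl fun b _ => ?_
      rw [fC_tmul, ← hr, map_mul, mul_assoc]
    · intro x y hx hy
      rw [map_add, hx, hy, ← Finset.sum_add_distrib]
      refine Finset.sum_congr rfl fun a _ => ?_
      rw [← add_smul, ← Finset.sum_add_distrib]
      congr 1
      refine Finset.sum_congr rfl fun b _ => ?_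
      rw [map_add, mul_add]
  -- the image is of degree one
  have hdeg : ∀ x : CV T.W E', f.baseChange ℂ x ∈ (T.W.gr E 1).baseChange ℂ := by
    intro x
    rw [hfC]
    exact sum_mem fun a _ => Submodule.smul_mem _ _
      (Submodule.tmul_mem_baseChange_of_mem (1 : ℂ) (c a).2)
  -- classes of degree `≠ 1` are killed
  have hkill : ∀ {i : ℕ}, i ≠ 1 → ∀ x ∈ (T.W.gr E' i).baseChange ℂ, f.baseChange ℂ x = 0 := by
    intro i hi x hx
    rw [hfC]
    refine Finset.sum_eq_zero fun a _ => ?_
    rw [Finset.sum_eq_zero, zero_smul]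
    intro b _
    rw [← fC_q1, q1_ne hi hx, map_zero, mul_zero]
  have hcomm : ∀ x : CV T.W E', hop T E (f.baseChange ℂ x) =
      f.baseChange ℂ (hop T E' x) := by
    intro x
    have h1 : hop T E (f.baseChange ℂ x) = ∑ d, (∑ a, (∑ b, g a b * fC (ph c' b) x) *
        mt c (fun X => hop T X) d a) • ev c d := by
      rw [hfC, map_sum]
      have h2 : ∀ a : Fin 2, hop T E ((∑ b, g a b * fC (ph c' b) x) • ev c a) =
          ∑ d, ((∑ b, g a b * fC (ph c' b) x) * mt c (fun X => hop T X) d a) • ev c d := by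
        intro a
        rw [map_smul]
        have h3 := D_ev c hE hψ (D := fun X => hop T X) H_mem a
        have h4 : hop T E (ev c a) = ∑ d, mt c (fun X => hop T X) d a • ev c d := h3
        rw [h4, Finset.smul_sum]
        refine Finset.sum_congr rfl fun d _ => ?_
        rw [smul_smul]
      rw [Finset.sum_congr rfl fun a _ => h2 a, Finset.sum_comm]
      refine Finset.sum_congr rfl fun d _ => ?_
      rw [Finset.sum_smul]
    rw [h1, hfC]
    refine Finset.sum_congr rfl fun d _ => ?_
    congr 1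
    have h2 : ∀ b, (∑ a, mt c (fun X => hop T X) d a * g a b) =
        ∑ a, g d a * mt c' (fun X => hop T X) a b := by
      intro b
      have h3 := congrFun (congrFun h d) b
      rw [Matrix.mul_apply, Matrix.mul_apply] at h3
      exact h3
    have h3 : (∑ a, (∑ b, g a b * fC (ph c' b) x) * mt c (fun X => hop T X) d a) =
        ∑ b, (∑ a, mt c (fun X => hop T X) d a * g a b) * fC (ph c' b) x := by
      simp only [Finset.sum_mul]
      rw [Finset.sum_comm]
      refine Finset.sum_congr rfl fun b _ => Finset.sum_congr rfl fun a _ => ?_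
      ring
    rw [h3, Finset.sum_congr rfl fun b _ => by rw [h2 b]]
    have h4 : ∀ a, fC (ph c' a) (hop T E' x) =
        ∑ b, mt c' (fun X => hop T X) a b * fC (ph c' b) x := fun a => fC_hop c' hE' hψ' a x
    have h5 : ∑ b, g d b * fC (ph c' b) (hop T E' x) =
        ∑ b, g d b * ∑ b', mt c' (fun X => hop T X) b b' * fC (ph c' b') x :=
      Finset.sum_congr rfl fun b _ => by rw [h4 b]
    rw [h5]
    simp only [Finset.sum_mul, Finset.mul_sum]
    rw [Finset.sum_comm]
    refine Finset.sum_congr rfl fun b _ => Finset.sum_congr rfl fun a _ => ?_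
    ring
  have htype : ∀ (p q : ℤ) (x : HL T.W ℂ E'), IsType T.pq p q x →
      IsType T.pq p q (extMap T.W.K ℂ f x) := by
    intro p q x hx
    change IsType T.pq p q (show HL T.W ℂ E from f.baseChange ℂ (show CV T.W E' from x))
    by_cases hx0 : x = 0
    · have h1 : f.baseChange ℂ (show CV T.W E' from x) = 0 := by
        rw [hx0]
        exact map_zero (f.baseChange ℂ)
      rw [h1]
      exact zero_mem _
    · obtain ⟨h1, h2⟩ := types_curve hE' hψ' hx hx0
      have h3 := hcomm (show CV T.W E' from x)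
      rw [hop_pq hx] at h3
      rcases h1 with rfl | rfl <;> rcases h2 with rfl | rfl
      · rw [hkill (i := 0) (by decide) _ (type_gr (by norm_num) hx)]
        exact zero_mem _
      · refine (type_of_hop hE hψ (hdeg _)).2 ?_
        rw [h3, map_smul]
        norm_num
      · refine (type_of_hop hE hψ (hdeg _)).1 ?_
        rw [h3, map_smul]
        norm_num
      · rw [hkill (i := 2) (by decide) _ (type_gr (by norm_num) hx)]
        exact zero_mem _
  have h1 := hno f htype
  ext a b
  rw [Matrix.zero_apply, ← hr]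
  have h2 := h1 (c' b) (c' b).2
  rw [hf] at h2
  have h3 : ph c a (∑ a, (∑ b', r a b' * ph c' b' (c' b : T.W.H E')) • (c a : T.W.H E)) = r a b := by
    rw [map_sum, Finset.sum_eq_single a]
    · rw [map_smul, ph_basis, if_pos rfl, smul_eq_mul, mul_one, Finset.sum_eq_single b]
      · rw [ph_basis, if_pos rfl, mul_one]
      · intro b' _ hb'
        rw [ph_basis, if_neg (Ne.symm hb'), mul_zero]
      · intro h4
        exact absurd (Finset.mem_univ _) h4
    · intro a' _ ha'
      rw [map_smul, ph_basis, if_neg ha', smul_zero]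
    · intro h4
      exact absurd (Finset.mem_univ _) h4
  rw [h2, map_zero] at h3
  rw [← h3, map_zero]

/-- **Elliptic curves which are not isogenous are independent.** -/
theorem independent_elliptic {ι : Type*} {X : ι → 𝒱.Obj} (hE : ∀ i, IsEllipticCurve T (X i))
    (hp : ∀ i, ∃ ψ, IsPolarisation T (X i) ψ)
    (hno : ∀ i j, i ≠ j → NoMorphism T (X i) (X j)) : Independent T X := by
  refine independent_of_ind fun G => ?_
  choose ψ hψ using hp
  let c : ∀ i, Basis (Fin 2) T.W.K (T.W.gr (X i) 1) := fun i =>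
    Module.finBasisOfFinrankEq _ _ (hE i).2
  have h1 : hh (fun X => rb T.W X) (fun X => hop T X) 1 = fun X => hop T X := by
    funext Y
    exact cjg_one _ _
  have S : ESys (LT T) (hh (fun X => rb T.W X) (fun X => hop T X)) (fun i => mt (c i))
      (algebraMap T.W.K ℂ).fieldRange :=
    { lie := fun D hD E hE => LL_br hD hE
      gen := fun σ => LL_of σ
      mul := fun i D _ E hE' => mt_mul (c i) (hE i) (hψ i) D hE'
      tr := fun i D hD => mt_tr (c i) (hE i) (hψ i) hD
      gl := fun i σ => by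
        rw [h1]
        exact mt_gal (c i) (hE i) (hψ i) σ _
      sq := fun i => by
        rw [h1]
        exact mt_sq (c i) (hE i) (hψ i)
      cj := fun i => by
        rw [h1]
        exact mt_cj (c i) (hE i) (hψ i)
      act := fun τ D hD => ⟨_, cjg_mem (fun X => rb T.W X) (fun X => hop T X) τ hD,
        fun i => mt_gal (c i) (hE i) (hψ i) τ D⟩
      noiso := fun i j hij g hg h => by
        rw [h1] at h
        exact no_mat (hE i) (hψ i) (hE j) (hψ j) (c i) (c j) (hno j i (Ne.symm hij)) hg h }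
  intro i hi D hD
  obtain ⟨D', hD', h2, h3⟩ := S.main G (i := i) (Finset.mem_coe.1 hi) hD
  refine ⟨D', ⟨hD', fun j hj => ?_⟩, ?_⟩
  · exact mt_inj (c j) (hE j) (hψ j) hD' (h2 j (Finset.mem_coe.1 hj.1) hj.2)
  · have h4 := mt_inj (c i) (hE i) (hψ i) (sub_mem hD' hD) (by rw [map_sub, h3, sub_self])
    have h5 : D' (X i) - D (X i) = 0 := h4
    exact sub_eq_zero.1 h5

end

end Pool.Agent.L5helper28.IF
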