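import Pool.Agent.L5helper28.IF.Tran
import Pool.Agent.L5helper28.IF.Defs
import Pool.Agent.Y121.AHS.Conv

/-!
# The Hodge operators of the varieties
-/

set_option autoImplicit false
set_option linter.unusedSectionVars false

open CategoryTheory AlgebraicGeometry TensorProduct

universe u

namespace Pool.Agent.L5helper28.IF

open Module
open Pool.Agent.H914 Pool.Agent.H914.VarClass Pool.Agent.H914.VarClass.Obj
  Pool.Agent.H914.WeilCohomology
open Pool.Agent.Y121 Pool.Agent.Y121.AHS
open Pool.Agent.N179.DB (sl sl_smul sl_basis sl_comp sl_refl sl_symm sl_symm' sl_inj repr_sl)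

noncomputable section

variable {k : Type u} [Field k] {𝒱 : VarClass k} {ops : CycleOps 𝒱}

/-- The complex cohomology. -/
abbrev CV (W : WeilCohomology.{u, 0} ops) [Algebra W.K ℂ] (X : 𝒱.Obj) : Type := ℂ ⊗[W.K] W.H X

section basis

variable (W : WeilCohomology.{u, 0} ops) [Algebra W.K ℂ]

/-- the index type of the rational basis -/
abbrev Bi (X : 𝒱.Obj) : Type := Fin (finrank W.K (W.H X))

/-- the rational basis -/
def rb (X : 𝒱.Obj) : Basis (Bi W X) ℂ (CV W X) := (Module.finBasis W.K (W.H X)).baseChange ℂ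

variable {W} {X Y : 𝒱.Obj}

theorem rb_apply (i : Bi W X) : rb W X i = (1 : ℂ) ⊗ₜ[W.K] Module.finBasis W.K (W.H X) i :=
  Basis.baseChange_apply _ _ _

/-- the coefficients are rational -/
def Rat (W : WeilCohomology.{u, 0} ops) : Prop := ∀ r : W.K, ∃ q : ℚ, (q : W.K) = r

theorem fixK (hr : Rat W) (τ : ℂ ≃+* ℂ) (r : W.K) : τ (algebraMap W.K ℂ r) = algebraMap W.K ℂ r := by
  obtain ⟨q, rfl⟩ := hr r
  rw [map_ratCast, map_ratCast]

theorem sl_tmul (hr : Rat W) (τ : ℂ ≃+* ℂ) (l : ℂ) (c : W.H X) :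
    sl (rb W X) τ (l ⊗ₜ[W.K] c) = τ l ⊗ₜ[W.K] c := by
  have h1 : c = ∑ i, (Module.finBasis W.K (W.H X)).repr c i • Module.finBasis W.K (W.H X) i :=
    ((Module.finBasis W.K (W.H X)).sum_repr c).symm
  have h2 : ∀ l : ℂ, l ⊗ₜ[W.K] c = ∑ i, (algebraMap W.K ℂ
      ((Module.finBasis W.K (W.H X)).repr c i) * l) • rb W X i := by
    intro l
    conv_lhs => rw [h1]
    rw [TensorProduct.tmul_sum]
    refine Finset.sum_congr rfl fun i _ => ?_
    rw [rb_apply, TensorProduct.smul_tmul', smul_eq_mul, mul_one, TensorProduct.tmul_smul,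
      TensorProduct.smul_tmul', Algebra.smul_def]
  rw [h2, h2, map_sum]
  refine Finset.sum_congr rfl fun i _ => ?_
  rw [sl_smul, sl_basis, map_mul, fixK hr]

theorem cv_ind {P : CV W X → Prop} (h0 : P 0) (h1 : ∀ (l : ℂ) (c : W.H X), P (l ⊗ₜ[W.K] c))
    (h2 : ∀ x y, P x → P y → P (x + y)) (x : CV W X) : P x := by
  induction x using TensorProduct.induction_on with
  | zero => exact h0
  | tmul l c => exact h1 l c
  | add x y hx hy => exact h2 x y hx hy

theorem sl_mul (hr : Rat W) (τ : ℂ ≃+* ℂ) (x y : CV W X) :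
    sl (rb W X) τ (x * y) = sl (rb W X) τ x * sl (rb W X) τ y := by
  refine cv_ind (P := fun x => sl (rb W X) τ (x * y) = sl (rb W X) τ x * sl (rb W X) τ y)
    ?_ ?_ ?_ x
  · rw [zero_mul, map_zero, zero_mul]
  · intro l c
    refine cv_ind (P := fun y => sl (rb W X) τ ((l ⊗ₜ[W.K] c : CV W X) * y) =
      sl (rb W X) τ (l ⊗ₜ[W.K] c) * sl (rb W X) τ y) ?_ ?_ ?_ y
    · rw [mul_zero, map_zero, mul_zero]
    · intro l' c'
      rw [Algebra.TensorProduct.tmul_mul_tmul, sl_tmul hr, sl_tmul hr, sl_tmul hr,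
        Algebra.TensorProduct.tmul_mul_tmul, map_mul]
    · intro a b ha hb
      rw [mul_add, map_add, ha, hb, map_add, mul_add]
  · intro a b ha hb
    rw [add_mul, map_add, ha, hb, map_add, add_mul]

theorem sl_map (hr : Rat W) (τ : ℂ ≃+* ℂ) (f : W.H X →ₗ[W.K] W.H Y) (x : CV W X) :
    f.baseChange ℂ (sl (rb W X) τ x) = sl (rb W Y) τ (f.baseChange ℂ x) := by
  refine cv_ind (P := fun x => f.baseChange ℂ (sl (rb W X) τ x) =
    sl (rb W Y) τ (f.baseChange ℂ x)) ?_ ?_ ?_ x
  · rw [map_zero, map_zero, map_zero]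
  · intro l c
    rw [sl_tmul hr, LinearMap.baseChange_tmul, LinearMap.baseChange_tmul, sl_tmul hr]
  · intro a b ha hb
    rw [map_add, map_add, ha, hb, map_add, map_add]

end basis

section hodge

variable (T : HodgeTheory ops) {X Y : 𝒱.Obj}

/-- The Hodge operator, the multiplication by `p - q` on the classes of type `(p, q)`. -/
def hop (X : 𝒱.Obj) : End ℂ (CV T.W X) :=
  (AH.dia (AH.isInternal (toH T) X) fun r => (((r.1 - r.2 : ℤ) : ℂ) : (AH.CW (toH T)).K) :
    Module.End (AH.CW (toH T)).K ((AH.CW (toH T)).H X))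

variable {T}

theorem hop_pq {p q : ℤ} {x : CV T.W X} (hx : IsType T.pq p q (show HL T.W ℂ X from x)) :
    hop T X x = ((p - q : ℤ) : ℂ) • x :=
  AH.dia_apply (AH.isInternal (toH T) X) _ (i := (p, q)) hx

theorem hop_ind {P : CV T.W X → Prop}
    (h : ∀ (a b : ℤ) (x : CV T.W X), IsType T.pq a b (show HL T.W ℂ X from x) → P x)
    (hadd : ∀ a b, P a → P b → P (a + b)) (h0 : P 0) (x : CV T.W X) : P x :=
  AH.pq_ind (toH T) (p := fun x => P x) h hadd h0 x

/-- The Hodge operator is a derivation. -/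
theorem hop_mul (x y : CV T.W X) : hop T X (x * y) = hop T X x * y + x * hop T X y := by
  refine hop_ind (P := fun x => hop T X (x * y) = hop T X x * y + x * hop T X y) ?_ ?_ ?_ x
  · intro a b x hx
    refine hop_ind (P := fun y => hop T X (x * y) = hop T X x * y + x * hop T X y) ?_ ?_ ?_ y
    · intro c d y hy
      have h1 : IsType T.pq (a + c) (b + d) (show HL T.W ℂ X from (x * y : CV T.W X)) :=
        T.mul X a b c d x y hx hy
      rw [hop_pq hx, hop_pq hy, hop_pq h1, smul_mul_assoc, mul_smul_comm, ← add_smul]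
      congr 1
      push_cast
      ring
    · intro y z hy hz; rw [mul_add, map_add, hy, hz, map_add, mul_add, mul_add]; abel
    · rw [mul_zero, map_zero, mul_zero, mul_zero, add_zero]
  · intro x z hx hz; rw [add_mul, map_add, hx, hz, map_add, add_mul, add_mul]; abel
  · rw [zero_mul, map_zero, zero_mul, zero_mul, add_zero]

theorem hop_map {f : T.W.H X →ₗ[T.W.K] T.W.H Y} {c : ℤ} (hf : IsShift T f c) (x : CV T.W X) :
    hop T Y (f.baseChange ℂ x) = f.baseChange ℂ (hop T X x) := by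
  refine hop_ind (P := fun x => hop T Y (f.baseChange ℂ x) = f.baseChange ℂ (hop T X x))
    ?_ ?_ ?_ x
  · intro a b x hx
    have h1 : IsType T.pq (a + c) (b + c) (show HL T.W ℂ Y from (f.baseChange ℂ x : CV T.W Y)) :=
      hf a b x hx
    rw [hop_pq hx, hop_pq h1, map_smul]
    congr 2
    ring
  · intro y z hy hz; rw [map_add, map_add, hy, hz, map_add, map_add]
  · rw [map_zero, map_zero, map_zero, map_zero]

variable (T)

/-- the Lie algebra generated by the conjugates of the Hodge operators -/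
abbrev LT : Submodule ℂ (Ops fun X : 𝒱.Obj => CV T.W X) :=
  LL (hh (fun X => rb T.W X) fun X => hop T X)

variable {T}

/-- The elements of the Lie algebra are derivations. -/
theorem LT_mul {D : Ops fun X : 𝒱.Obj => CV T.W X} (hD : D ∈ LT T) (X : 𝒱.Obj) :
    ∀ x y : CV T.W X, D X (x * y) = D X x * y + x * D X y := by
  refine LL_ind (P := fun D => ∀ x y : CV T.W X, D X (x * y) = D X x * y + x * D X y)
    ?_ ?_ ?_ ?_ ?_ hD
  · intro σ x y
    change sl (rb T.W X) σ (hop T X (sl (rb T.W X) σ.symm (x * y))) =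
      sl (rb T.W X) σ (hop T X (sl (rb T.W X) σ.symm x)) * y +
      x * sl (rb T.W X) σ (hop T X (sl (rb T.W X) σ.symm y))
    rw [sl_mul T.rat, hop_mul, map_add, sl_mul T.rat, sl_mul T.rat, sl_symm', sl_symm']
  · intro x y
    change (0 : CV T.W X) = 0 * y + x * 0
    rw [zero_mul, mul_zero, add_zero]
  · intro D E _ _ hD hE x y
    change D X (x * y) + E X (x * y) = (D X x + E X x) * y + x * (D X y + E X y)
    rw [hD, hE, add_mul, mul_add]
    abel
  · intro c D _ hD x y
    change c • D X (x * y) = (c • D X x) * y + x * (c • D X y)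
    rw [hD, smul_add, smul_mul_assoc, mul_smul_comm]
  · intro D E _ _ hD hE x y
    change D X (E X (x * y)) - E X (D X (x * y)) = (D X (E X x) - E X (D X x)) * y +
      x * (D X (E X y) - E X (D X y))
    rw [hD, hE, map_add, map_add, hD, hD, hE, hE, sub_mul, mul_sub]
    abel

/-- The elements of the Lie algebra commute with the morphisms of Hodge structures. -/
theorem LT_map {D : Ops fun X : 𝒱.Obj => CV T.W X} (hD : D ∈ LT T) {X Y : 𝒱.Obj}
    {f : T.W.H X →ₗ[T.W.K] T.W.H Y} {c : ℤ} (hf : IsShift T f c) :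
    ∀ x : CV T.W X, D Y (f.baseChange ℂ x) = f.baseChange ℂ (D X x) := by
  refine LL_ind (P := fun D => ∀ x : CV T.W X,
    D Y (f.baseChange ℂ x) = f.baseChange ℂ (D X x)) ?_ ?_ ?_ ?_ ?_ hD
  · intro σ x
    change sl (rb T.W Y) σ (hop T Y (sl (rb T.W Y) σ.symm (f.baseChange ℂ x))) =
      f.baseChange ℂ (sl (rb T.W X) σ (hop T X (sl (rb T.W X) σ.symm x)))
    rw [← sl_map T.rat, hop_map hf, ← sl_map T.rat]
  · intro x
    change (0 : CV T.W Y) = f.baseChange ℂ 0
    rw [map_zero]
  · intro D E _ _ hD hE x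
    change D Y _ + E Y _ = f.baseChange ℂ (D X x + E X x)
    rw [hD, hE, map_add]
  · intro c D _ hD x
    change c • D Y _ = f.baseChange ℂ (c • D X x)
    rw [hD, map_smul]
  · intro D E _ _ hD hE x
    change D Y (E Y _) - E Y (D Y _) = f.baseChange ℂ (D X (E X x) - E X (D X x))
    rw [hD, hE, hD, hE, map_sub]

end hodge

end

end Pool.Agent.L5helper28.IF
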