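import Pool.Agent.L5helper28.IF.Polz
import Pool.Agent.N179.GR.Fin

/-!
# Hodge classes on products
-/

set_option autoImplicit false
set_option linter.unusedSectionVars false

open CategoryTheory AlgebraicGeometry TensorProduct

universe u

namespace Pool.Agent.L5helper28.IF

open Module
open Pool.Agent.H914 Pool.Agent.H914.VarClass Pool.Agent.H914.VarClass.Obj
  Pool.Agent.H914.WeilCohomology
open Pool.Agent.Y121 Pool.Agent.Y121.AHS Pool.Agent.N996 Pool.Agent.N996.FP
open Pool.Agent.Y121.AH (hodgePred)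
open Pool.Agent.H281R3.HT (algSpan)

noncomputable section

variable {k : Type u} [Field k] {𝒱 : VarClass k} {ops : CycleOps 𝒱}

variable {T : HodgeTheory ops} {X Y P : 𝒱.Obj}

theorem Built.mono {S S' : Set 𝒱.Obj} (h : S ⊆ S') (hX : Built T S X) : Built T S' X := by
  induction hX with
  | of hX => exact Built.of (h hX)
  | prod _ _ ih ih' => exact Built.prod ih ih'
  | gen n X f c _ hf h ih => exact Built.gen n X f c ih hf h

/-- finitely many varieties are used -/
theorem Built.exists_finset {ι : Type*} {x : ι → 𝒱.Obj} {A : Set ι} (hX : Built T (x '' A) X) :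
    ∃ F : Finset ι, (F : Set ι) ⊆ A ∧ Built T (x '' (F : Set ι)) X := by
  classical
  induction hX with
  | of hX =>
    obtain ⟨i, hi, rfl⟩ := hX
    refine ⟨{i}, by simpa using hi, Built.of ⟨i, by simp, rfl⟩⟩
  | prod _ _ ih ih' =>
    obtain ⟨F, hF, h1⟩ := ih
    obtain ⟨G, hG, h2⟩ := ih'
    refine ⟨F ∪ G, by rw [Finset.coe_union]; exact Set.union_subset hF hG, Built.prod
      (h1.mono (Set.image_mono ?_)) (h2.mono (Set.image_mono ?_))⟩
    · rw [Finset.coe_union]; exact Set.subset_union_left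
    · rw [Finset.coe_union]; exact Set.subset_union_right
  | gen n X f c _ hf h ih =>
    choose F hF h1 using ih
    refine ⟨Finset.univ.biUnion F, ?_, Built.gen n X f c (fun a => (h1 a).mono
      (Set.image_mono ?_)) hf h⟩
    · intro i hi
      obtain ⟨a, -, ha⟩ := Finset.mem_biUnion.1 (Finset.mem_coe.1 hi)
      exact hF a ha
    · intro i hi
      exact Finset.mem_coe.2 (Finset.mem_biUnion.2 ⟨a, Finset.mem_univ a, hi⟩)

theorem isShift_map {X Y : 𝒱.Obj} (f : X ⟶ Y) : IsShift T (T.W.map f).toLinearMap 0 := by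
  intro p q x hx
  rw [add_zero, add_zero]
  exact T.map X Y f p q x hx

/-- the pull-back with complex coefficients -/
def pb {X Y : 𝒱.Obj} (f : X ⟶ Y) : CV T.W Y →ₗ[ℂ] CV T.W X := (T.W.map f).toLinearMap.baseChange ℂ

theorem pb_eq {X Y : 𝒱.Obj} (f : X ⟶ Y) (x : CV T.W Y) :
    (show CV T.W X from (baseW T.W ℂ).map f x) = pb (T := T) f x :=
  mapBase_eq (L := ℂ) (T.W.map f) x

/-- the value of a derivation on a product -/
theorem LT_prod {D : Ops fun X : 𝒱.Obj => CV T.W X} (hD : D ∈ LT T) {P Y : 𝒱.Obj}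
    (a : CV T.W P) (b : CV T.W Y) :
    D (P.prod Y) (pb (T := T) (fst P Y) a * pb (T := T) (snd P Y) b) =
      pb (T := T) (fst P Y) (D P a) * pb (T := T) (snd P Y) b +
      pb (T := T) (fst P Y) a * pb (T := T) (snd P Y) (D Y b) := by
  rw [LT_mul hD]
  congr 1
  · congr 1
    exact LT_map hD (isShift_map (fst P Y)) a
  · congr 1
    exact LT_map hD (isShift_map (snd P Y)) b

/-- induction for classes on products -/
theorem pb_ind {P Y : 𝒱.Obj} {C : CV T.W (P.prod Y) → Prop} (h0 : C 0)
    (h1 : ∀ (a : CV T.W P) (b : CV T.W Y),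
      C (pb (T := T) (fst P Y) a * pb (T := T) (snd P Y) b))
    (h2 : ∀ x y, C x → C y → C (x + y)) (x : CV T.W (P.prod Y)) : C x := by
  have hk := (baseW T.W ℂ).kunneth P Y
  obtain ⟨t, ht⟩ := hk.2 x
  have h3 : ∀ t : TensorProduct (baseW T.W ℂ).K ((baseW T.W ℂ).H P) ((baseW T.W ℂ).H Y),
      C (show CV T.W (P.prod Y) from kunnethMap ((baseW T.W ℂ).map (fst P Y))
        ((baseW T.W ℂ).map (snd P Y)) t) := by
    intro t
    induction t using TensorProduct.induction_on with
    | zero => rw [map_zero]; exact h0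
    | tmul a b =>
      have h4 := h1 a b
      rw [← pb_eq, ← pb_eq] at h4
      exact h4
    | add a b ha hb =>
      rw [map_add]
      exact h2 _ _ ha hb
  rw [← ht]
  exact h3 t

/-- A derivation which vanishes on the varieties in `S` vanishes on the varieties built from
`S`. -/
theorem Built.kill {S : Set 𝒱.Obj} (hX : Built T S X) {D : Ops fun X : 𝒱.Obj => CV T.W X}
    (hD : D ∈ LT T) (h0 : ∀ X ∈ S, D X = 0) : D X = 0 := by
  induction hX with
  | of hX => exact h0 _ hX
  | @prod X Y _ _ ih ih' =>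
    refine LinearMap.ext fun z => ?_
    refine pb_ind (C := fun z => D (X.prod Y) z = (0 : End ℂ (CV T.W (X.prod Y))) z) ?_ ?_ ?_ z
    · rw [map_zero, map_zero]
    · intro a b
      rw [LT_prod hD, ih, ih', LinearMap.zero_apply, LinearMap.zero_apply, map_zero, map_zero,
        zero_mul, mul_zero, add_zero, LinearMap.zero_apply]
    · intro x y hx hy
      rw [map_add, map_add, hx, hy]
  | @gen Y n X f c _ hf h ih =>
    let A : Subalgebra T.W.K (T.W.H Y) :=
      { carrier := {x | D Y ((1 : ℂ) ⊗ₜ[T.W.K] x) = 0}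
        mul_mem' := by
          intro a b ha hb
          change D Y ((1 : ℂ) ⊗ₜ[T.W.K] (a * b)) = 0
          have h1 : ((1 : ℂ) ⊗ₜ[T.W.K] (a * b) : CV T.W Y) =
              ((1 : ℂ) ⊗ₜ[T.W.K] a) * ((1 : ℂ) ⊗ₜ[T.W.K] b) := by
            rw [Algebra.TensorProduct.tmul_mul_tmul, one_mul]
          have ha' : D Y ((1 : ℂ) ⊗ₜ[T.W.K] a) = 0 := ha
          have hb' : D Y ((1 : ℂ) ⊗ₜ[T.W.K] b) = 0 := hb
          rw [h1, LT_mul hD, ha', hb', zero_mul, mul_zero, add_zero]
        add_mem' := by
          intro a b ha hb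
          change D Y ((1 : ℂ) ⊗ₜ[T.W.K] (a + b)) = 0
          have ha' : D Y ((1 : ℂ) ⊗ₜ[T.W.K] a) = 0 := ha
          have hb' : D Y ((1 : ℂ) ⊗ₜ[T.W.K] b) = 0 := hb
          rw [TensorProduct.tmul_add, map_add, ha', hb', add_zero]
        algebraMap_mem' := by
          intro r
          change D Y ((1 : ℂ) ⊗ₜ[T.W.K] (algebraMap T.W.K (T.W.H Y) r)) = 0
          have h1 : ((1 : ℂ) ⊗ₜ[T.W.K] (algebraMap T.W.K (T.W.H Y) r) : CV T.W Y) =
              (algebraMap T.W.K ℂ r) • (1 : CV T.W Y) := by
            rw [Algebra.algebraMap_eq_smul_one, TensorProduct.tmul_smul,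
              Algebra.TensorProduct.one_def, TensorProduct.smul_tmul', TensorProduct.smul_tmul',
              Algebra.smul_def, smul_eq_mul]
          have h2 : D Y (1 : CV T.W Y) = 0 := by
            have h3 := LT_mul hD Y 1 1
            rw [mul_one, mul_one, one_mul] at h3
            exact left_eq_add.1 h3
          rw [h1, map_smul, h2, smul_zero] }
    have hA : A = ⊤ := by
      rw [eq_top_iff, ← h]
      refine Algebra.adjoin_le ?_
      intro x hx
      obtain ⟨a, ha⟩ := Set.mem_iUnion.1 hx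
      obtain ⟨y, rfl⟩ := ha
      change D Y ((1 : ℂ) ⊗ₜ[T.W.K] (f a y)) = 0
      have h1 := LT_map hD (hf a) ((1 : ℂ) ⊗ₜ[T.W.K] y)
      rw [LinearMap.baseChange_tmul, ih a, LinearMap.zero_apply, map_zero] at h1
      exact h1
    refine LinearMap.ext fun z => ?_
    refine cv_ind (P := fun z => D Y z = (0 : End ℂ (CV T.W Y)) z) ?_ ?_ ?_ z
    · rw [map_zero, map_zero]
    · intro l x
      have h1 : x ∈ A := by rw [hA]; trivial
      have h2 : D Y ((1 : ℂ) ⊗ₜ[T.W.K] x) = 0 := h1
      have h3 : (l ⊗ₜ[T.W.K] x : CV T.W Y) = l • ((1 : ℂ) ⊗ₜ[T.W.K] x) := by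
        rw [TensorProduct.smul_tmul', smul_eq_mul, mul_one]
      rw [h3, map_smul, h2, smul_zero]
      rfl
    · intro x y hx hy
      rw [map_add, map_add, hx, hy]

variable (T) in
/-- The Lie algebra of the product of `P` and `Y` is the product. -/
def Spl (P Y : 𝒱.Obj) : Prop := ∀ D ∈ LT T, ∃ D' ∈ LT T, D' P = D P ∧ D' Y = 0

/-- **The Künneth formula for the invariants.** -/
theorem inv_prod (hs : Spl T P Y) {z : CV T.W (P.prod Y)} (hz : z ∈ inv T (P.prod Y)) :
    z ∈ Submodule.span ℂ {x : CV T.W (P.prod Y) | ∃ a ∈ inv T P, ∃ b ∈ inv T Y,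
      x = pb (T := T) (fst P Y) a * pb (T := T) (snd P Y) b} := by
  let W := baseW T.W ℂ
  -- slices
  have h1 : ∀ ψ : W.H Y →ₗ[W.K] W.K,
      (show CV T.W P from N179.GR.ctr2 ψ (show W.H (P.prod Y) from z)) ∈ inv T P := by
    intro ψ D hD
    obtain ⟨D', hD', hP, hY⟩ := hs D hD
    have h2 : ∀ x : CV T.W (P.prod Y),
        (show CV T.W P from N179.GR.ctr2 ψ (show W.H (P.prod Y) from D' (P.prod Y) x)) =
        D' P (show CV T.W P from N179.GR.ctr2 ψ (show W.H (P.prod Y) from x)) := by
      intro x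
      refine pb_ind (C := fun x => (show CV T.W P from N179.GR.ctr2 ψ
        (show W.H (P.prod Y) from D' (P.prod Y) x)) =
        D' P (show CV T.W P from N179.GR.ctr2 ψ (show W.H (P.prod Y) from x))) ?_ ?_ ?_ x
      · rw [map_zero]
        have h3 : (show CV T.W P from N179.GR.ctr2 ψ (show W.H (P.prod Y) from
          (0 : CV T.W (P.prod Y)))) = 0 := map_zero (N179.GR.ctr2 ψ)
        rw [h3, map_zero]
      · intro a b
        rw [LT_prod hD', hY, LinearMap.zero_apply, map_zero, mul_zero, add_zero]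
        have h3 : ∀ a : CV T.W P, (show CV T.W P from N179.GR.ctr2 ψ
            (show W.H (P.prod Y) from pb (T := T) (fst P Y) a * pb (T := T) (snd P Y) b)) =
            (show ℂ from ψ b) • a := by
          intro a
          have h4 := N179.GR.ctr2_apply (W := W) ψ (show W.H P from a) (show W.H Y from b)
          have h5 : (show W.H (P.prod Y) from pb (T := T) (fst P Y) a *
              pb (T := T) (snd P Y) b) = W.map (fst P Y) a * W.map (snd P Y) b := by
            have e1 := pb_eq (T := T) (fst P Y) a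
            have e2 := pb_eq (T := T) (snd P Y) b
            rw [← e1, ← e2]
            rfl
          rw [h5]
          exact h4
        rw [h3, h3, map_smul]
      · intro x y hx hy
        have h3 : ∀ x y : CV T.W (P.prod Y), (show CV T.W P from N179.GR.ctr2 ψ
            (show W.H (P.prod Y) from (x + y : CV T.W (P.prod Y)))) =
            (show CV T.W P from N179.GR.ctr2 ψ (show W.H (P.prod Y) from x)) +
            (show CV T.W P from N179.GR.ctr2 ψ (show W.H (P.prod Y) from y)) :=
          fun x y => map_add (N179.GR.ctr2 ψ) x y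
        rw [map_add, h3, h3, hx, hy, map_add]
    rw [← hP, ← h2, hz D' hD']
    exact map_zero (N179.GR.ctr2 ψ)
  obtain ⟨N, m, φ, hm, hφ, hex⟩ := N179.GR.exists_exp (W := W) (P := P) Y
    (show Set (W.H P) from (inv T P : Set (CV T.W P)))
  have h2 := hex (show W.H (P.prod Y) from z) fun ψ => Submodule.subset_span (h1 ψ)
  let x : Fin N → W.H Y := fun l => TH125.Gal.ctr (φ l) (show W.H (P.prod Y) from z)
  have hzx : z = ∑ l, pb (T := T) (fst P Y) (m l) * pb (T := T) (snd P Y) (x l) := by
    refine Eq.trans (show z = _ from h2) ?_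
    refine Finset.sum_congr rfl fun l _ => ?_
    have e1 := pb_eq (T := T) (fst P Y) (m l)
    have e2 := pb_eq (T := T) (snd P Y) (x l)
    rw [← e1, ← e2]
    rfl
  have hx : ∀ l, (show CV T.W Y from x l) ∈ inv T Y := by
    intro l D hD
    have h3 := hz D hD
    rw [hzx, map_sum] at h3
    have h4 : ∑ l, pb (T := T) (fst P Y) (m l) *
        pb (T := T) (snd P Y) (D Y (show CV T.W Y from x l)) = 0 := by
      rw [← h3]
      refine Finset.sum_congr rfl fun l _ => ?_
      rw [LT_prod hD, hm l D hD, map_zero, zero_mul, zero_add]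
    have h5 := N179.GR.ctr_sum (W := W) (Y := Y) hφ
      (fun l => (show W.H Y from D Y (show CV T.W Y from x l))) l
    have h6 : (∑ l', W.map (fst P Y) (m l') *
        W.map (snd P Y) (show W.H Y from D Y (show CV T.W Y from x l'))) = 0 := by
      rw [← show (show W.H (P.prod Y) from (∑ l, pb (T := T) (fst P Y) (m l) *
        pb (T := T) (snd P Y) (D Y (show CV T.W Y from x l)))) = 0 from h4]
      refine Finset.sum_congr rfl fun l _ => ?_
      have e1 := pb_eq (T := T) (fst P Y) (m l)
      have e2 := pb_eq (T := T) (snd P Y) (D Y (show CV T.W Y from x l))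
      rw [← e1, ← e2]
      rfl
    rw [h6, map_zero] at h5
    exact h5.symm
  rw [hzx]
  exact sum_mem fun l _ => Submodule.subset_span ⟨_, hm l, _, hx l, rfl⟩

end

end Pool.Agent.L5helper28.IF
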