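import Pool.Agent.L5helper28.IF.Adj

/-!
# The characters of the Lie algebra of a polarised Hodge structure
-/

set_option autoImplicit false
set_option linter.unusedSectionVars false

open Module ComplexConjugate

namespace Pool.Agent.L5helper28.IF

open Pool.Agent.N179.DB (sl sl_smul sl_basis sl_comp sl_refl sl_symm sl_symm' sl_inj repr_sl)

noncomputable section

section lin

variable {V : Type*} [AddCommGroup V] [Module ℂ V] [FiniteDimensional ℂ V]

theorem tr_of_eig {n : ℕ} (f : Basis (Fin n) ℂ V) {A : End ℂ V} {c : Fin n → ℂ}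
    (h : ∀ i, A (f i) = c i • f i) : tr A = ∑ i, c i := by
  classical
  refine (LinearMap.trace_eq_matrix_trace ℂ f A).trans ?_
  rw [Matrix.trace]
  refine Finset.sum_congr rfl fun i _ => ?_
  rw [Matrix.diag_apply, LinearMap.toMatrix_apply, h, map_smul, f.repr_self, Finsupp.smul_apply,
    Finsupp.single_eq_same, smul_eq_mul, mul_one]

/-- traces of products with idempotents -/
theorem tr_idem {H p : End ℂ V} (hd : Submodule.span ℂ {u | ∃ m : ℤ, H u = (m : ℂ) • u} = ⊤)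
    (hp : p * p = p) (hc : p * H = H * p) : ∃ k : ℤ, tr (p * H) = k := by
  have h1 : Submodule.span ℂ {u | ∃ m : ℤ, H u = (m : ℂ) • u ∧ (p u = u ∨ p u = 0)} = ⊤ := by
    rw [eq_top_iff, ← hd]
    refine Submodule.span_le.2 ?_
    rintro u ⟨m, hm⟩
    have h2 : u = p u + (u - p u) := by abel
    have h3 : H (p u) = (m : ℂ) • p u := by
      rw [← End.mul_apply, ← hc, End.mul_apply, hm, map_smul]
    rw [SetLike.mem_coe, h2]
    refine Submodule.add_mem _ (Submodule.subset_span ⟨m, h3, Or.inl ?_⟩)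
      (Submodule.subset_span ⟨m, ?_, Or.inr ?_⟩)
    · rw [← End.mul_apply, hp]
    · rw [map_sub, h3, hm, smul_sub]
    · rw [map_sub, ← End.mul_apply, hp, sub_self]
  obtain ⟨f, hf, hs, hli⟩ := Submodule.exists_fun_fin_finrank_span_eq ℂ
    {u : V | ∃ m : ℤ, H u = (m : ℂ) • u ∧ (p u = u ∨ p u = 0)}
  choose m hm hpf using hf
  let F := Basis.mk hli (by rw [hs, h1])
  have h4 : ∀ i, ∃ k : ℤ, (p * H) (F i) = (k : ℂ) • F i := by
    intro i
    rw [Basis.mk_apply, End.mul_apply, hm, map_smul]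
    rcases hpf i with h5 | h5
    · exact ⟨m i, by rw [h5]⟩
    · exact ⟨0, by rw [h5, smul_zero, Int.cast_zero, zero_smul]⟩
  choose k hk using h4
  exact ⟨∑ i, k i, by rw [tr_of_eig F hk, Int.cast_sum]⟩

/-- projectors -/
theorem exists_projector {K : Type*} {U : K → Submodule ℂ V} (hi : iSupIndep U)
    (ht : ⨆ k, U k = ⊤) (a : K) : ∃ p : End ℂ V, (∀ v ∈ U a, p v = v) ∧
      ∀ k, k ≠ a → ∀ v ∈ U k, p v = 0 := by
  have h1 : IsCompl (U a) (⨆ (k) (_ : k ≠ a), U k) := by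
    refine ⟨hi a, codisjoint_iff.2 ?_⟩
    rw [eq_top_iff, ← ht]
    refine iSup_le fun k => ?_
    by_cases hk : k = a
    · rw [hk]; exact le_sup_left
    · exact le_sup_of_le_right (le_iSup₂_of_le k hk le_rfl)
  refine ⟨(U a).subtype ∘ₗ (U a).linearProjOfIsCompl _ h1, fun v hv => ?_, fun k hk v hv => ?_⟩
  · rw [LinearMap.comp_apply]
    exact congrArg Subtype.val (Submodule.linearProjOfIsCompl_apply_left h1 ⟨v, hv⟩)
  · rw [LinearMap.comp_apply]
    have h2 : v ∈ (⨆ (k) (_ : k ≠ a), U k) := Submodule.mem_iSup_of_mem k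
      (Submodule.mem_iSup_of_mem hk hv)
    have h3 := Submodule.linearProjOfIsCompl_apply_right h1 ⟨v, h2⟩
    exact congrArg Subtype.val h3

theorem tr_idem_ne {p : End ℂ V} (hp : p * p = p) (h0 : p ≠ 0) : tr p ≠ 0 := fun h =>
  h0 (LinearMap.IsIdempotentElem.eq_zero_of_trace_eq_zero hp h)

end lin

variable {J : Type*} {V : J → Type} [∀ j, AddCommGroup (V j)] [∀ j, Module ℂ (V j)]
  {β : J → Type} [∀ j, Fintype (β j)] {b : ∀ j, Basis (β j) ℂ (V j)} {H : Ops V}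

/-- the operators on the space with index `z` -/
def gg (L : Submodule ℂ (Ops V)) (z : J) : Submodule ℂ (End ℂ (V z)) := L.map (LinearMap.proj z)

theorem gg_of {L : Submodule ℂ (Ops V)} {z : J} {D : Ops V} (hD : D ∈ L) : D z ∈ gg L z :=
  ⟨D, hD, rfl⟩

/-- the centre -/
def cen (L : Submodule ℂ (Ops V)) (z : J) : Submodule ℂ (End ℂ (V z)) where
  carrier := {y | y ∈ gg L z ∧ ∀ g ∈ gg L z, g * y = y * g}
  zero_mem' := ⟨zero_mem _, fun g _ => by rw [mul_zero, zero_mul]⟩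
  add_mem' := fun ⟨h1, h2⟩ ⟨h3, h4⟩ => ⟨add_mem h1 h3, fun g hg => by
    rw [mul_add, add_mul, h2 g hg, h4 g hg]⟩
  smul_mem' := fun c _ ⟨h1, h2⟩ => ⟨Submodule.smul_mem _ c h1, fun g hg => by
    rw [mul_smul_comm, smul_mul_assoc, h2 g hg]⟩

section star

variable {z : J} {s : StD (V z)} {L : Submodule ℂ (Ops V)}
  (hst : ∀ g ∈ gg L z, s.st g ∈ gg L z)
  (hbr : ∀ g ∈ gg L z, ∀ g' ∈ gg L z, g * g' - g' * g ∈ gg L z)

include hst

theorem cen_st {y : End ℂ (V z)} (hy : y ∈ cen L z) : s.st y ∈ cen L z := by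
  refine ⟨hst y hy.1, fun g hg => ?_⟩
  have h1 := hy.2 _ (hst g hg)
  rw [← s.st_st g, ← s.mul, ← s.mul, h1]

include hbr

theorem eq_zero_of_cen {μ : End ℂ (V z) →ₗ[ℂ] ℂ}
    (h1 : ∀ g ∈ gg L z, ∀ g' ∈ gg L z, μ (g * g' - g' * g) = 0)
    (h2 : ∀ y ∈ cen L z, μ y = 0) : ∀ g ∈ gg L z, μ g = 0 := by
  obtain ⟨a, ha, h3⟩ := s.riesz (gg L z) μ
  have ha' := hst a ha
  have h4 : s.st a ∈ cen L z := by
    refine ⟨ha', fun u hu => ?_⟩
    have h5 := hbr _ ha' u hu
    have h6 := hst _ h5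
    have h7 : tr ((s.st a * u - u * s.st a) * s.st (s.st a * u - u * s.st a)) = 0 := by
      rw [← tr_br, ← h3 _ (hbr u hu _ h6), h1 u hu _ h6]
    rw [tr_comm] at h7
    exact (sub_eq_zero.1 (s.pos _ h7)).symm
  have h5 : a ∈ cen L z := by
    have h6 := cen_st hst h4
    rwa [s.st_st] at h6
  have h6 := h2 a h5
  rw [h3 a ha] at h6
  have h7 := s.pos a h6
  intro g hg
  rw [h3 g hg, h7, s.zero, zero_mul, map_zero]

variable [FiniteDimensional ℂ (V z)]

/-- the idempotents which commute with the Lie algebra see the centre -/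
theorem exists_idem {y : End ℂ (V z)} (hy : y ∈ cen L z) (hy0 : y ≠ 0) :
    ∃ p : End ℂ (V z), p * p = p ∧ (∀ g ∈ gg L z, p * g = g * p) ∧ tr (p * y) ≠ 0 := by
  classical
  obtain ⟨m, T, -, hT, -, hTs⟩ := s.exists_sa_basis (A := cen L z) fun a ha => cen_st hst ha
  have hc : ∀ i j, T i * T j = T j * T i := fun i j => (hT j).1.2 _ (hT i).1.1
  have htop : ⨆ χ, JE T χ = ⊤ := s.joint T (fun i => (hT i).2) hc
  have hind := JE_indep T hc
  rw [← hTs] at hy
  obtain ⟨c, hcy⟩ := (Submodule.mem_span_range_iff_exists_fun ℂ).1 hy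
  have hyv : ∀ χ, ∀ v ∈ JE T χ, y v = (∑ i, c i * χ i) • v := by
    intro χ v hv
    rw [← hcy, LinearMap.sum_apply, Finset.sum_smul]
    refine Finset.sum_congr rfl fun i _ => ?_
    rw [LinearMap.smul_apply, mem_JE.1 hv i, smul_smul]
  obtain ⟨χ, hχ, hχ0⟩ : ∃ χ, JE T χ ≠ ⊥ ∧ ∑ i, c i * χ i ≠ 0 := by
    by_contra hcon
    push Not at hcon
    apply hy0
    refine LinearMap.ext fun v => ?_
    refine JE_ind (P := fun v => y v = (0 : End ℂ (V z)) v) htop ?_ ?_ ?_ v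
    · intro χ v hv
      by_cases hb : JE T χ = ⊥
      · rw [hb, Submodule.mem_bot] at hv
        rw [hv, map_zero, map_zero]
      · rw [hyv χ v hv, hcon χ hb, zero_smul]
        rfl
    · rw [map_zero, map_zero]
    · intro u v hu hv
      rw [map_add, map_add, hu, hv]
  obtain ⟨p, hp1, hp2⟩ := exists_projector hind htop χ
  have hcomm : ∀ A : End ℂ (V z), (∀ i, A * T i = T i * A) → p * A = A * p := by
    intro A hA
    have hst : ∀ χ', ∀ v ∈ JE T χ', A v ∈ JE T χ' := by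
      intro χ' v hv
      refine mem_JE.2 fun i => ?_
      rw [← End.mul_apply, ← hA, End.mul_apply, mem_JE.1 hv i, map_smul]
    refine LinearMap.ext fun v => ?_
    refine JE_ind (P := fun v => (p * A) v = (A * p) v) htop ?_ ?_ ?_ v
    · intro χ' v hv
      rw [End.mul_apply, End.mul_apply]
      by_cases h : χ' = χ
      · subst h
        rw [hp1 v hv, hp1 _ (hst _ v hv)]
      · rw [hp2 _ h v hv, hp2 _ h _ (hst _ v hv), map_zero]
    · rw [map_zero, map_zero]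
    · intro u v hu hv
      rw [map_add, map_add, hu, hv]
  have hpp : p * p = p := by
    refine LinearMap.ext fun v => ?_
    refine JE_ind (P := fun v => (p * p) v = p v) htop ?_ ?_ ?_ v
    · intro χ' v hv
      rw [End.mul_apply]
      by_cases h : χ' = χ
      · subst h
        rw [hp1 v hv, hp1 v hv]
      · rw [hp2 _ h v hv, map_zero]
    · rw [map_zero, map_zero]
    · intro u v hu hv
      rw [map_add, map_add, hu, hv]
  refine ⟨p, hpp, fun g hg => hcomm g fun i => (hT i).1.2 g hg, ?_⟩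
  have h1 : p * y = (∑ i, c i * χ i) • p := by
    refine LinearMap.ext fun v => ?_
    refine JE_ind (P := fun v => (p * y) v = ((∑ i, c i * χ i) • p) v) htop ?_ ?_ ?_ v
    · intro χ' v hv
      rw [End.mul_apply, LinearMap.smul_apply, hyv _ v hv, map_smul]
      by_cases h : χ' = χ
      · subst h
        rw [hp1 v hv]
      · rw [hp2 _ h v hv, smul_zero, smul_zero]
    · rw [map_zero, map_zero]
    · intro u v hu hv
      rw [map_add, map_add, hu, hv]
  rw [h1, map_smul, smul_eq_mul]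
  refine mul_ne_zero hχ0 (tr_idem_ne hpp fun h0 => hχ ?_)
  rw [eq_bot_iff]
  intro v hv
  rw [Submodule.mem_bot, ← hp1 v hv, h0]
  rfl

end star

/-- the idempotents which commute with the Lie algebra -/
def idm (b : ∀ j, Basis (β j) ℂ (V j)) (H : Ops V) (z : J) : Set (End ℂ (V z)) :=
  {p | p * p = p ∧ ∀ g ∈ gg (LL (hh b H)) z, p * g = g * p}

/-- the function given by an operator -/
def fp (b : ∀ j, Basis (β j) ℂ (V j)) (H : Ops V) (z : J) (p : End ℂ (V z)) :
    (ℂ ≃+* ℂ) → ℂ := fun σ => tr (p * hh b H σ z)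

theorem idm_cjg {z : J} {p : End ℂ (V z)} (hp : p ∈ idm b H z) (τ : ℂ ≃+* ℂ) :
    cjg (b z) τ p ∈ idm b H z := by
  refine ⟨by rw [← cjg_mul, hp.1], ?_⟩
  rintro _ ⟨D, hD, rfl⟩
  have h1 := hp.2 _ (gg_of (z := z) (cjg_mem b H τ⁻¹ hD))
  have h2 : cjg (b z) τ (cjg (b z) τ⁻¹ (D z)) = D z := cjg_inv (b z) τ (D z)
  change cjg (b z) τ p * D z = D z * cjg (b z) τ p
  rw [← h2, ← cjg_mul, ← cjg_mul]
  exact congrArg _ h1

theorem fp_int {z : J} (hd : Submodule.span ℂ {u | ∃ m : ℤ, H z u = (m : ℂ) • u} = ⊤)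
    {p : End ℂ (V z)} (hp : p ∈ idm b H z) (σ : ℂ ≃+* ℂ) : ∃ k : ℤ, fp b H z p σ = k := by
  haveI : FiniteDimensional ℂ (V z) := Module.Finite.of_basis (b z)
  have h1 := idm_cjg hp σ⁻¹
  obtain ⟨k, hk⟩ := tr_idem hd h1.1 (h1.2 _ (gg_of H_mem))
  refine ⟨k, ?_⟩
  have h2 : p * hh b H σ z = cjg (b z) σ (cjg (b z) σ⁻¹ p * H z) := by
    rw [cjg_mul, cjg_inv]
    rfl
  rw [fp, h2, tr_cjg, hk, map_intCast]

theorem fp_trans {z : J} (hd : Submodule.span ℂ {u | ∃ m : ℤ, H z u = (m : ℂ) • u} = ⊤)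
    {p : End ℂ (V z)} (hp : p ∈ idm b H z) (τ σ : ℂ ≃+* ℂ) :
    fp b H z p (τ * σ) = fp b H z (cjg (b z) τ⁻¹ p) σ := by
  obtain ⟨k, hk⟩ := fp_int hd (idm_cjg hp τ⁻¹) σ
  have h2 : p * hh b H (τ * σ) z = cjg (b z) τ (cjg (b z) τ⁻¹ p * hh b H σ z) := by
    rw [cjg_mul, cjg_inv]
    congr 1
    exact (cjg_cjg (b z) τ σ (H z)).symm
  rw [hk, fp, h2, tr_cjg]
  rw [fp] at hk
  rw [hk, map_intCast]

/-- **The characters are combinations of traces.** -/
theorem chr_eq {z : J} (P : PolS (b z) (H z)) :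
    Chr (hh b H) z = Submodule.span ℂ (fp b H z '' idm b H z) := by
  haveI : FiniteDimensional ℂ (V z) := Module.Finite.of_basis (b z)
  obtain ⟨s, hs⟩ := exists_star P
  have hst : ∀ g ∈ gg (LL (hh b H)) z, s.st g ∈ gg (LL (hh b H)) z := by
    rintro _ ⟨D, hD, rfl⟩
    obtain ⟨D', hD', h1, -⟩ := hs D hD
    exact ⟨D', hD', h1⟩
  have hbr : ∀ g ∈ gg (LL (hh b H)) z, ∀ g' ∈ gg (LL (hh b H)) z,
      g * g' - g' * g ∈ gg (LL (hh b H)) z := by
    rintro _ ⟨D, hD, rfl⟩ _ ⟨E, hE, rfl⟩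
    exact ⟨D * E - E * D, LL_br hD hE, rfl⟩
  have htr : ∀ p ∈ idm b H z, ∀ g ∈ gg (LL (hh b H)) z, ∀ g' ∈ gg (LL (hh b H)) z,
      tr (p * (g * g' - g' * g)) = 0 := by
    intro p hp g hg g' _
    rw [tr_br, hp.2 g hg, sub_self, zero_mul, map_zero]
  apply le_antisymm
  · rintro f ⟨μ, h1, h2⟩
    let φ : idm b H z → Dual ℂ (cen (LL (hh b H)) z) := fun p =>
      (tr ∘ₗ LinearMap.mulLeft ℂ (p : End ℂ (V z))) ∘ₗ (cen (LL (hh b H)) z).subtype
    have h3 : ⨅ p, LinearMap.ker (φ p) ≤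
        LinearMap.ker (μ ∘ₗ (cen (LL (hh b H)) z).subtype) := by
      intro y hy
      rw [Submodule.mem_iInf] at hy
      have h4 : (y : End ℂ (V z)) = 0 := by
        by_contra h0
        obtain ⟨p, hp1, hp2, hp3⟩ := exists_idem hst hbr y.2 h0
        exact hp3 (hy ⟨p, hp1, hp2⟩)
      rw [LinearMap.mem_ker, LinearMap.comp_apply, Submodule.subtype_apply, h4, map_zero]
    have h4 := FiniteDimensional.mem_span_of_iInf_ker_le_ker h3
    obtain ⟨c, hc⟩ := (Finsupp.mem_span_range_iff_exists_finsupp).1 h4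
    let ν : End ℂ (V z) →ₗ[ℂ] ℂ := μ - ∑ p ∈ c.support,
      c p • (tr ∘ₗ LinearMap.mulLeft ℂ (p : End ℂ (V z)))
    have hν : ∀ g, ν g = μ g - ∑ p ∈ c.support, c p * tr ((p : End ℂ (V z)) * g) := by
      intro g
      change (μ - ∑ p ∈ c.support, c p • (tr ∘ₗ LinearMap.mulLeft ℂ (p : End ℂ (V z)))) g = _
      rw [LinearMap.sub_apply, LinearMap.sum_apply]
      rfl
    have h5 := eq_zero_of_cen hst hbr (μ := ν) (by
      intro g hg g' hg'
      rw [hν, Finset.sum_eq_zero, sub_zero]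
      · obtain ⟨D, hD, rfl⟩ := hg
        obtain ⟨E, hE, rfl⟩ := hg'
        exact h1 D hD E hE
      · intro p _
        rw [htr p p.2 g hg g' hg', mul_zero]) (by
      intro y hy
      rw [hν, sub_eq_zero]
      have h6 := LinearMap.congr_fun hc ⟨y, hy⟩
      rw [Finsupp.sum, LinearMap.sum_apply] at h6
      exact h6.symm)
    have h6 : f = ∑ p ∈ c.support, c p • fp b H z p := by
      funext σ
      rw [h2, Finset.sum_apply]
      have h7 := h5 _ (gg_of (z := z) (LL_of (h := hh b H) σ))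
      rw [hν, sub_eq_zero] at h7
      exact h7
    rw [h6]
    exact sum_mem fun p _ => Submodule.smul_mem _ _ (Submodule.subset_span ⟨p, p.2, rfl⟩)
  · refine Submodule.span_le.2 ?_
    rintro _ ⟨p, hp, rfl⟩
    refine ⟨tr ∘ₗ LinearMap.mulLeft ℂ p, fun D hD E hE => ?_, fun σ => rfl⟩
    exact htr p hp _ (gg_of hD) _ (gg_of hE)

theorem trSt {z : J} (P : PolS (b z) (H z)) : TrSt (Chr (hh b H) z) := by
  intro f hf τ
  rw [chr_eq P] at hf ⊢
  induction hf using Submodule.span_induction with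
  | mem f hf =>
    obtain ⟨p, hp, rfl⟩ := hf
    refine Submodule.subset_span ⟨_, idm_cjg hp τ⁻¹, ?_⟩
    funext σ
    exact (fp_trans P.diag hp τ σ).symm
  | zero => exact zero_mem _
  | add f g _ _ hf hg => exact add_mem hf hg
  | smul c f _ hf => exact Submodule.smul_mem _ c hf

/-- **The exceptional indices for polarised Hodge structures.** -/
theorem exists_S {ι : Type*} {x : ι → J} {z : J} (P : PolS (b z) (H z))
    (Q : ∀ i, PolS (b (x i)) (H (x i)))
    (hind : ∀ F : Finset ι, Ind (LL (hh b H)) x (F : Set ι)) {V0 : Submodule ℂ (V z)}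
    (h0 : ∀ D ∈ LL (hh b H), ∀ v ∈ V0, D z v = 0) :
    ∃ S : Finset ι, 2 * S.card + finrank ℂ V0 ≤ finrank ℂ (V z) ∧
      ∀ F : Finset ι, Disjoint F S → ∀ D ∈ LL (hh b H), ∃ D' ∈ LL (hh b H),
        (∀ i ∈ F, D' (x i) = D (x i)) ∧ (∀ i ∈ S, D' (x i) = 0) ∧ D' z = 0 := by
  haveI : FiniteDimensional ℂ (V z) := Module.Finite.of_basis (b z)
  obtain ⟨s, hs⟩ := exists_star P
  obtain ⟨S, h1, h2⟩ := exists_exceptional (s := s) (fun F D hD => by
    obtain ⟨D', h1, h2, h3⟩ := hs D hD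
    exact ⟨D', h1, h2, fun i _ => h3 (x i)⟩) hind (trSt P) (fun i => trSt (Q i))
    (B_nondeg P) (fun D hD => skew_LL P hD) h0
  exact ⟨S, h1, fun F hF D hD => exists_split h2 hind hF hD⟩

end

end Pool.Agent.L5helper28.IF
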