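import Pool.Agent.L5helper28.IF.Kun
import Pool.Agent.L5helper28.IF.Tran
import Pool.Agent.N996.BP.Fin1

/-!
# Hodge classes on products: rational classes and algebraic classes
-/

set_option autoImplicit false
set_option linter.unusedSectionVars false

open CategoryTheory AlgebraicGeometry TensorProduct

universe u

namespace Pool.Agent.L5helper28.IF

open Module
open Pool.Agent.H914 Pool.Agent.H914.VarClass Pool.Agent.H914.VarClass.Obj
  Pool.Agent.H914.WeilCohomology
open Pool.Agent.Y121 Pool.Agent.Y121.AHS Pool.Agent.N996 Pool.Agent.N996.FP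
open Pool.Agent.Y121.AH (hodgePred)
open Pool.Agent.H281R3.HT (algSpan)

noncomputable section

variable {k : Type u} [Field k] {𝒱 : VarClass k} {ops : CycleOps 𝒱}

/-- rational vectors in the complexification of a subspace -/
theorem mem_of_baseChange {K V : Type*} [Field K] [Algebra K ℂ] [AddCommGroup V] [Module K V]
    (M : Submodule K V) {c : V} (hc : (1 : ℂ) ⊗ₜ[K] c ∈ M.baseChange ℂ) : c ∈ M := by
  by_contra h
  obtain ⟨f, hf, hM⟩ := Submodule.exists_le_ker_of_notMem h
  have h1 : M.baseChange ℂ ≤ LinearMap.ker (f.baseChange ℂ) := by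
    rw [Submodule.baseChange_eq_span]
    refine Submodule.span_le.2 ?_
    rintro _ ⟨d, hd, rfl⟩
    change f.baseChange ℂ ((1 : ℂ) ⊗ₜ[K] d) = 0
    rw [LinearMap.baseChange_tmul, LinearMap.mem_ker.1 (hM hd), TensorProduct.tmul_zero]
  have h2 := LinearMap.mem_ker.1 (h1 hc)
  rw [LinearMap.baseChange_tmul] at h2
  have h3 := congrArg (TensorProduct.rid K ℂ) h2
  rw [map_zero, TensorProduct.rid_tmul, Algebra.smul_def, mul_one] at h3
  exact hf ((map_eq_zero _).1 h3)

variable {T : HodgeTheory ops} {X Y P : 𝒱.Obj}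

variable (T) in
/-- The linear combinations of the products of Hodge classes. -/
def spProd (P Y : 𝒱.Obj) : Submodule T.W.K (T.W.H (P.prod Y)) :=
  Submodule.span T.W.K {x | ∃ (i j : ℕ) (a : T.W.H P) (b : T.W.H Y),
    IsHodge T P i a ∧ IsHodge T Y j b ∧ x = T.W.map (fst P Y) a * T.W.map (snd P Y) b}

theorem spProd_mul {a : T.W.H P} (ha : a ∈ spH T P) {b : T.W.H Y} (hb : b ∈ spH T Y) :
    T.W.map (fst P Y) a * T.W.map (snd P Y) b ∈ spProd T P Y := by
  induction ha using Submodule.span_induction with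
  | mem a ha =>
    obtain ⟨i, ha⟩ := ha
    induction hb using Submodule.span_induction with
    | mem b hb =>
      obtain ⟨j, hb⟩ := hb
      exact Submodule.subset_span ⟨i, j, a, b, ha, hb, rfl⟩
    | zero => rw [map_zero, mul_zero]; exact zero_mem _
    | add x y _ _ hx hy => rw [map_add, mul_add]; exact add_mem hx hy
    | smul r x _ hx => rw [map_smul, mul_smul_comm]; exact Submodule.smul_mem _ _ hx
  | zero => rw [map_zero, zero_mul]; exact zero_mem _
  | add x y _ _ hx hy => rw [map_add, add_mul]; exact add_mem hx hy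
  | smul r x _ hx => rw [map_smul, smul_mul_assoc]; exact Submodule.smul_mem _ _ hx

/-- **The Künneth formula for the Hodge classes.** -/
theorem hodge_prod (hs : Spl T P Y) {c : T.W.H (P.prod Y)} (hc : c ∈ spH T (P.prod Y)) :
    c ∈ spProd T P Y := by
  refine mem_of_baseChange _ ?_
  have h1 := inv_prod hs (sp_inv hc)
  refine (Submodule.span_le (p := (spProd T P Y).baseChange ℂ)).2 ?_ h1
  rintro x ⟨a, ha, b, hb, rfl⟩
  have ha' := inv_le ha
  have hb' := inv_le hb
  rw [Submodule.baseChange_eq_span] at ha' hb'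
  change pb (T := T) (fst P Y) a * pb (T := T) (snd P Y) b ∈ (spProd T P Y).baseChange ℂ
  clear ha hb h1
  induction ha' using Submodule.span_induction with
  | mem a ha =>
    obtain ⟨a, ha, rfl⟩ := ha
    induction hb' using Submodule.span_induction with
    | mem b hb =>
      obtain ⟨b, hb, rfl⟩ := hb
      have e1 : pb (T := T) (fst P Y) (TensorProduct.mk T.W.K ℂ (T.W.H P) 1 a) *
          pb (T := T) (snd P Y) (TensorProduct.mk T.W.K ℂ (T.W.H Y) 1 b) =
          (1 : ℂ) ⊗ₜ[T.W.K] (T.W.map (fst P Y) a * T.W.map (snd P Y) b) := by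
        rw [TensorProduct.mk_apply, TensorProduct.mk_apply, pb, pb, LinearMap.baseChange_tmul,
          LinearMap.baseChange_tmul]
        refine (Algebra.TensorProduct.tmul_mul_tmul _ _ _ _).trans ?_
        rw [one_mul]
        rfl
      rw [e1]
      exact Submodule.tmul_mem_baseChange_of_mem _ (spProd_mul ha hb)
    | zero => rw [map_zero, mul_zero]; exact zero_mem _
    | add x y _ _ hx hy => rw [map_add, mul_add]; exact add_mem hx hy
    | smul r x _ hx => rw [map_smul, mul_smul_comm]; exact Submodule.smul_mem _ _ hx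
  | zero => rw [map_zero, zero_mul]; exact zero_mem _
  | add x y _ _ hx hy => rw [map_add, add_mul]; exact add_mem hx hy
  | smul r x _ hx => rw [map_smul, smul_mul_assoc]; exact Submodule.smul_mem _ _ hx

theorem hodge_prod' (hs : Spl T P Y) {j : ℕ} {c : T.W.H (P.prod Y)}
    (hc : IsHodge T (P.prod Y) j c) : c ∈ spProd T P Y :=
  hodge_prod hs (Submodule.subset_span ⟨j, hc⟩)

theorem hc_iff : HodgeConjecture T X ↔ spH T X ≤ algSpan T.W X := by
  have h0 : HodgeConjecture T X ↔ (hodgePred (toH T)).sp X ≤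
      (Pool.Agent.Y133.Half.algSys T.W).C X := Pool.Agent.N996.BP.hodgeConjecture_iff
  constructor
  · intro h c hc
    exact h0.1 h (of_spH hc)
  · intro h
    exact h0.2 fun c hc => h (spH_of hc)

/-- **The Hodge conjecture for products.** -/
theorem hc_prod (hs : Spl T P Y) (hP : HodgeConjecture T P) (hY : HodgeConjecture T Y) :
    HodgeConjecture T (P.prod Y) := by
  rw [hc_iff] at hP hY ⊢
  intro c hc
  refine (Submodule.span_le (p := algSpan T.W (P.prod Y))).2 ?_ (hodge_prod hs hc)
  rintro x ⟨i, j, a, b, ha, hb, rfl⟩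
  exact TH125.Gal.algSpan_mul (TH125.Gal.algSpan_map _ (hP (Submodule.subset_span ⟨i, ha⟩)))
    (TH125.Gal.algSpan_map _ (hY (Submodule.subset_span ⟨j, hb⟩)))

/-- **Exceptional members.** -/
theorem exists_splitting {ι : Type*} (x : ι → 𝒱.Obj) (hx : ∀ i, ∃ ψ, IsPolarisation T (x i) ψ)
    (hind : ∀ F : Finset ι, Ind (LT T) x F) {Z : 𝒱.Obj} (hZ : ∃ ψ, IsPolarisation T Z ψ) :
    ∃ S : Finset ι, 2 * S.card ≤ transBetti T Z ∧
      ∀ P Y : 𝒱.Obj, Built T (x '' (S : Set ι)ᶜ) P →
        Built T (insert Z (x '' (S : Set ι))) Y → Spl T P Y := by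
  classical
  choose ψ hψ using hx
  obtain ⟨φ, hφ⟩ := hZ
  obtain ⟨S, hS, h1⟩ := exists_S (P := polS hφ) (Q := fun i => polS (hψ i)) hind
    (V0 := (spH T Z).baseChange ℂ) (fun D hD v hv => base_le_inv hv D hD)
  refine ⟨S, ?_, ?_⟩
  · have h2 := transBetti_eq (T := T) (X := Z)
    rw [finrank_base] at hS
    have h3 : finrank ℂ (CV T.W Z) = finrank T.W.K (T.W.H Z) := Module.finrank_baseChange
    omega
  · intro P Y hP hY D hD
    obtain ⟨F, hF, hP'⟩ := hP.exists_finset
    obtain ⟨D', hD', h2, h3, h4⟩ := h1 F (by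
      rw [Finset.disjoint_left]
      intro i hi hi'
      exact hF (Finset.mem_coe.2 hi) (Finset.mem_coe.2 hi')) D hD
    refine ⟨D', hD', ?_, ?_⟩
    · have h5 := hP'.kill (sub_mem hD' hD) (by
        rintro _ ⟨i, hi, rfl⟩
        change D' (x i) - D (x i) = 0
        rw [h2 i (Finset.mem_coe.1 hi), sub_self])
      change D' P - D P = 0 at h5
      exact sub_eq_zero.1 h5
    · refine hY.kill hD' ?_
      rintro _ (rfl | ⟨i, hi, rfl⟩)
      · exact h4
      · exact h3 i (Finset.mem_coe.1 hi)

end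

end Pool.Agent.L5helper28.IF
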