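import Pool.Agent.L5helper28.IF.Star

/-!
# The Lie algebra generated by a set of families of operators
-/

set_option autoImplicit false
set_option linter.unusedSectionVars false

open Module ComplexConjugate

namespace Pool.Agent.L5helper28.IF

noncomputable section

/-- families of operators -/
abbrev Ops {J : Type*} (V : J → Type) [∀ j, AddCommGroup (V j)] [∀ j, Module ℂ (V j)] :=
  ∀ j, End ℂ (V j)

variable {J : Type*} {V : J → Type} [∀ j, AddCommGroup (V j)] [∀ j, Module ℂ (V j)]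
  {Γ : Type}

/-- the elements of the Lie algebra generated by the operators `h σ` -/
inductive Gen (h : Γ → Ops V) : Ops V → Prop
  | of (σ : Γ) : Gen h (h σ)
  | zero : Gen h 0
  | add {D E : Ops V} : Gen h D → Gen h E → Gen h (D + E)
  | smul (c : ℂ) {D : Ops V} : Gen h D → Gen h (c • D)
  | br {D E : Ops V} : Gen h D → Gen h E → Gen h (D * E - E * D)

/-- the Lie algebra generated by the operators `h σ` -/
def LL (h : Γ → Ops V) : Submodule ℂ (Ops V) where
  carrier := {D | Gen h D}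
  zero_mem' := Gen.zero
  add_mem' := fun hD hE => Gen.add hD hE
  smul_mem' := fun c _ hD => Gen.smul c hD

variable {h : Γ → Ops V}

theorem LL_of (σ : Γ) : h σ ∈ LL h := Gen.of σ

theorem LL_br {D E : Ops V} (hD : D ∈ LL h) (hE : E ∈ LL h) : D * E - E * D ∈ LL h :=
  Gen.br hD hE

theorem LL_ind {P : Ops V → Prop} (hof : ∀ σ, P (h σ)) (h0 : P 0)
    (hadd : ∀ D E, D ∈ LL h → E ∈ LL h → P D → P E → P (D + E))
    (hsm : ∀ (c : ℂ) D, D ∈ LL h → P D → P (c • D))
    (hbr : ∀ D E, D ∈ LL h → E ∈ LL h → P D → P E → P (D * E - E * D)) {D : Ops V}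
    (hD : D ∈ LL h) : P D := by
  have hD' : Gen h D := hD
  induction hD' with
  | of σ => exact hof σ
  | zero => exact h0
  | add a b iha ihb => exact hadd _ _ a b (iha a) (ihb b)
  | smul c a iha => exact hsm c _ a (iha a)
  | br a b iha ihb => exact hbr _ _ a b (iha a) (ihb b)

section JK

variable {ι : Type*}

/-- the elements which vanish on the spaces with indices in `F` -/
def JF (L : Submodule ℂ (Ops V)) (x : ι → J) (F : Set ι) : Submodule ℂ (Ops V) where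
  carrier := {D | D ∈ L ∧ ∀ i ∈ F, D (x i) = 0}
  zero_mem' := ⟨zero_mem _, fun _ _ => rfl⟩
  add_mem' := fun ⟨h1, h2⟩ ⟨h3, h4⟩ => ⟨add_mem h1 h3, fun i hi => by
    rw [Pi.add_apply, h2 i hi, h4 i hi, add_zero]⟩
  smul_mem' := fun c _ ⟨h1, h2⟩ => ⟨Submodule.smul_mem _ c h1, fun i hi => by
    rw [Pi.smul_apply, h2 i hi, smul_zero]⟩

/-- their operators on the space with index `z` -/
def KF (L : Submodule ℂ (Ops V)) (x : ι → J) (z : J) (F : Set ι) :
    Submodule ℂ (End ℂ (V z)) := (JF L x F).map (LinearMap.proj z)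

variable {L : Submodule ℂ (Ops V)} {x : ι → J} {z : J} {F G : Set ι}

theorem mem_JF {D : Ops V} : D ∈ JF L x F ↔ D ∈ L ∧ ∀ i ∈ F, D (x i) = 0 := Iff.rfl

theorem mem_KF {w : End ℂ (V z)} : w ∈ KF L x z F ↔ ∃ D ∈ JF L x F, D z = w := Iff.rfl

theorem JF_mono (h : F ⊆ G) : JF L x G ≤ JF L x F := fun _ hD =>
  ⟨hD.1, fun i hi => hD.2 i (h hi)⟩

theorem KF_mono (h : F ⊆ G) : KF L x z G ≤ KF L x z F := Submodule.map_mono (JF_mono h)

theorem KF_br (hL : ∀ D ∈ L, ∀ E ∈ L, D * E - E * D ∈ L) {g w : End ℂ (V z)}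
    (hg : g ∈ KF L x z ∅) (hw : w ∈ KF L x z F) : g * w - w * g ∈ KF L x z F := by
  obtain ⟨D, hD, rfl⟩ := hg
  obtain ⟨E, hE, rfl⟩ := hw
  exact ⟨D * E - E * D, ⟨hL D hD.1 E hE.1, fun i hi => by
    rw [Pi.sub_apply, Pi.mul_apply, Pi.mul_apply, hE.2 i hi, mul_zero, zero_mul, sub_zero]⟩, rfl⟩

theorem KF_br' (hL : ∀ D ∈ L, ∀ E ∈ L, D * E - E * D ∈ L) {g w : End ℂ (V z)}
    (hg : g ∈ KF L x z G) (hw : w ∈ KF L x z F) : g * w - w * g ∈ KF L x z (G ∪ F) := by
  obtain ⟨D, hD, rfl⟩ := hg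
  obtain ⟨E, hE, rfl⟩ := hw
  refine ⟨D * E - E * D, ⟨hL D hD.1 E hE.1, fun i hi => ?_⟩, rfl⟩
  rw [Pi.sub_apply, Pi.mul_apply, Pi.mul_apply]
  rcases hi with hi | hi
  · rw [hD.2 i hi, mul_zero, zero_mul, sub_zero]
  · rw [hE.2 i hi, mul_zero, zero_mul, sub_zero]

end JK

end

end Pool.Agent.L5helper28.IF
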