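import Pool.Agent.L5helper28.IF.Cjg

/-!
# Polarised Hodge structures: the adjoint
-/

set_option autoImplicit false
set_option linter.unusedSectionVars false
set_option warn.classDefReducibility false

open Module ComplexConjugate

namespace Pool.Agent.L5helper28.IF

open Pool.Agent.N179.DB (sl sl_smul sl_basis sl_comp sl_refl sl_symm sl_symm' sl_inj repr_sl)

noncomputable section

/-- the complex conjugation -/
def cc : ℂ ≃+* ℂ := starRingAut

theorem cc_apply (z : ℂ) : cc z = conj z := rfl

theorem cc_symm : cc.symm = cc := by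
  apply RingEquiv.ext
  intro z
  rw [RingEquiv.symm_apply_eq, cc_apply, cc_apply, Complex.conj_conj]

section one

variable {V : Type*} [AddCommGroup V] [Module ℂ V] {β : Type*} [Fintype β] (b : Basis β ℂ V)

theorem sl_cc (u : V) : sl b cc (sl b cc u) = u := by
  have h1 := sl_symm b cc u
  rwa [cc_symm] at h1

/-- a polarised Hodge structure: `b` is a rational basis, `H` is the operator `p - q` -/
structure PolS (b : Basis β ℂ V) (H : End ℂ V) where
  B : V →ₗ[ℂ] V →ₗ[ℂ] ℂ
  diag : Submodule.span ℂ {u | ∃ m : ℤ, H u = (m : ℂ) • u} = ⊤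
  rat : ∀ (τ : ℂ ≃+* ℂ) (u v : V), B (sl b τ u) (sl b τ v) = τ (B u v)
  skew : ∀ u v, B (H u) v = -B u (H v)
  cj : ∀ u, H (sl b cc u) = -sl b cc (H u)
  pos : ∀ (m : ℤ) (u : V), H u = (m : ℂ) • u → u ≠ 0 →
    ∃ r : ℝ, 0 < r ∧ Complex.I ^ m * B u (sl b cc u) = r

variable {b} {H : End ℂ V}

theorem exists_eigenbasis [FiniteDimensional ℂ V]
    (hd : Submodule.span ℂ {u | ∃ m : ℤ, H u = (m : ℂ) • u} = ⊤) :
    ∃ (n : ℕ) (e : Basis (Fin n) ℂ V) (w : Fin n → ℤ), ∀ i, H (e i) = (w i : ℂ) • e i := by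
  obtain ⟨f, hf, hs, hli⟩ :=
    Submodule.exists_fun_fin_finrank_span_eq ℂ {u | ∃ m : ℤ, H u = (m : ℂ) • u}
  choose w hw using hf
  refine ⟨_, Basis.mk hli (by rw [hs, hd]), w, fun i => ?_⟩
  rw [Basis.mk_apply]
  exact hw i

variable {n : ℕ} (e : Basis (Fin n) ℂ V) (w : Fin n → ℤ)

/-- diagonal operators -/
def dg (f : ℤ → ℂ) : End ℂ V := e.constr ℂ fun i => f (w i) • e i

theorem dg_basis (f : ℤ → ℂ) (i : Fin n) : dg e w f (e i) = f (w i) • e i :=
  e.constr_basis ℂ _ i

variable {e w} (he : ∀ i, H (e i) = (w i : ℂ) • e i)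

include he

theorem repr_eig {m : ℤ} {u : V} (hu : H u = (m : ℂ) • u) (i : Fin n) :
    w i = m ∨ e.repr u i = 0 := by
  classical
  have h1 : ∀ u : V, e.repr (H u) i = (w i : ℂ) * e.repr u i := by
    intro u
    conv_lhs => rw [← e.sum_repr u]
    rw [map_sum, map_sum, Finsupp.finset_sum_apply, Finset.sum_eq_single i]
    · rw [map_smul, he, smul_smul, map_smul, e.repr_self, Finsupp.smul_apply,
        Finsupp.single_eq_same, smul_eq_mul, mul_one, mul_comm]
    · intro k _ hk
      rw [map_smul, he, smul_smul, map_smul, e.repr_self, Finsupp.smul_apply,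
        Finsupp.single_eq_of_ne (Ne.symm hk), smul_zero]
    · intro hh; exact absurd (Finset.mem_univ _) hh
  have h2 := h1 u
  rw [hu, map_smul, Finsupp.smul_apply, smul_eq_mul] at h2
  have h3 : ((m : ℂ) - (w i : ℂ)) * e.repr u i = 0 := by rw [sub_mul, h2, sub_self]
  rcases mul_eq_zero.1 h3 with h4 | h4
  · left
    exact_mod_cast (sub_eq_zero.1 h4).symm
  · exact Or.inr h4

theorem dg_eig (f : ℤ → ℂ) {m : ℤ} {u : V} (hu : H u = (m : ℂ) • u) : dg e w f u = f m • u := by
  conv_lhs => rw [← e.sum_repr u]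
  conv_rhs => rw [← e.sum_repr u]
  rw [map_sum, Finset.smul_sum]
  refine Finset.sum_congr rfl fun i _ => ?_
  rw [map_smul, dg_basis]
  rcases repr_eig he hu i with h1 | h1
  · rw [h1, smul_comm]
  · rw [h1, zero_smul, zero_smul, smul_zero]

theorem H_dg (f : ℤ → ℂ) (u : V) : H (dg e w f u) = dg e w f (H u) := by
  have h1 : H ∘ₗ dg e w f = dg e w f ∘ₗ H := by
    refine e.ext fun i => ?_
    rw [LinearMap.comp_apply, LinearMap.comp_apply, dg_basis, map_smul, he, map_smul, dg_basis,
      smul_comm]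
  exact LinearMap.congr_fun h1 u

/-- the component of weight `m` -/
theorem H_proj (m : ℤ) (u : V) : H (dg e w (fun k => if k = m then 1 else 0) u) =
    (m : ℂ) • dg e w (fun k => if k = m then 1 else 0) u := by
  have h1 : H ∘ₗ dg e w (fun k => if k = m then 1 else 0) =
      (m : ℂ) • dg e w (fun k => if k = m then 1 else 0) := by
    refine e.ext fun i => ?_
    rw [LinearMap.comp_apply, LinearMap.smul_apply, dg_basis, map_smul, he]
    by_cases h : w i = m
    · rw [if_pos h, one_smul, one_smul, h]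
    · rw [if_neg h, zero_smul, zero_smul, smul_zero]
  exact LinearMap.congr_fun h1 u

omit he in
theorem dg_sum (f : ℤ → ℂ) (u : V) : dg e w f u = ∑ m ∈ Finset.univ.image w,
    f m • dg e w (fun k => if k = m then 1 else 0) u := by
  have h1 : dg e w f = ∑ m ∈ Finset.univ.image w, f m • dg e w (fun k => if k = m then 1 else 0) := by
    refine e.ext fun i => ?_
    rw [LinearMap.sum_apply, dg_basis, Finset.sum_eq_single (w i)]
    · rw [LinearMap.smul_apply, dg_basis, if_pos rfl, one_smul]
    · intro m _ hm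
      rw [LinearMap.smul_apply, dg_basis, if_neg (Ne.symm hm), zero_smul, smul_zero]
    · intro hh
      exact absurd (Finset.mem_image_of_mem _ (Finset.mem_univ _)) hh
  rw [h1, LinearMap.sum_apply]
  rfl

omit he in
theorem dg_one (u : V) : dg e w (fun _ => 1) u = u := by
  have h1 : dg e w (fun _ => 1) = LinearMap.id := by
    refine e.ext fun i => ?_
    rw [dg_basis, one_smul, LinearMap.id_apply]
  rw [h1, LinearMap.id_apply]

omit he in
theorem dg_mul (f g : ℤ → ℂ) : dg e w f * dg e w g = dg e w (fun k => f k * g k) := by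
  refine e.ext fun i => ?_
  rw [End.mul_apply, dg_basis, dg_basis, map_smul, dg_basis, smul_smul, mul_comm]

end one

section core

variable {V : Type*} [AddCommGroup V] [Module ℂ V] {β : Type*} [Fintype β] {b : Basis β ℂ V}
  {H : End ℂ V} (P : PolS b H) {n : ℕ} {e : Basis (Fin n) ℂ V} {w : Fin n → ℤ}
  (he : ∀ i, H (e i) = (w i : ℂ) • e i)

/-- the sesquilinear form -/
def sq (P : PolS b H) (e : Basis (Fin n) ℂ V) (w : Fin n → ℤ) (u v : V) : ℂ :=
  P.B (dg e w (fun m => Complex.I ^ m) v) (sl b cc u)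

theorem sq_add_left (u u' v : V) : sq P e w (u + u') v = sq P e w u v + sq P e w u' v := by
  rw [sq, map_add, map_add]; rfl

theorem sq_add_right (u v v' : V) : sq P e w u (v + v') = sq P e w u v + sq P e w u v' := by
  rw [sq, map_add, map_add, LinearMap.add_apply]; rfl

theorem sq_smul_left (c : ℂ) (u v : V) : sq P e w (c • u) v = conj c * sq P e w u v := by
  rw [sq, sl_smul, map_smul, smul_eq_mul]; rfl

theorem sq_smul_right (c : ℂ) (u v : V) : sq P e w u (c • v) = c * sq P e w u v := by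
  rw [sq, map_smul, map_smul, LinearMap.smul_apply, smul_eq_mul]; rfl

include he

theorem B_orth {m m' : ℤ} (h : m ≠ m') {u v : V} (hu : H u = (m : ℂ) • u)
    (hv : H v = (m' : ℂ) • v) : P.B u (sl b cc v) = 0 := by
  have h1 := P.skew u (sl b cc v)
  have h2 : cc (m' : ℂ) = (m' : ℂ) := map_intCast cc m'
  rw [hu, P.cj, hv, sl_smul, h2, map_smul, LinearMap.smul_apply, map_neg, map_smul, neg_neg,
    smul_eq_mul, smul_eq_mul] at h1
  have h3 : ((m : ℂ) - (m' : ℂ)) * P.B u (sl b cc v) = 0 := by rw [sub_mul, h1, sub_self]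
  refine (mul_eq_zero.1 h3).resolve_left fun h4 => h ?_
  exact_mod_cast sub_eq_zero.1 h4

theorem sq_self (u : V) : sq P e w u u = ∑ m ∈ Finset.univ.image w, Complex.I ^ m *
    P.B (dg e w (fun k => if k = m then 1 else 0) u)
      (sl b cc (dg e w (fun k => if k = m then 1 else 0) u)) := by
  have h1 : sl b cc u = ∑ m ∈ Finset.univ.image w,
      sl b cc (dg e w (fun k => if k = m then 1 else 0) u) := by
    have h2 := dg_sum (e := e) (w := w) (fun _ => 1) u
    rw [dg_one] at h2
    simp only [one_smul] at h2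
    rw [← map_sum]
    exact congrArg (sl b cc) h2
  rw [sq, dg_sum, map_sum, LinearMap.sum_apply]
  refine Finset.sum_congr rfl fun m hm => ?_
  rw [map_smul, LinearMap.smul_apply, smul_eq_mul]
  congr 1
  rw [h1, map_sum, Finset.sum_eq_single m]
  · intro m' _ hm'
    exact B_orth P he (Ne.symm hm') (H_proj he m u) (H_proj he m' u)
  · intro hh; exact absurd hm hh

theorem term_nonneg (m : ℤ) (u : V) : ∃ r : ℝ, 0 ≤ r ∧ (r = 0 →
    dg e w (fun k => if k = m then 1 else 0) u = 0) ∧ Complex.I ^ m *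
    P.B (dg e w (fun k => if k = m then 1 else 0) u)
      (sl b cc (dg e w (fun k => if k = m then 1 else 0) u)) = r := by
  by_cases h : dg e w (fun k => if k = m then 1 else 0) u = 0
  · exact ⟨0, le_rfl, fun _ => h, by rw [h]; simp⟩
  · obtain ⟨r, hr, h1⟩ := P.pos m _ (H_proj he m u) h
    exact ⟨r, hr.le, fun h2 => absurd h2 hr.ne', h1⟩

theorem sq_real (u : V) : ∃ r : ℝ, 0 ≤ r ∧ (r = 0 → u = 0) ∧ sq P e w u u = r := by
  choose r hr0 hr1 hr2 using fun m => term_nonneg P he m u
  refine ⟨∑ m ∈ Finset.univ.image w, r m, Finset.sum_nonneg fun m _ => hr0 m, fun h => ?_, ?_⟩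
  · have h1 := (Finset.sum_eq_zero_iff_of_nonneg fun m _ => hr0 m).1 h
    have h2 := dg_sum (e := e) (w := w) (fun _ => 1) u
    rw [dg_one] at h2
    rw [h2]
    exact Finset.sum_eq_zero fun m hm => by rw [hr1 m (h1 m hm), smul_zero]
  · rw [sq_self P he, Complex.ofReal_sum]
    exact Finset.sum_congr rfl fun m _ => hr2 m

theorem sq_symm (u v : V) : conj (sq P e w v u) = sq P e w u v := by
  obtain ⟨r1, -, -, h1⟩ := sq_real P he u
  obtain ⟨r2, -, -, h2⟩ := sq_real P he v
  obtain ⟨r3, -, -, h3⟩ := sq_real P he (u + v)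
  obtain ⟨r4, -, -, h4⟩ := sq_real P he (u + Complex.I • v)
  rw [sq_add_left, sq_add_right, sq_add_right, h1, h2] at h3
  rw [sq_add_left, sq_add_right, sq_add_right, sq_smul_left, sq_smul_right, sq_smul_left,
    sq_smul_right, h1, h2, Complex.conj_I] at h4
  have h5 := congrArg Complex.im h3
  have h6 := congrArg Complex.im h4
  simp at h5 h6
  apply Complex.ext
  · rw [Complex.conj_re]; linarith
  · rw [Complex.conj_im]; linarith

/-- the inner product -/
def core : InnerProductSpace.Core ℂ V where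
  inner := sq P e w
  conj_inner_symm := sq_symm P he
  re_inner_nonneg u := by
    obtain ⟨r, h1, -, h2⟩ := sq_real P he u
    change 0 ≤ (sq P e w u u).re
    rw [h2, Complex.ofReal_re]
    exact h1
  add_left := sq_add_left P
  smul_left u v c := sq_smul_left P c u v
  definite u h := by
    obtain ⟨r, -, h1, h2⟩ := sq_real P he u
    have h3 : sq P e w u u = 0 := h
    rw [h2] at h3
    exact h1 (by exact_mod_cast h3)

end core

end

end Pool.Agent.L5helper28.IF
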