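import Pool.Agent.L5helper28.IF.Geo
import Pool.Agent.N996.BP.Fin1
import Pool.Agent.N996.FP.DefsT
import Pool.Agent.N996.FP.Defs

/-!
# Polarisations; the invariants are the combinations of the Hodge classes
-/

set_option autoImplicit false
set_option linter.unusedSectionVars false

open CategoryTheory AlgebraicGeometry TensorProduct

universe u

namespace Pool.Agent.L5helper28.IF

open Module
open Pool.Agent.H914 Pool.Agent.H914.VarClass Pool.Agent.H914.VarClass.Obj
  Pool.Agent.H914.WeilCohomology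
open Pool.Agent.Y121 Pool.Agent.Y121.AHS Pool.Agent.N996 Pool.Agent.N996.FP
open Pool.Agent.Y121.AH (hodgePred)
open Pool.Agent.N179.DB (sl sl_smul sl_basis sl_comp sl_refl sl_symm sl_symm' sl_inj repr_sl InF)

noncomputable section

variable {k : Type u} [Field k] {𝒱 : VarClass k} {ops : CycleOps 𝒱} {T : HodgeTheory ops}
  {X Y : 𝒱.Obj}

theorem toBP {ψ : RForm T.W X} (h : IsPolarisation T X ψ) : BP.IsPolarisation T X ψ where
  range := h.range
  conj := h.conj
  orth := h.orth
  pos := h.pos

theorem sl_sig (x : CV T.W X) :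
    sl (rb T.W X) cc x = H914.sig (BP.tq T) x := by
  refine cv_ind (P := fun x => sl (rb T.W X) cc x = H914.sig (BP.tq T) x) ?_ ?_ ?_ x
  · rw [map_zero, map_zero]
  · intro l c
    rw [sl_tmul T.rat]
    exact (H914.sig_tmul (BP.tq T) l c).symm
  · intro a b ha hb
    rw [map_add, ha, hb, map_add]

/-- The types, as subspaces of the tensor product. -/
def Fy (T : HodgeTheory ops) (X : 𝒱.Obj) : ℤ × ℤ → Submodule ℂ (CV T.W X) := fun r =>
  (T.pq X r.1 r.2 : Submodule ℂ (HL T.W ℂ X))

theorem isPHS {ψ : RForm T.W X} (h : IsPolarisation T X ψ) :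
    BP.IsPHS (K := T.W.K) (V := T.W.H X) (BP.tq T) (Fy T X)
      (show LinearMap.BilinForm T.W.K (T.W.H X) from ψ) X.dim := (toBP h).isPHS

/-- The polarised Hodge structure of a variety. -/
def polS {ψ : RForm T.W X} (h : IsPolarisation T X ψ) : PolS (rb T.W X) (hop T X) where
  B := (LinearMap.BilinForm.baseChange ℂ ψ : LinearMap.BilinForm ℂ (ℂ ⊗[T.W.K] T.W.H X))
  diag := by
    rw [eq_top_iff]
    intro x _
    refine hop_ind (P := fun x => x ∈ Submodule.span ℂ {u : CV T.W X | ∃ m : ℤ,
      hop T X u = (m : ℂ) • u}) ?_ ?_ ?_ x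
    · intro a b x hx
      exact Submodule.subset_span ⟨a - b, hop_pq hx⟩
    · intro a b ha hb
      exact add_mem ha hb
    · exact zero_mem _
  rat τ u v := by
    refine cv_ind (P := fun u => (LinearMap.BilinForm.baseChange ℂ ψ) (sl (rb T.W X) τ u)
      (sl (rb T.W X) τ v) = τ ((LinearMap.BilinForm.baseChange ℂ ψ) u v)) ?_ ?_ ?_ u
    · rw [map_zero, map_zero, LinearMap.zero_apply, LinearMap.zero_apply, map_zero]
    · intro l c
      refine cv_ind (P := fun v => (LinearMap.BilinForm.baseChange ℂ ψ)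
        (sl (rb T.W X) τ (l ⊗ₜ[T.W.K] c)) (sl (rb T.W X) τ v) =
        τ ((LinearMap.BilinForm.baseChange ℂ ψ) (l ⊗ₜ[T.W.K] c) v)) ?_ ?_ ?_ v
      · rw [map_zero, map_zero, map_zero, map_zero]
      · intro l' c'
        rw [sl_tmul T.rat, sl_tmul T.rat, LinearMap.BilinForm.baseChange_tmul,
          LinearMap.BilinForm.baseChange_tmul, Algebra.smul_def, Algebra.smul_def, map_mul,
          map_mul, fixK T.rat]
      · intro a b ha hb
        rw [map_add, map_add, map_add, map_add, ha, hb]
    · intro a b ha hb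
      rw [map_add, map_add, map_add, LinearMap.add_apply, LinearMap.add_apply, map_add, ha, hb]
  skew u v := by
    refine hop_ind (P := fun u => (LinearMap.BilinForm.baseChange ℂ ψ) (hop T X u) v =
      -(LinearMap.BilinForm.baseChange ℂ ψ) u (hop T X v)) ?_ ?_ ?_ u
    · intro p q u hu
      refine hop_ind (P := fun v => (LinearMap.BilinForm.baseChange ℂ ψ) (hop T X u) v =
        -(LinearMap.BilinForm.baseChange ℂ ψ) u (hop T X v)) ?_ ?_ ?_ v
      · intro r s v hv
        rw [hop_pq hu, hop_pq hv, map_smul, map_smul, LinearMap.smul_apply, smul_eq_mul,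
          smul_eq_mul]
        by_cases hrs : r = q ∧ s = p
        · obtain ⟨rfl, rfl⟩ := hrs
          push_cast
          ring
        · have h1 : (LinearMap.BilinForm.baseChange ℂ ψ) u v = 0 :=
            h.orth p q r s u v hu hv (by
              by_contra hcon
              push Not at hcon
              exact hrs hcon)
          rw [h1, mul_zero, mul_zero, neg_zero]
      · intro a b ha hb
        rw [map_add, map_add, map_add, ha, hb, neg_add]
      · rw [map_zero, map_zero, map_zero, neg_zero]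
    · intro a b ha hb
      rw [map_add, map_add, map_add, LinearMap.add_apply, LinearMap.add_apply, ha, hb, neg_add]
    · rw [map_zero, map_zero, LinearMap.zero_apply, LinearMap.zero_apply, neg_zero]
  cj u := by
    refine hop_ind (P := fun u => hop T X (sl (rb T.W X) cc u) =
      -sl (rb T.W X) cc (hop T X u)) ?_ ?_ ?_ u
    · intro p q u hu
      have h1 : IsType T.pq q p (show HL T.W ℂ X from sl (rb T.W X) cc u) := by
        rw [sl_sig]
        exact (isPHS h).cnj p q u hu
      have h2 : cc (((p - q : ℤ) : ℂ)) = ((p - q : ℤ) : ℂ) := map_intCast cc _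
      rw [hop_pq hu, hop_pq h1, sl_smul, h2, ← neg_smul]
      congr 1
      push_cast
      ring
    · intro a b ha hb
      rw [map_add, map_add, ha, hb, map_add, map_add, neg_add]
    · rw [map_zero, map_zero, map_zero, neg_zero]
  pos m u hu hu0 := by
    obtain ⟨ρ, h1, h2, h3⟩ := (isPHS h).exists_pos u
    refine ⟨ρ, h3 hu0, ?_⟩
    rw [← h1, sl_sig]
    have h4 : BP.dG (isPHS h).int (fun k => Complex.I ^ k) u = Complex.I ^ m • u := by
      -- the operator is determined by the eigenvalue
      have hF := (isPHS h).int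
      let N : Module.End ℂ (CV T.W X) := BP.dG hF fun k =>
        if k = m then 0 else ((k : ℂ) - (m : ℂ))⁻¹ * (Complex.I ^ k - Complex.I ^ m)
      have h5 : ∀ v : CV T.W X, N (hop T X v - (m : ℂ) • v) =
          BP.dG hF (fun k => Complex.I ^ k) v - Complex.I ^ m • v := by
        intro v
        refine hop_ind (P := fun v => N (hop T X v - (m : ℂ) • v) =
          BP.dG hF (fun k => Complex.I ^ k) v - Complex.I ^ m • v) ?_ ?_ ?_ v
        · intro p q v hv
          have h6 : N v = (if p - q = m then 0 else (((p - q : ℤ) : ℂ) - (m : ℂ))⁻¹ *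
              (Complex.I ^ (p - q) - Complex.I ^ m)) • v := BP.dG_apply hF _ hv
          have h7 : BP.dG hF (fun k => Complex.I ^ k) v = Complex.I ^ (p - q) • v :=
            BP.dG_apply hF _ hv
          rw [hop_pq hv, ← sub_smul, map_smul, h6, h7, ← sub_smul, smul_smul]
          by_cases hm : p - q = m
          · rw [if_pos hm, mul_zero, hm, sub_self]
          · rw [if_neg hm, ← mul_assoc, mul_inv_cancel₀, one_mul]
            intro h8
            apply hm
            exact_mod_cast sub_eq_zero.1 h8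
        · intro a b ha hb
          have h6 : hop T X (a + b) - (m : ℂ) • (a + b) =
              (hop T X a - (m : ℂ) • a) + (hop T X b - (m : ℂ) • b) := by
            rw [map_add, smul_add]; abel
          rw [h6, map_add, ha, hb, map_add, smul_add]
          abel
        · rw [map_zero, smul_zero, sub_zero, map_zero, map_zero, smul_zero, sub_zero]
      have h6 := h5 u
      rw [hu, sub_self, map_zero] at h6
      exact (sub_eq_zero.1 h6.symm)
    rw [h4, map_smul, LinearMap.smul_apply, smul_eq_mul]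

/-- The span of the Hodge classes. -/
def spH (T : HodgeTheory ops) (X : 𝒱.Obj) : Submodule T.W.K (T.W.H X) :=
  Submodule.span T.W.K {c : T.W.H X | ∃ j : ℕ, IsHodge T X j c}

theorem spH_of {c : T.W.H X} (h : c ∈ (hodgePred (toH T)).sp X) : c ∈ spH T X := by
  refine Pool.Agent.Y133.Half.ClassPred.sp_ind (Q := hodgePred (toH T))
    (q := fun c : T.W.H X => c ∈ spH T X) ?_ ?_ ?_ h
  · intro j x hx
    exact Submodule.subset_span ⟨j, hx⟩
  · exact zero_mem _
  · intro a b ha hb
    exact add_mem ha hb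

theorem of_spH {c : T.W.H X} (h : c ∈ spH T X) : c ∈ (hodgePred (toH T)).sp X := by
  have h1 : spH T X ≤ (show Submodule T.W.K (T.W.H X) from (hodgePred (toH T)).sp X) := by
    refine Submodule.span_le.2 ?_
    rintro c ⟨j, hc⟩
    exact Pool.Agent.Y133.Half.ClassPred.sp_of (Q := hodgePred (toH T)) (j := j) hc
  exact h1 h

/-! ### The invariants -/

variable (T X) in
/-- The invariants of the Lie algebra. -/
def inv : Submodule ℂ (CV T.W X) where
  carrier := {x | ∀ D ∈ LT T, D X x = 0}
  zero_mem' := fun D _ => map_zero _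
  add_mem' := fun ha hb D hD => by rw [map_add, ha D hD, hb D hD, add_zero]
  smul_mem' := fun c x hx D hD => by rw [map_smul, hx D hD, smul_zero]

theorem mem_inv {x : CV T.W X} : x ∈ inv T X ↔ ∀ D ∈ LT T, D X x = 0 := Iff.rfl

theorem inv_sl {x : CV T.W X} (hx : x ∈ inv T X) (τ : ℂ ≃+* ℂ) :
    sl (rb T.W X) τ x ∈ inv T X := by
  intro D hD
  have h1 := hx _ (cjg_mem _ _ τ⁻¹ hD)
  have h2 : sl (rb T.W X) τ⁻¹ (D X (sl (rb T.W X) τ x)) = 0 := h1
  refine sl_inj (rb T.W X) τ⁻¹ ?_
  rw [h2, map_zero]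

/-- Rational classes killed by the Hodge operator. -/
theorem sp_of_hop {c : T.W.H X} (h : hop T X ((1 : ℂ) ⊗ₜ[T.W.K] c) = 0) :
    c ∈ spH T X := by
  refine spH_of ((BP.Geo.inv_iff (T := toH T)).1 ?_)
  intro t ht
  let N : Module.End (AH.CW (toH T)).K ((AH.CW (toH T)).H X) :=
    AH.dia (AH.isInternal (toH T) X) fun r => if r.1 - r.2 = 0 then 0 else
      ((((r.1 - r.2 : ℤ) : ℂ)⁻¹ * (t ^ (r.1 - r.2) - 1) : ℂ) : (AH.CW (toH T)).K)
  have hN : ∀ {p q : ℤ} {x : CV T.W X}, IsType T.pq p q (show HL T.W ℂ X from x) →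
      (show CV T.W X from N x) = (if p - q = 0 then 0 else
      ((((p - q : ℤ) : ℂ)⁻¹ * (t ^ (p - q) - 1) : ℂ))) • x := by
    intro p q x hx
    exact AH.dia_apply (AH.isInternal (toH T) X) _ (i := (p, q)) hx
  have hl : ∀ {p q : ℤ} {x : CV T.W X}, IsType T.pq p q (show HL T.W ℂ X from x) →
      (show CV T.W X from BP.Geo.lop (toH T) t X x) = t ^ (p - q) • x := by
    intro p q x hx
    exact BP.Geo.lop_pq hx
  have h5 : ∀ v : CV T.W X, (show CV T.W X from N (hop T X v)) =
      (show CV T.W X from BP.Geo.lop (toH T) t X v) - v := by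
    intro v
    refine hop_ind (P := fun v => (show CV T.W X from N (hop T X v)) =
      (show CV T.W X from BP.Geo.lop (toH T) t X v) - v) ?_ ?_ ?_ v
    · intro p q v hv
      have hv' : IsType T.pq p q (show HL T.W ℂ X from (((p - q : ℤ) : ℂ) • v : CV T.W X)) :=
        Submodule.smul_mem (T.pq X p q) (((p - q : ℤ) : ℂ)) hv
      rw [hop_pq hv, hN hv', hl hv, smul_smul]
      conv_rhs => rhs; rw [← one_smul ℂ v]
      rw [← sub_smul]
      congr 1
      by_cases hm : p - q = 0
      · rw [if_pos hm, hm, zpow_zero, zero_mul, sub_self]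
      · rw [if_neg hm, mul_comm, ← mul_assoc, mul_inv_cancel₀, one_mul]
        exact_mod_cast hm
    · intro a b ha hb
      have h6 : (show CV T.W X from N (hop T X (a + b))) =
          (show CV T.W X from N (hop T X a)) + (show CV T.W X from N (hop T X b)) := by
        rw [map_add]
        exact map_add N (hop T X a) (hop T X b)
      have h7 : (show CV T.W X from BP.Geo.lop (toH T) t X (a + b)) =
          (show CV T.W X from BP.Geo.lop (toH T) t X a) +
          (show CV T.W X from BP.Geo.lop (toH T) t X b) :=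
        map_add (BP.Geo.lop (toH T) t X) a b
      rw [h6, h7, ha, hb]
      abel
    · have h6 : (show CV T.W X from N (hop T X 0)) = 0 := by
        rw [map_zero]
        exact map_zero N
      have h7 : (show CV T.W X from BP.Geo.lop (toH T) t X (0 : CV T.W X)) = 0 :=
        map_zero (BP.Geo.lop (toH T) t X)
      rw [h6, h7, sub_zero]
  have h6 := h5 ((1 : ℂ) ⊗ₜ[T.W.K] c)
  rw [h] at h6
  have h7 : (show CV T.W X from N (0 : CV T.W X)) = 0 := map_zero N
  rw [h7] at h6
  exact sub_eq_zero.1 h6.symm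

/-- Rational vectors -/
theorem exists_rat {x : CV T.W X} (h : InF (rb T.W X) (algebraMap T.W.K ℂ).fieldRange x) :
    ∃ c : T.W.H X, x = (1 : ℂ) ⊗ₜ[T.W.K] c := by
  choose r hr using h
  refine ⟨∑ i, r i • Module.finBasis T.W.K (T.W.H X) i, ?_⟩
  rw [TensorProduct.tmul_sum]
  conv_lhs => rw [← (rb T.W X).sum_repr x]
  refine Finset.sum_congr rfl fun i _ => ?_
  rw [← hr i, rb_apply, TensorProduct.smul_tmul', smul_eq_mul, mul_one, TensorProduct.tmul_smul,
    TensorProduct.smul_tmul', Algebra.smul_def, mul_one]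

/-- **The invariants are combinations of Hodge classes.** -/
theorem inv_le : inv T X ≤ (spH T X).baseChange ℂ := by
  have h1 := Pool.Agent.N179.DB.desc (rb T.W X) (algebraMap T.W.K ℂ).fieldRange (inv T X)
    fun τ _ x hx => inv_sl hx τ
  refine h1.trans (Submodule.span_le.2 ?_)
  rintro x ⟨hx, hr⟩
  obtain ⟨c, rfl⟩ := exists_rat hr
  exact Submodule.tmul_mem_baseChange_of_mem (1 : ℂ) (sp_of_hop (hx _ H_mem))

theorem hodge_inv {j : ℕ} {c : T.W.H X} (hc : IsHodge T X j c) :
    (1 : ℂ) ⊗ₜ[T.W.K] c ∈ inv T X := by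
  intro D hD
  have h0 : hop T X ((1 : ℂ) ⊗ₜ[T.W.K] c) = 0 := by
    have h1 : IsType T.pq j j (show HL T.W ℂ X from ((1 : ℂ) ⊗ₜ[T.W.K] c : CV T.W X)) := hc.2
    rw [hop_pq h1, sub_self, Int.cast_zero, zero_smul]
  refine LL_ind (P := fun D => D X ((1 : ℂ) ⊗ₜ[T.W.K] c) = 0) ?_ ?_ ?_ ?_ ?_ hD
  · intro σ
    change sl (rb T.W X) σ (hop T X (sl (rb T.W X) σ.symm ((1 : ℂ) ⊗ₜ[T.W.K] c))) = 0
    rw [sl_tmul T.rat, map_one, h0, map_zero]
  · rfl
  · intro D E _ _ hD hE
    change D X _ + E X _ = 0
    rw [hD, hE, add_zero]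
  · intro a D _ hD
    change a • D X _ = 0
    rw [hD, smul_zero]
  · intro D E _ _ hD hE
    change D X (E X _) - E X (D X _) = 0
    rw [hD, hE, map_zero, map_zero, sub_zero]

theorem sp_inv {c : T.W.H X} (hc : c ∈ spH T X) : (1 : ℂ) ⊗ₜ[T.W.K] c ∈ inv T X := by
  induction hc using Submodule.span_induction with
  | mem c hc =>
    obtain ⟨j, hc⟩ := hc
    exact hodge_inv hc
  | zero =>
    rw [TensorProduct.tmul_zero]
    exact zero_mem _
  | add a b _ _ ha hb =>
    rw [TensorProduct.tmul_add]
    exact add_mem ha hb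
  | smul r a _ ha =>
    rw [TensorProduct.tmul_smul]
    have h1 : r • ((1 : ℂ) ⊗ₜ[T.W.K] a) = algebraMap T.W.K ℂ r • ((1 : ℂ) ⊗ₜ[T.W.K] a) :=
      (algebraMap_smul ℂ r _).symm
    rw [h1]
    exact Submodule.smul_mem _ _ ha

theorem base_le_inv : (spH T X).baseChange ℂ ≤ inv T X := by
  rw [Submodule.baseChange_eq_span]
  refine Submodule.span_le.2 ?_
  rintro _ ⟨c, hc, rfl⟩
  exact sp_inv hc

theorem finrank_base (p : Submodule T.W.K (T.W.H X)) :
    finrank ℂ (p.baseChange ℂ) = finrank T.W.K p := by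
  rw [← (Submodule.toBaseChange.toLinearEquiv ℂ p).finrank_eq, Module.finrank_baseChange]

theorem transBetti_eq : transBetti T X + finrank T.W.K (spH T X) =
    finrank T.W.K (T.W.H X) := by
  rw [transBetti, codimSpan]
  exact Submodule.finrank_quotient_add_finrank _

end

end Pool.Agent.L5helper28.IF
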