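import Pool.Agent.L5helper28.IF.Star

/-!
# Commuting self-adjoint operators which are skew for a form
-/

set_option autoImplicit false
set_option linter.unusedSectionVars false

open Module ComplexConjugate

namespace Pool.Agent.L5helper28.IF

noncomputable section

variable {V : Type*} [AddCommGroup V] [Module ℂ V]

/-- the joint eigenspaces -/
def JE {κ : Type} (T : κ → End ℂ V) (χ : κ → ℂ) : Submodule ℂ V := ⨅ i, (T i).eigenspace (χ i)

theorem mem_JE {κ : Type} {T : κ → End ℂ V} {χ : κ → ℂ} {v : V} :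
    v ∈ JE T χ ↔ ∀ i, T i v = χ i • v := by
  rw [JE, Submodule.mem_iInf]
  exact forall_congr' fun i => End.mem_eigenspace_iff

theorem JE_indep {κ : Type} (T : κ → End ℂ V) (hc : ∀ i j, T i * T j = T j * T i) :
    iSupIndep (JE T) := by
  have h1 := End.independent_iInf_maxGenEigenspace_of_forall_mapsTo (f := T) fun i j φ =>
    End.mapsTo_maxGenEigenspace_of_comm (hc j i) φ
  exact h1.mono fun χ => iInf_mono fun i => End.eigenspace_le_maxGenEigenspace

theorem JE_ind {κ : Type} {T : κ → End ℂ V} (htop : ⨆ χ, JE T χ = ⊤) {P : V → Prop}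
    (h : ∀ χ, ∀ v ∈ JE T χ, P v) (h0 : P 0) (ha : ∀ u v, P u → P v → P (u + v)) (v : V) : P v := by
  have hv : v ∈ ⨆ χ, JE T χ := by rw [htop]; trivial
  exact Submodule.iSup_induction _ (motive := P) hv h h0 ha

variable [FiniteDimensional ℂ V]

theorem span_weights {κ : Type} [Fintype κ] {T : κ → End ℂ V} (htop : ⨆ χ, JE T χ = ⊤)
    (hli : LinearIndependent ℂ T) : Submodule.span ℂ {χ | JE T χ ≠ ⊥} = ⊤ := by
  classical
  by_contra hne
  obtain ⟨φ, hφ, h1⟩ := Submodule.exists_le_ker_of_lt_top _ (lt_top_iff_ne_top.2 hne)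
  have h2 : ∀ χ, φ χ = ∑ i, φ (Pi.single i 1) * χ i := by
    intro χ
    conv_lhs => rw [← Finset.univ_sum_single χ]
    rw [map_sum]
    refine Finset.sum_congr rfl fun i _ => ?_
    rw [mul_comm, ← smul_eq_mul, ← map_smul]
    congr 1
    rw [← Pi.single_smul, smul_eq_mul, mul_one]
  have h3 : ∑ i, φ (Pi.single i 1) • T i = 0 := by
    refine LinearMap.ext fun v => ?_
    refine JE_ind (P := fun v => (∑ i, φ (Pi.single i 1) • T i) v = (0 : End ℂ V) v) htop ?_ ?_ ?_ v
    · intro χ v hv
      by_cases hb : JE T χ = ⊥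
      · rw [hb, Submodule.mem_bot] at hv
        rw [hv, map_zero, map_zero]
      · have h4 := h1 (Submodule.subset_span (show χ ∈ {χ | JE T χ ≠ ⊥} from hb))
        rw [LinearMap.mem_ker, h2] at h4
        rw [LinearMap.sum_apply]
        have h5 : ∀ i ∈ Finset.univ, (φ (Pi.single i 1) • T i) v =
            (φ (Pi.single i 1) * χ i) • v := by
          intro i _
          rw [LinearMap.smul_apply, mem_JE.1 hv i, smul_smul]
        rw [Finset.sum_congr rfl h5, ← Finset.sum_smul, h4, zero_smul]
        rfl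
    · rw [map_zero, map_zero]
    · intro u v hu hv
      rw [map_add, map_add, hu, hv]
  have h4 := Fintype.linearIndependent_iff.1 hli _ h3
  apply hφ
  refine LinearMap.ext fun χ => ?_
  rw [h2, LinearMap.zero_apply]
  exact Finset.sum_eq_zero fun i _ => by rw [h4 i, zero_mul]

theorem neg_weight {κ : Type} {T : κ → End ℂ V} (htop : ⨆ χ, JE T χ = ⊤)
    {B : V →ₗ[ℂ] V →ₗ[ℂ] ℂ} (hB : ∀ v, (∀ u, B v u = 0) → v = 0)
    (hsk : ∀ i u v, B (T i u) v = -B u (T i v)) {χ : κ → ℂ} (h : JE T χ ≠ ⊥) :
    JE T (-χ) ≠ ⊥ := by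
  intro hb
  apply h
  rw [eq_bot_iff]
  intro v hv
  rw [Submodule.mem_bot]
  refine hB v fun u => ?_
  refine JE_ind (P := fun u => B v u = 0) htop ?_ ?_ ?_ u
  · intro χ' u hu
    by_cases hχ : χ' = -χ
    · subst hχ
      rw [hb, Submodule.mem_bot] at hu
      rw [hu, map_zero]
    · obtain ⟨i, hi⟩ := Function.ne_iff.1 hχ
      have h1 := hsk i v u
      rw [mem_JE.1 hv i, mem_JE.1 hu i, map_smul, map_smul, LinearMap.smul_apply, smul_eq_mul,
        smul_eq_mul] at h1
      have h2 : (χ i + χ' i) * B v u = 0 := by rw [add_mul, h1]; ring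
      rcases mul_eq_zero.1 h2 with h3 | h3
      · exact absurd (by rw [Pi.neg_apply]; linear_combination h3) hi
      · exact h3
  · rw [map_zero]
  · intro u u' h1 h2
    rw [map_add, h1, h2, add_zero]

/-- **The rank lemma.** -/
theorem rank_lemma (S : StD V) {B : V →ₗ[ℂ] V →ₗ[ℂ] ℂ} (hB : ∀ v, (∀ u, B v u = 0) → v = 0)
    {κ : Type} [Fintype κ] {T : κ → End ℂ V} (hT : ∀ i, S.st (T i) = T i)
    (hc : ∀ i j, T i * T j = T j * T i) (hli : LinearIndependent ℂ T)
    (hsk : ∀ i u v, B (T i u) v = -B u (T i v)) {V0 : Submodule ℂ V}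
    (h0 : ∀ i, ∀ v ∈ V0, T i v = 0) :
    2 * Fintype.card κ + finrank ℂ V0 ≤ finrank ℂ V := by
  classical
  have htop : ⨆ χ, JE T χ = ⊤ := S.joint T hT hc
  have hind := JE_indep T hc
  obtain ⟨n, f, hf, hfli, hn⟩ : ∃ (n : ℕ) (f : Fin n → κ → ℂ), (∀ i, JE T (f i) ≠ ⊥) ∧
      LinearIndependent ℂ f ∧ n = Fintype.card κ := by
    obtain ⟨f, hf, -, hfli⟩ := Submodule.exists_fun_fin_finrank_span_eq ℂ {χ : κ → ℂ | JE T χ ≠ ⊥}
    exact ⟨_, f, hf, hfli, by
      rw [span_weights htop hli, finrank_top, Module.finrank_fintype_fun_eq_card]⟩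
  -- the weights
  let g : Option (Fin n × Bool) → (κ → ℂ) := fun o => match o with
    | none => 0
    | some (i, true) => f i
    | some (i, false) => -f i
  have hne0 : ∀ i, f i ≠ 0 := fun i => hfli.ne_zero i
  have hfinj : Function.Injective f := hfli.injective
  have hsum : ∀ i j, f i ≠ -f j := by
    intro i j h
    by_cases hij : i = j
    · subst hij
      have h1 : (2 : ℂ) • f i = 0 := by
        rw [two_smul]
        conv_lhs => lhs; rw [h]
        rw [neg_add_cancel]
      exact hne0 i ((smul_eq_zero.1 h1).resolve_left two_ne_zero)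
    · have h1 := Fintype.linearIndependent_iff.1 hfli (Pi.single i 1 + Pi.single j 1) (by
        simp_rw [Pi.add_apply, add_smul]
        rw [Finset.sum_add_distrib, Finset.sum_eq_single i, Finset.sum_eq_single j,
          Pi.single_eq_same, Pi.single_eq_same, one_smul, one_smul, h, neg_add_cancel]
        · intro b _ hb; rw [Pi.single_eq_of_ne hb, zero_smul]
        · intro hb; exact absurd (Finset.mem_univ _) hb
        · intro b _ hb; rw [Pi.single_eq_of_ne hb, zero_smul]
        · intro hb; exact absurd (Finset.mem_univ _) hb) i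
      rw [Pi.add_apply, Pi.single_eq_same, Pi.single_eq_of_ne hij, add_zero] at h1
      exact one_ne_zero h1
  have hg : Function.Injective g := by
    rintro (_ | ⟨i, _ | _⟩) (_ | ⟨j, _ | _⟩) h
    · rfl
    · exact absurd (neg_eq_zero.1 h.symm) (hne0 j)
    · exact absurd h.symm (hne0 j)
    · exact absurd (neg_eq_zero.1 h) (hne0 i)
    · rw [hfinj (neg_injective h)]
    · exact absurd h.symm (hsum j i)
    · exact absurd h (hne0 i)
    · exact absurd h (hsum i j)
    · rw [hfinj h]
  have hind' : iSupIndep (JE T ∘ g) := hind.comp hg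
  have hne : ∀ o : Fin n × Bool, JE T (g (some o)) ≠ ⊥ := by
    rintro ⟨i, _ | _⟩
    · exact neg_weight htop hB hsk (hf i)
    · exact hf i
  choose v hv hv0 using fun o => Submodule.exists_mem_ne_zero_of_ne_bot (hne o)
  have hs : iSupIndep fun o : Fin n × Bool => JE T (g (some o)) :=
    hind'.comp (Option.some_injective _)
  have hvli : LinearIndependent ℂ v := hs.linearIndependent _ hv hv0
  have h1 : finrank ℂ (Submodule.span ℂ (Set.range v)) = 2 * n := by
    rw [finrank_span_eq_card hvli, Fintype.card_prod, Fintype.card_fin, Fintype.card_bool,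
      mul_comm]
  have h2 : Disjoint V0 (Submodule.span ℂ (Set.range v)) := by
    refine (hind' none).mono ?_ ?_
    · intro w hw
      refine mem_JE.2 fun i => ?_
      rw [h0 i w hw]
      exact (zero_smul ℂ w).symm
    · refine Submodule.span_le.2 ?_
      rintro _ ⟨o, rfl⟩
      refine Submodule.mem_iSup_of_mem (some o) ?_
      refine Submodule.mem_iSup_of_mem (Option.some_ne_none o) ?_
      exact hv o
  have h3 := Submodule.finrank_add_finrank_le_of_disjoint h2
  omega

end

end Pool.Agent.L5helper28.IF
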