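import Mathlib

/-!
# The adjoint of an operator: the properties that are used
-/

set_option autoImplicit false
set_option linter.unusedSectionVars false
set_option linter.style.haveILetI false
set_option warn.classDefReducibility false

open Module ComplexConjugate

namespace Pool.Agent.L5helper28.IF

noncomputable section

/-- the trace -/
def tr {V : Type*} [AddCommGroup V] [Module ℂ V] : End ℂ V →ₗ[ℂ] ℂ := LinearMap.trace ℂ V

theorem tr_comm {V : Type*} [AddCommGroup V] [Module ℂ V] (x y : End ℂ V) :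
    tr (x * y) = tr (y * x) := LinearMap.trace_mul_comm ℂ x y

theorem tr_br {V : Type*} [AddCommGroup V] [Module ℂ V] (x y z : End ℂ V) :
    tr (x * (y * z - z * y)) = tr ((x * y - y * x) * z) := by
  rw [mul_sub, sub_mul, map_sub, map_sub, ← mul_assoc, ← mul_assoc, tr_comm (x * z) y, mul_assoc y]

/-- an adjoint operation on the operators -/
structure StD (V : Type*) [AddCommGroup V] [Module ℂ V] where
  st : End ℂ V → End ℂ V
  add : ∀ x y, st (x + y) = st x + st y
  smul : ∀ (c : ℂ) x, st (c • x) = conj c • st x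
  mul : ∀ x y, st (x * y) = st y * st x
  st_st : ∀ x, st (st x) = x
  riesz : ∀ (A : Submodule ℂ (End ℂ V)) (μ : End ℂ V →ₗ[ℂ] ℂ), ∃ g ∈ A, ∀ x ∈ A,
    μ x = tr (st g * x)
  pos : ∀ x, tr (st x * x) = 0 → x = 0
  conj_tr : ∀ x, tr (st x) = conj (tr x)
  joint : ∀ {κ : Type} (T : κ → End ℂ V), (∀ i, st (T i) = T i) →
    (∀ i j, T i * T j = T j * T i) →
    ⨆ χ : κ → ℂ, ⨅ i, (T i).eigenspace (χ i) = ⊤

section inner

variable (V : Type*) [NormedAddCommGroup V] [InnerProductSpace ℂ V] [FiniteDimensional ℂ V]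

theorem trace_adj_mul (x y : End ℂ V) :
    tr (LinearMap.adjoint x * y) =
      ∑ i, inner ℂ (x (stdOrthonormalBasis ℂ V i)) (y (stdOrthonormalBasis ℂ V i)) := by
  refine (LinearMap.trace_eq_sum_inner _ (stdOrthonormalBasis ℂ V)).trans ?_
  refine Finset.sum_congr rfl fun i _ => ?_
  rw [End.mul_apply, LinearMap.adjoint_inner_right]

theorem trace_adj (x : End ℂ V) : tr (LinearMap.adjoint x) = conj (tr x) := by
  refine (LinearMap.trace_eq_sum_inner _ (stdOrthonormalBasis ℂ V)).trans ?_
  refine Eq.trans ?_ (congrArg _ (LinearMap.trace_eq_sum_inner x (stdOrthonormalBasis ℂ V))).symm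
  rw [map_sum]
  refine Finset.sum_congr rfl fun i _ => ?_
  rw [LinearMap.adjoint_inner_right, inner_conj_symm]

theorem adj_mul (x y : End ℂ V) : LinearMap.adjoint (x * y) =
    LinearMap.adjoint y * LinearMap.adjoint x := LinearMap.adjoint_comp x y

/-- the inner product of operators -/
def opCore : InnerProductSpace.Core ℂ (End ℂ V) where
  inner x y := tr (LinearMap.adjoint x * y)
  conj_inner_symm x y := by
    rw [← trace_adj, adj_mul, LinearMap.adjoint_adjoint]
  re_inner_nonneg x := by
    rw [trace_adj_mul, map_sum]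
    exact Finset.sum_nonneg fun i _ => inner_self_nonneg
  add_left x y z := by
    rw [map_add, add_mul, map_add]
  smul_left x y r := by
    rw [map_smulₛₗ, smul_mul_assoc, map_smul, smul_eq_mul]
  definite x h := by
    rw [trace_adj_mul] at h
    have h1 : ∀ i, x (stdOrthonormalBasis ℂ V i) = 0 := by
      intro i
      have h2 : ∑ i, RCLike.re (inner ℂ (x (stdOrthonormalBasis ℂ V i))
          (x (stdOrthonormalBasis ℂ V i))) = 0 := by
        rw [← map_sum, h, map_zero]
      have h3 := (Finset.sum_eq_zero_iff_of_nonneg (fun i _ => inner_self_nonneg)).1 h2 i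
        (Finset.mem_univ i)
      have h4 : ‖x (stdOrthonormalBasis ℂ V i)‖ ^ 2 = 0 := by
        rw [← h3, inner_self_eq_norm_sq]
      exact norm_eq_zero.1 (pow_eq_zero_iff two_ne_zero |>.1 h4)
    exact (stdOrthonormalBasis ℂ V).toBasis.ext fun i => by
      rw [OrthonormalBasis.coe_toBasis, h1]
      rfl

theorem riesz_aux {E : Type*} [NormedAddCommGroup E] [InnerProductSpace ℂ E]
    [FiniteDimensional ℂ E] (A : Submodule ℂ E) (μ : E →ₗ[ℂ] ℂ) :
    ∃ g ∈ A, ∀ x ∈ A, μ x = inner ℂ g x := by
  haveI : CompleteSpace A := FiniteDimensional.complete ℂ A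
  let ν : StrongDual ℂ A := LinearMap.toContinuousLinearMap (μ ∘ₗ A.subtype)
  refine ⟨(InnerProductSpace.toDual ℂ A).symm ν, Subtype.coe_prop _, fun x hx => ?_⟩
  have h1 : inner ℂ ((InnerProductSpace.toDual ℂ A).symm ν) (⟨x, hx⟩ : A) = ν ⟨x, hx⟩ :=
    InnerProductSpace.toDual_symm_apply
  rw [Submodule.coe_inner] at h1
  exact h1.symm

theorem riesz (A : Submodule ℂ (End ℂ V)) (μ : End ℂ V →ₗ[ℂ] ℂ) :
    ∃ g ∈ A, ∀ x ∈ A, μ x = tr (LinearMap.adjoint g * x) := by
  letI c := opCore V
  letI : NormedAddCommGroup (End ℂ V) := c.toNormedAddCommGroup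
  letI : InnerProductSpace ℂ (End ℂ V) := InnerProductSpace.ofCore c.toCore
  exact riesz_aux A μ

theorem isSymm {x : End ℂ V} (h : LinearMap.adjoint x = x) : x.IsSymmetric := by
  intro u v
  rw [← LinearMap.adjoint_inner_right, h]

/-- the adjoint -/
def stdOf : StD V where
  st x := LinearMap.adjoint x
  add x y := map_add _ x y
  smul c x := LinearMap.map_smulₛₗ _ c x
  mul x y := adj_mul V x y
  st_st x := LinearMap.adjoint_adjoint x
  riesz A μ := riesz V A μ
  pos x h := (opCore V).definite x h
  conj_tr x := trace_adj V x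
  joint T hT hc := by
    refine LinearMap.IsSymmetric.iSup_iInf_eq_top_of_commute (fun i => isSymm V (hT i)) ?_
    intro i j _
    exact hc i j

end inner

/-- the adjoint operation of an inner product -/
theorem exists_std (V : Type*) [AddCommGroup V] [Module ℂ V] [FiniteDimensional ℂ V]
    (c : InnerProductSpace.Core ℂ V) :
    ∃ S : StD V, ∀ x u v, c.inner (S.st x u) v = c.inner u (x v) := by
  letI : NormedAddCommGroup V := c.toNormedAddCommGroup
  letI : InnerProductSpace ℂ V := InnerProductSpace.ofCore c.toCore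
  exact ⟨stdOf V, fun x u v => LinearMap.adjoint_inner_left x v u⟩

end

end Pool.Agent.L5helper28.IF
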