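import Pool.Agent.L5helper28.IF.Lie
import Pool.Agent.L5helper28.IF.Rank

/-!
# Commuting self-adjoint operators given by essential indices
-/

set_option autoImplicit false
set_option linter.unusedSectionVars false

open Module ComplexConjugate

namespace Pool.Agent.L5helper28.IF

noncomputable section

section std

variable {V : Type*} [AddCommGroup V] [Module ℂ V] (s : StD V)

namespace StD

theorem neg (x : End ℂ V) : s.st (-x) = -s.st x := by
  have h := s.smul (-1) x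
  rw [map_neg, map_one, neg_smul, one_smul, neg_smul, one_smul] at h
  exact h

theorem sub (x y : End ℂ V) : s.st (x - y) = s.st x - s.st y := by
  rw [sub_eq_add_neg, s.add, s.neg, ← sub_eq_add_neg]

theorem zero : s.st 0 = 0 := by
  have h := s.smul 0 0
  rw [map_zero, zero_smul, zero_smul] at h
  exact h

theorem br (x y : End ℂ V) : s.st (x * y - y * x) = s.st y * s.st x - s.st x * s.st y := by
  rw [s.sub, s.mul, s.mul]

theorem conj_ip (x y : End ℂ V) : conj (tr (s.st x * y)) = tr (s.st y * x) := by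
  rw [← s.conj_tr, s.mul, s.st_st]

theorem proj (A : Submodule ℂ (End ℂ V)) (w : End ℂ V) :
    ∃ a ∈ A, ∀ a' ∈ A, tr (s.st a' * (w - a)) = 0 := by
  obtain ⟨g, hg, h1⟩ := s.riesz A (tr ∘ₗ LinearMap.mulLeft ℂ (s.st w))
  refine ⟨g, hg, fun a' ha' => ?_⟩
  have h2 : tr (s.st w * a') = tr (s.st g * a') := h1 a' ha'
  rw [mul_sub, map_sub, ← s.conj_ip w, ← s.conj_ip g, h2, sub_self]

theorem exists_sa {A : Submodule ℂ (End ℂ V)} (hA : ∀ a ∈ A, s.st a ∈ A) (h : A ≠ ⊥) :
    ∃ T ∈ A, s.st T = T ∧ T ≠ 0 := by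
  obtain ⟨w, hw, hw0⟩ := Submodule.exists_mem_ne_zero_of_ne_bot h
  by_cases h1 : w + s.st w = 0
  · refine ⟨Complex.I • (w - s.st w), A.smul_mem _ (A.sub_mem hw (hA w hw)), ?_, ?_⟩
    · rw [s.smul, s.sub, s.st_st, Complex.conj_I, neg_smul, ← smul_neg, neg_sub]
    · intro h2
      have h3 : w - s.st w = 0 := (smul_eq_zero.1 h2).resolve_left Complex.I_ne_zero
      have h4 : (2 : ℂ) • w = 0 := by
        rw [two_smul]
        calc w + w = (w + s.st w) + (w - s.st w) := by abel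
          _ = 0 := by rw [h1, h3, add_zero]
      exact hw0 ((smul_eq_zero.1 h4).resolve_left two_ne_zero)
  · exact ⟨w + s.st w, A.add_mem hw (hA w hw), by rw [s.add, s.st_st, add_comm], h1⟩

theorem exists_sa_basis [FiniteDimensional ℂ V] {A : Submodule ℂ (End ℂ V)}
    (hA : ∀ a ∈ A, s.st a ∈ A) : ∃ (n : ℕ) (f : Fin n → End ℂ V), n = finrank ℂ A ∧
      (∀ i, f i ∈ A ∧ s.st (f i) = f i) ∧ LinearIndependent ℂ f ∧
      Submodule.span ℂ (Set.range f) = A := by
  have h1 : Submodule.span ℂ {a | a ∈ A ∧ s.st a = a} = A := by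
    apply le_antisymm
    · exact Submodule.span_le.2 fun a ha => ha.1
    · intro w hw
      have h2 : w = (2 : ℂ)⁻¹ • (w + s.st w) + (-(2 : ℂ)⁻¹ * Complex.I) •
          (Complex.I • (w - s.st w)) := by
        rw [smul_smul, mul_assoc, Complex.I_mul_I, neg_mul_neg, mul_one, ← smul_add]
        have h3 : w + s.st w + (w - s.st w) = (2 : ℂ) • w := by rw [two_smul]; abel
        rw [h3, smul_smul, inv_mul_cancel₀ two_ne_zero, one_smul]
      rw [h2]
      refine Submodule.add_mem _ (Submodule.smul_mem _ _ (Submodule.subset_span ⟨?_, ?_⟩))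
        (Submodule.smul_mem _ _ (Submodule.subset_span ⟨?_, ?_⟩))
      · exact A.add_mem hw (hA w hw)
      · rw [s.add, s.st_st, add_comm]
      · exact A.smul_mem _ (A.sub_mem hw (hA w hw))
      · rw [s.smul, s.sub, s.st_st, Complex.conj_I, neg_smul, ← smul_neg, neg_sub]
  obtain ⟨f, hf, hs, hli⟩ := Submodule.exists_fun_fin_finrank_span_eq ℂ {a | a ∈ A ∧ s.st a = a}
  exact ⟨_, f, by rw [h1], hf, hli, by rw [hs, h1]⟩

end StD

end std

variable {J : Type*} {V : J → Type} [∀ j, AddCommGroup (V j)] [∀ j, Module ℂ (V j)]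
  {ι : Type*} {L : Submodule ℂ (Ops V)} {x : ι → J} {z : J} {F G : Set ι}

/-- the orthogonal complement of `KF S` in `KF (S \ {i})` -/
def qq (L : Submodule ℂ (Ops V)) (x : ι → J) {z : J} (s : StD (V z)) (S : Set ι) (i : ι) :
    Submodule ℂ (End ℂ (V z)) where
  carrier := {w | w ∈ KF L x z (S \ {i}) ∧ ∀ k ∈ KF L x z S, tr (s.st k * w) = 0}
  zero_mem' := ⟨zero_mem _, fun k _ => by rw [mul_zero, map_zero]⟩
  add_mem' := fun ⟨h1, h2⟩ ⟨h3, h4⟩ => ⟨add_mem h1 h3, fun k hk => by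
    rw [mul_add, map_add, h2 k hk, h4 k hk, add_zero]⟩
  smul_mem' := fun c _ ⟨h1, h2⟩ => ⟨Submodule.smul_mem _ c h1, fun k hk => by
    rw [mul_smul_comm, map_smul, h2 k hk, smul_zero]⟩

/-- the centre of the orthogonal complement of `KF S` -/
def zz (L : Submodule ℂ (Ops V)) (x : ι → J) (z : J) (S : Set ι) :
    Submodule ℂ (End ℂ (V z)) where
  carrier := {y | y ∈ KF L x z ∅ ∧ (∀ g ∈ KF L x z ∅, g * y = y * g) ∧
    ∀ k ∈ KF L x z S, tr (y * k) = 0}
  zero_mem' := ⟨zero_mem _, fun g _ => by rw [mul_zero, zero_mul], fun k _ => by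
    rw [zero_mul, map_zero]⟩
  add_mem' := fun ⟨h1, h2, h3⟩ ⟨h4, h5, h6⟩ => ⟨add_mem h1 h4, fun g hg => by
    rw [mul_add, add_mul, h2 g hg, h5 g hg], fun k hk => by
    rw [add_mul, map_add, h3 k hk, h6 k hk, add_zero]⟩
  smul_mem' := fun c _ ⟨h1, h2, h3⟩ => ⟨Submodule.smul_mem _ c h1, fun g hg => by
    rw [mul_smul_comm, smul_mul_assoc, h2 g hg], fun k hk => by
    rw [smul_mul_assoc, map_smul, h3 k hk, smul_zero]⟩

/-- the Lie algebra is closed under the adjoint -/
def StC (L : Submodule ℂ (Ops V)) (x : ι → J) {z : J} (s : StD (V z)) (S : Set ι) : Prop :=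
  ∀ D ∈ L, ∃ D' ∈ L, D' z = s.st (D z) ∧ ∀ i ∈ S, D (x i) = 0 → D' (x i) = 0

variable {s : StD (V z)} {S : Set ι}

theorem KF_st (hst : StC L x s S) (hF : F ⊆ S) {w : End ℂ (V z)} (hw : w ∈ KF L x z F) :
    s.st w ∈ KF L x z F := by
  obtain ⟨D, hD, rfl⟩ := hw
  obtain ⟨D', h1, h2, h3⟩ := hst D hD.1
  exact ⟨D', ⟨h1, fun i hi => h3 i (hF hi) (hD.2 i hi)⟩, h2⟩

section

variable (hL : ∀ D ∈ L, ∀ E ∈ L, D * E - E * D ∈ L) (hst : StC L x s S)

include hL hst

theorem qq_br {i : ι} {g w : End ℂ (V z)} (hg : g ∈ KF L x z ∅) (hw : w ∈ qq L x s S i) :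
    g * w - w * g ∈ qq L x s S i := by
  refine ⟨KF_br hL hg hw.1, fun k hk => ?_⟩
  have h1 : s.st g * k - k * s.st g ∈ KF L x z S :=
    KF_br hL (KF_st hst (Set.empty_subset _) hg) hk
  have h2 := hw.2 _ h1
  rw [s.br, s.st_st] at h2
  rw [tr_br]
  exact h2

theorem qq_st {i : ι} {w : End ℂ (V z)} (hw : w ∈ qq L x s S i) : s.st w ∈ qq L x s S i := by
  refine ⟨KF_st hst Set.diff_subset hw.1, fun k hk => ?_⟩
  have h1 := hw.2 _ (KF_st hst le_rfl hk)
  rw [s.st_st] at h1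
  rw [tr_comm, ← s.mul, s.conj_tr, h1, map_zero]

theorem qq_ne {i : ι} (h : KF L x z (S \ {i}) ≠ KF L x z S) : qq L x s S i ≠ ⊥ := by
  intro hb
  apply h
  refine le_antisymm (fun w hw => ?_) (KF_mono Set.diff_subset)
  obtain ⟨a, ha, h1⟩ := s.proj (KF L x z S) w
  have h2 : w - a ∈ qq L x s S i := ⟨sub_mem hw (KF_mono Set.diff_subset ha), h1⟩
  rw [hb, Submodule.mem_bot, sub_eq_zero] at h2
  rw [h2]
  exact ha

theorem qq_comm {i k : ι} (hik : i ≠ k) {a b : End ℂ (V z)} (ha : a ∈ qq L x s S i)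
    (hb : b ∈ qq L x s S k) : a * b = b * a := by
  have h1 : a * b - b * a ∈ KF L x z S := by
    have h2 := KF_br' hL ha.1 hb.1
    refine KF_mono (fun j hj => ?_) h2
    by_cases hji : j = i
    · exact Or.inr ⟨hj, fun h => hik (hji.symm.trans h)⟩
    · exact Or.inl ⟨hj, hji⟩
  have h2 : a * b - b * a ∈ qq L x s S k := qq_br hL hst (KF_mono (Set.empty_subset _) ha.1) hb
  exact sub_eq_zero.1 (s.pos _ (h2.2 _ h1))

theorem qq_central {i : ι} (hcomm : ∀ a ∈ qq L x s S i, ∀ b ∈ qq L x s S i, a * b = b * a)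
    {g w : End ℂ (V z)} (hg : g ∈ KF L x z ∅) (hw : w ∈ qq L x s S i) : g * w = w * g := by
  have h1 := qq_br hL hst hg hw
  have h2 := qq_st hL hst h1
  have h3 : tr (s.st (g * w - w * g) * (w * g - g * w)) = 0 := by
    rw [tr_br, hcomm _ h2 _ hw, sub_self, zero_mul, map_zero]
  refine sub_eq_zero.1 (s.pos _ ?_)
  have h4 : s.st (g * w - w * g) * (g * w - w * g) =
      -(s.st (g * w - w * g) * (w * g - g * w)) := by
    rw [← mul_neg, neg_sub]
  rw [h4, map_neg, h3, neg_zero]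

theorem zz_st {y : End ℂ (V z)} (hy : y ∈ zz L x z S) : s.st y ∈ zz L x z S := by
  refine ⟨KF_st hst (Set.empty_subset _) hy.1, fun g hg => ?_, fun k hk => ?_⟩
  · have h1 := hy.2.1 _ (KF_st hst (Set.empty_subset _) hg)
    rw [← s.st_st g, ← s.mul, ← s.mul, h1]
  · have h1 := hy.2.2 _ (KF_st hst le_rfl hk)
    rw [← s.st_st k, ← s.mul, s.conj_tr, tr_comm, h1, map_zero]

/-- the elements of an abelian `qq` are in the centre -/
theorem qq_zz {i : ι} (hcomm : ∀ a ∈ qq L x s S i, ∀ b ∈ qq L x s S i, a * b = b * a)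
    {w : End ℂ (V z)} (hw : w ∈ qq L x s S i) : w ∈ zz L x z S := by
  refine ⟨KF_mono (Set.empty_subset _) hw.1, fun g hg => qq_central hL hst hcomm hg hw,
    fun k hk => ?_⟩
  have h1 := hw.2 _ (KF_st hst le_rfl hk)
  rwa [s.st_st, tr_comm] at h1

/-- the span of the commutators -/
theorem qq_bracket {i : ι} (hn : ∃ a ∈ qq L x s S i, ∃ b ∈ qq L x s S i, a * b ≠ b * a) :
    ∃ T ∈ qq L x s S i, s.st T = T ∧ T ≠ 0 ∧
      ∀ y : End ℂ (V z), (∀ a ∈ qq L x s S i, a * y = y * a) → tr (T * y) = 0 := by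
  let Q : Submodule ℂ (End ℂ (V z)) := Submodule.span ℂ
    {c | ∃ a ∈ qq L x s S i, ∃ b ∈ qq L x s S i, c = a * b - b * a}
  have hQ : ∀ c ∈ Q, s.st c ∈ Q := by
    intro c hc
    induction hc using Submodule.span_induction with
    | mem c hc =>
      obtain ⟨a, ha, b, hb, rfl⟩ := hc
      rw [s.br]
      exact Submodule.subset_span ⟨_, qq_st hL hst hb, _, qq_st hL hst ha, rfl⟩
    | zero => rw [s.zero]; exact zero_mem _
    | add a b _ _ ha hb => rw [s.add]; exact add_mem ha hb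
    | smul c a _ ha => rw [s.smul]; exact Q.smul_mem _ ha
  have hQ0 : Q ≠ ⊥ := by
    obtain ⟨a, ha, b, hb, h⟩ := hn
    intro h0
    have h1 : a * b - b * a ∈ Q := Submodule.subset_span ⟨a, ha, b, hb, rfl⟩
    rw [h0, Submodule.mem_bot, sub_eq_zero] at h1
    exact h h1
  obtain ⟨T, hT, h1, h2⟩ := s.exists_sa hQ hQ0
  refine ⟨T, ?_, h1, h2, fun y hy => ?_⟩
  · refine (Submodule.span_le.2 ?_ : Q ≤ qq L x s S i) hT
    rintro _ ⟨a, ha, b, hb, rfl⟩
    exact qq_br hL hst (KF_mono (Set.empty_subset _) ha.1) hb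
  · clear h1 h2
    induction hT using Submodule.span_induction with
    | mem c hc =>
      obtain ⟨a, ha, b, hb, rfl⟩ := hc
      rw [← tr_br, hy b hb, sub_self, mul_zero, map_zero]
    | zero => rw [zero_mul, map_zero]
    | add a b _ _ ha hb => rw [add_mul, map_add, ha, hb, add_zero]
    | smul c a _ ha => rw [smul_mul_assoc, map_smul, ha, smul_zero]

end

/-- **Commuting self-adjoint operators.** -/
theorem exists_torus [FiniteDimensional ℂ (V z)] (hL : ∀ D ∈ L, ∀ E ∈ L, D * E - E * D ∈ L)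
    {S : Finset ι} (hst : StC L x s (S : Set ι))
    (hne : ∀ i ∈ S, KF L x z ((S : Set ι) \ {i}) ≠ KF L x z S)
    (hchar : ∀ A : Finset ι, A ⊆ S → (∀ i ∈ A, ∀ a ∈ qq L x s (S : Set ι) i,
      ∀ b ∈ qq L x s (S : Set ι) i, a * b = b * a) → A.card ≤ finrank ℂ (zz L x z (S : Set ι))) :
    ∃ (κ : Type) (_ : Fintype κ) (T : κ → End ℂ (V z)), S.card ≤ Fintype.card κ ∧
      (∀ i, T i ∈ KF L x z ∅ ∧ s.st (T i) = T i) ∧ (∀ i j, T i * T j = T j * T i) ∧
      LinearIndependent ℂ T := by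
  classical
  let P : ι → Prop := fun i => ∃ a ∈ qq L x s (S : Set ι) i, ∃ b ∈ qq L x s (S : Set ι) i,
    a * b ≠ b * a
  obtain ⟨A, hA⟩ : ∃ A : Finset ι, A = S.filter P := ⟨_, rfl⟩
  obtain ⟨B, hB⟩ : ∃ B : Finset ι, B = S.filter fun i => ¬P i := ⟨_, rfl⟩
  have hAB : A.card + B.card = S.card := by
    rw [hA, hB]
    exact Finset.card_filter_add_card_filter_not P
  have hAP : ∀ i ∈ A, i ∈ S ∧ P i := fun i hi => by
    rw [hA, Finset.mem_filter] at hi; exact hi
  have hBc : B.card ≤ finrank ℂ (zz L x z (S : Set ι)) := by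
    refine hchar B (by rw [hB]; exact Finset.filter_subset _ _) fun i hi a ha b hb => ?_
    rw [hB, Finset.mem_filter] at hi
    by_contra h
    exact hi.2 ⟨a, ha, b, hb, h⟩
  obtain ⟨m, f, hm, hf, hfli, -⟩ := s.exists_sa_basis (A := zz L x z (S : Set ι)) fun a ha =>
    zz_st hL hst ha
  have hT := fun i : Fin A.card => qq_bracket hL hst (i := A.equivFin.symm i)
    (hAP _ (A.equivFin.symm i).2).2
  choose T hTq hTs hT0 hTy using hT
  have hinj : ∀ i j : Fin A.card, i ≠ j →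
      ((A.equivFin.symm i : A) : ι) ≠ ((A.equivFin.symm j : A) : ι) := by
    intro i j hij h
    exact hij (A.equivFin.symm.injective (Subtype.ext h))
  have hTT : ∀ i j, T i * T j = T j * T i := by
    intro i j
    by_cases h : i = j
    · rw [h]
    · exact qq_comm hL hst (hinj i j h) (hTq i) (hTq j)
  have hfT : ∀ i (j : Fin A.card), f i * T j = T j * f i := fun i j =>
    ((hf i).1.2.1 _ (KF_mono (Set.empty_subset _) (hTq j).1)).symm
  refine ⟨Fin A.card ⊕ Fin m, inferInstance,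
    Sum.elim T f, ?_, ?_, ?_, ?_⟩
  · rw [Fintype.card_sum, Fintype.card_fin, Fintype.card_fin]
    omega
  · rintro (i | i)
    · exact ⟨KF_mono (Set.empty_subset _) (hTq i).1, hTs i⟩
    · exact ⟨(hf i).1.1, (hf i).2⟩
  · rintro (i | i) (j | j)
    · exact hTT i j
    · exact (hfT j i).symm
    · exact hfT i j
    · exact (hf j).1.2.1 _ (hf i).1.1
  · rw [Fintype.linearIndependent_iff]
    intro c hc
    rw [Fintype.sum_sum_type] at hc
    simp only [Sum.elim_inl, Sum.elim_inr] at hc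
    have h1 : ∀ i, c (Sum.inl i) = 0 := by
      intro i
      have h2 : tr (T i * (∑ j, c (Sum.inl j) • T j + ∑ j, c (Sum.inr j) • f j)) = 0 := by
        rw [hc, mul_zero, map_zero]
      rw [mul_add, map_add, Finset.mul_sum, Finset.mul_sum, map_sum, map_sum] at h2
      have h3 : ∑ j, tr (T i * c (Sum.inr j) • f j) = 0 := by
        refine Finset.sum_eq_zero fun j _ => ?_
        rw [mul_smul_comm, map_smul, hTy i (f j) fun a ha => ?_, smul_zero]
        exact (hf j).1.2.1 _ (KF_mono (Set.empty_subset _) ha.1)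
      have h4 : ∑ j, tr (T i * c (Sum.inl j) • T j) = c (Sum.inl i) * tr (T i * T i) := by
        rw [Finset.sum_eq_single i]
        · rw [mul_smul_comm, map_smul, smul_eq_mul]
        · intro j _ hj
          rw [mul_smul_comm, map_smul, hTy i (T j) fun a ha => ?_, smul_zero]
          exact qq_comm hL hst (hinj i j (Ne.symm hj)) ha (hTq j)
        · intro h; exact absurd (Finset.mem_univ _) h
      rw [h3, h4, add_zero] at h2
      refine (mul_eq_zero.1 h2).resolve_right fun h5 => hT0 i (s.pos _ ?_)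
      rw [hTs]
      exact h5
    have h3 : ∑ j, c (Sum.inl j) • T j = 0 :=
      Finset.sum_eq_zero fun j _ => by rw [h1 j, zero_smul]
    have h2 : ∑ j, c (Sum.inr j) • f j = 0 := by
      rw [← hc, h3, zero_add]
    rintro (i | i)
    · exact h1 i
    · exact Fintype.linearIndependent_iff.1 hfli _ h2 i

end

end Pool.Agent.L5helper28.IF
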